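import Mathlib

set_option autoImplicit false

open Finset

namespace Pool.Agent.H78R2.ET

/-- the number of `i ∈ s` for which the fractional part of `y i` lies in `[α, β)` -/
noncomputable def cnt {ι : Type} (s : Finset ι) (y : ι → ℝ) (α β : ℝ) : ℕ :=
  (s.filter (fun i => α ≤ Int.fract (y i) ∧ Int.fract (y i) < β)).card

/-- The points `y i` (`i ∈ s`) have discrepancy at least `ε` modulo one: the proportion of the
`i ∈ s` for which the fractional part of `y i` lies in some interval `[α, β) ⊆ [0, 1)` differs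
from the length `β - α` by at least `ε`. -/
def Uneven {ι : Type} (ε : ℝ) (s : Finset ι) (y : ι → ℝ) : Prop :=
  ∃ α β : ℝ, 0 ≤ α ∧ α ≤ β ∧ β ≤ 1 ∧ ε * s.card ≤ |(cnt s y α β : ℝ) - (β - α) * s.card|

/-- The integers `a` for which the numbers `a / u j`, `j` running through the indices with
`u j ≤ a`, have discrepancy at least `ε` modulo one.  For `u j = g ^ j` these are the integers
which are not `ε`-normal in base `g`. -/
def Irregular (u : ℕ → ℝ) (ε : ℝ) : Set ℕ :=
  {a | ∃ F : Finset ℕ, (∀ j, j ∈ F ↔ u j ≤ a) ∧ Uneven ε F (fun j => (a : ℝ) / u j)}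

end Pool.Agent.H78R2.ET
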