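import Mathlib
import Pool.Agent.H380R2.Energy

set_option autoImplicit false

open Finset

namespace Pool.Agent.H78R2.ET

/-- `e(t) = exp(2 π i t)` -/
noncomputable def ee (t : ℝ) : ℂ := Complex.exp (2 * Real.pi * Complex.I * t)

lemma norm_ee (t : ℝ) : ‖ee t‖ = 1 := by
  unfold ee
  have : (2 * Real.pi * Complex.I * t : ℂ) = ((2 * Real.pi * t : ℝ) : ℂ) * Complex.I := by
    push_cast; ring
  rw [this, Complex.norm_exp_ofReal_mul_I]

lemma fourier_eq_ee (n : ℤ) (t : ℝ) :
    (fourier n : C(UnitAddCircle, ℂ)) (t : UnitAddCircle) = ee (n * t) := by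
  rw [fourier_coe_apply]
  unfold ee
  congr 1
  push_cast
  simp
  ring

/-- the trapezoidal function around `m` -/
noncomputable def trap (m w δ : ℝ) : C(UnitAddCircle, ℂ) where
  toFun := fun t => ((max 0 (min 1 (1 - (‖t - (m : UnitAddCircle)‖ - w) / δ)) : ℝ) : ℂ)
  continuous_toFun := by fun_prop

lemma trap_apply (m w δ t : ℝ) :
    trap m w δ (t : UnitAddCircle) =
      ((max 0 (min 1 (1 - (‖((t - m : ℝ) : UnitAddCircle)‖ - w) / δ)) : ℝ) : ℂ) := by
  rfl

/-- shifted averages over the `N`-th parts pick the constant coefficient -/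
lemma avg_coeff (c : ℤ →₀ ℂ) (N : ℕ) (hN : 0 < N) (hc : ∀ n ∈ c.support, n.natAbs < N)
    (i₀ : ℤ) :
    ∑ i ∈ range N, c.sum (fun n z => z * ee (n * (((i : ℤ) + i₀ : ℤ) / (N : ℝ)))) = N * c 0 := by
  have hN0 : (N : ℂ) ≠ 0 := by exact_mod_cast hN.ne'
  unfold Finsupp.sum
  rw [Finset.sum_comm]
  have h1 : ∀ n ∈ c.support, ∑ i ∈ range N, c n * ee (n * (((i : ℤ) + i₀ : ℤ) / (N : ℝ))) =
      if n = 0 then (N : ℂ) * c 0 else 0 := by
    intro n hn
    have h2 : ∀ i : ℕ, c n * ee (n * (((i : ℤ) + i₀ : ℤ) / (N : ℝ))) =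
        (c n * ee (n * (i₀ / (N : ℝ)))) *
          Complex.exp (2 * Real.pi * Complex.I * ((i : ℂ) * (n : ℂ)) / (N : ℂ)) := by
      intro i
      unfold ee
      rw [mul_assoc (c n), ← Complex.exp_add]
      congr 2
      push_cast
      field_simp
      ring
    simp_rw [h2]
    rw [← Finset.mul_sum, Pool.Agent.H380R2.geom_exp N hN n]
    split_ifs with h3 h4 h4
    · subst h4
      simp [ee]
      ring
    · exfalso
      have := Int.natAbs_dvd_natAbs.2 h3
      rw [Int.natAbs_natCast] at this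
      have h5 := Nat.le_of_dvd (Int.natAbs_pos.2 h4) this
      have := hc n hn
      omega
    · exfalso
      apply h3
      rw [h4]
      exact dvd_zero _
    · simp
  rw [Finset.sum_congr rfl h1, Finset.sum_ite_eq']
  split_ifs with h
  · rfl
  · rw [Finsupp.notMem_support_iff] at h
    rw [h]
    ring

lemma card_le (N : ℕ) (hN : 0 < N) (i₀ : ℤ) (m ρ : ℝ) (hρ : 0 ≤ ρ) :
    ((((range N).filter (fun i : ℕ => |(((i : ℤ) + i₀ : ℤ) : ℝ) / (N : ℝ) - m| ≤ ρ)).card : ℕ) : ℝ) ≤
      2 * ρ * N + 1 := by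
  have hNr : (0 : ℝ) < N := by exact_mod_cast hN
  set a : ℤ := ⌈(m - ρ) * N⌉ with ha
  set b : ℤ := ⌊(m + ρ) * N⌋ with hb
  have h1 : ((range N).filter (fun i : ℕ => |(((i : ℤ) + i₀ : ℤ) : ℝ) / (N : ℝ) - m| ≤ ρ)).card ≤
      (Finset.Icc a b).card := by
    apply Finset.card_le_card_of_injOn (fun i : ℕ => (i : ℤ) + i₀)
    · intro i hi
      simp only [Finset.coe_filter, Set.mem_ofPred_eq, Finset.mem_range] at hi
      obtain ⟨_, hi2⟩ := hi
      rw [abs_le] at hi2
      obtain ⟨h3, h4⟩ := hi2
      simp only [Finset.coe_Icc, Set.mem_Icc]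
      constructor
      · rw [ha, Int.ceil_le]
        have : m - ρ ≤ (((i : ℤ) + i₀ : ℤ) : ℝ) / (N : ℝ) := by linarith
        rwa [le_div_iff₀ hNr] at this
      · rw [hb, Int.le_floor]
        have : (((i : ℤ) + i₀ : ℤ) : ℝ) / (N : ℝ) ≤ m + ρ := by linarith
        rwa [div_le_iff₀ hNr] at this
    · intro i _ j _ hij
      simp only [add_left_inj, Nat.cast_inj] at hij
      exact hij
  have h2 : ((Finset.Icc a b).card : ℝ) ≤ 2 * ρ * N + 1 := by
    rw [Int.card_Icc]
    by_cases hab : 0 ≤ b + 1 - a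
    · have h3 : (((b + 1 - a).toNat : ℕ) : ℝ) = ((b + 1 - a : ℤ) : ℝ) := by
        have : (((b + 1 - a).toNat : ℕ) : ℤ) = b + 1 - a := Int.toNat_of_nonneg hab
        exact_mod_cast this
      rw [h3]
      push_cast
      have h4 : (b : ℝ) ≤ (m + ρ) * N := Int.floor_le _
      have h5 : (m - ρ) * N ≤ (a : ℝ) := Int.le_ceil _
      nlinarith
    · push Not at hab
      rw [Int.toNat_of_nonpos hab.le]
      have : 0 ≤ 2 * ρ * N := by positivity
      simp only [Nat.cast_zero]
      linarith
  calc _ ≤ ((Finset.Icc a b).card : ℝ) := by exact_mod_cast h1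
    _ ≤ _ := h2

/-- trigonometric majorant of an interval -/
theorem exists_majorant (α β ε : ℝ) (hαβ : α ≤ β) (hε : 0 < ε) :
    ∃ c : ℤ →₀ ℂ, (∀ t : ℝ, (if α ≤ Int.fract t ∧ Int.fract t < β then (1 : ℝ) else 0) ≤
      (c.sum (fun n z => z * ee (n * t))).re) ∧ (c 0).re ≤ β - α + ε := by
  classical
  set m : ℝ := (α + β) / 2 with hm
  set w : ℝ := (β - α) / 2 with hw
  set δ : ℝ := ε / 8 with hδ
  have hδ0 : 0 < δ := by positivity
  have hw0 : 0 ≤ w := by rw [hw]; linarith
  set f := trap m w δ with hf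
  have hcl : f ∈ (Submodule.span ℂ (Set.range (fourier (T := (1 : ℝ))))).topologicalClosure := by
    rw [span_fourier_closure_eq_top]
    trivial
  have hcl2 : f ∈ closure ((Submodule.span ℂ (Set.range (fourier (T := (1 : ℝ)))) :
      Submodule ℂ C(UnitAddCircle, ℂ)) : Set C(UnitAddCircle, ℂ)) := hcl
  rw [Metric.mem_closure_iff] at hcl2
  obtain ⟨Q, hQ, hdist⟩ := hcl2 δ hδ0
  rw [SetLike.mem_coe, Finsupp.mem_span_range_iff_exists_finsupp] at hQ
  obtain ⟨c', hc'⟩ := hQ
  have hQapp : ∀ t : ℝ, Q (t : UnitAddCircle) = c'.sum (fun n z => z * ee (n * t)) := by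
    intro t
    rw [← hc']
    unfold Finsupp.sum
    rw [ContinuousMap.coe_sum, Finset.sum_apply]
    apply Finset.sum_congr rfl
    intro n _
    rw [ContinuousMap.coe_smul, Pi.smul_apply, fourier_eq_ee, smul_eq_mul]
  have hclose : ∀ t : ℝ, ‖f (t : UnitAddCircle) - Q (t : UnitAddCircle)‖ < δ := by
    intro t
    rw [← dist_eq_norm]
    exact lt_of_le_of_lt (ContinuousMap.dist_apply_le_dist _) hdist
  have hre : ∀ t : ℝ, |(f (t : UnitAddCircle)).re - (Q (t : UnitAddCircle)).re| < δ := by
    intro t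
    have := Complex.abs_re_le_norm (f (t : UnitAddCircle) - Q (t : UnitAddCircle))
    rw [Complex.sub_re] at this
    exact lt_of_le_of_lt this (hclose t)
  refine ⟨c' + Finsupp.single 0 (δ : ℂ), ?_, ?_⟩
  · intro t
    have h1 : (c' + Finsupp.single 0 (δ : ℂ)).sum (fun n z => z * ee (n * t)) =
        Q (t : UnitAddCircle) + δ := by
      rw [Finsupp.sum_add_index', Finsupp.sum_single_index, ← hQapp t]
      · simp [ee]
      · simp
      · intro n; simp
      · intro n z₁ z₂; ring
    rw [h1, Complex.add_re, Complex.ofReal_re]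
    have h2 := hre t
    rw [abs_lt] at h2
    have h3 : (if α ≤ Int.fract t ∧ Int.fract t < β then (1 : ℝ) else 0) ≤
        (f (t : UnitAddCircle)).re := by
      rw [hf, trap_apply, Complex.ofReal_re]
      split_ifs with h4
      · have h5 : ‖((t - m : ℝ) : UnitAddCircle)‖ ≤ w := by
          rw [UnitAddCircle.norm_eq]
          refine le_trans (round_le (t - m) (⌊t⌋)) ?_
          rw [abs_le]
          have h6 : t - (⌊t⌋ : ℝ) = Int.fract t := rfl
          constructor
          · rw [hw, hm]; linarith [h4.1]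
          · rw [hw, hm]; linarith [h4.2.le]
        have h6 : 1 ≤ 1 - (‖((t - m : ℝ) : UnitAddCircle)‖ - w) / δ := by
          have : (‖((t - m : ℝ) : UnitAddCircle)‖ - w) / δ ≤ 0 :=
            div_nonpos_of_nonpos_of_nonneg (by linarith) hδ0.le
          linarith
        rw [min_eq_left h6]
        exact le_max_right _ _
      · exact le_max_left _ _
    linarith
  · -- the constant coefficient
    obtain ⟨N₀, hN₀⟩ : ∃ N₀ : ℕ, ∀ n ∈ c'.support, n.natAbs < N₀ := by
      refine ⟨(c'.support.sup Int.natAbs) + 1, ?_⟩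
      intro n hn
      exact Nat.lt_succ_of_le (Finset.le_sup (f := Int.natAbs) hn)
    obtain ⟨N₁, hN₁⟩ := exists_nat_gt (1 / δ)
    set N := N₀ + N₁ + 1 with hNdef
    have hNpos : 0 < N := by omega
    have hNr : (0 : ℝ) < N := by exact_mod_cast hNpos
    have hc2 : ∀ n ∈ c'.support, n.natAbs < N := by
      intro n hn
      have := hN₀ n hn
      omega
    set i₀ : ℤ := ⌈(m - 1 / 2) * N⌉ with hi₀
    have h1 := avg_coeff c' N hNpos hc2 i₀
    have h2 : ∑ i ∈ range N, (Q ((((i : ℤ) + i₀ : ℤ) / (N : ℝ) : ℝ) : UnitAddCircle)).re =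
        N * (c' 0).re := by
      have h3 := congrArg Complex.re h1
      rw [Complex.re_sum] at h3
      simp_rw [← hQapp] at h3
      rw [h3]
      simp
    have h3 : ∑ i ∈ range N, (Q ((((i : ℤ) + i₀ : ℤ) / (N : ℝ) : ℝ) : UnitAddCircle)).re ≤
        ∑ i ∈ range N, ((if |(((i : ℤ) + i₀ : ℤ) : ℝ) / (N : ℝ) - m| ≤ w + δ then (1 : ℝ) else 0)
          + δ) := by
      apply Finset.sum_le_sum
      intro i hi
      rw [Finset.mem_range] at hi
      set t : ℝ := (((i : ℤ) + i₀ : ℤ) / (N : ℝ) : ℝ) with ht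
      have h4 := hre t
      rw [abs_lt] at h4
      have h5 : (f (t : UnitAddCircle)).re ≤ if |t - m| ≤ w + δ then (1 : ℝ) else 0 := by
        rw [hf, trap_apply, Complex.ofReal_re]
        split_ifs with h6
        · exact max_le zero_le_one (min_le_left _ _)
        · push Not at h6
          have h7 : round (t - m) = 0 := by
            rw [round_eq_zero_iff, Set.mem_Ico]
            have hi0 : (m - 1 / 2) * N ≤ (i₀ : ℝ) := Int.le_ceil _
            have hi1 : (i₀ : ℝ) < (m - 1 / 2) * N + 1 := Int.ceil_lt_add_one _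
            have hir : (i : ℝ) + 1 ≤ N := by exact_mod_cast hi
            have hi2 : (0 : ℝ) ≤ i := by positivity
            have e1 : t * N = (i : ℝ) + i₀ := by
              rw [ht]
              push_cast
              field_simp
            constructor
            · have : (m - 1 / 2) * N ≤ t * N := by rw [e1]; linarith
              have := le_of_mul_le_mul_right this hNr
              linarith
            · have : t * N < (m + 1 / 2) * N := by rw [e1]; linarith
              have := lt_of_mul_lt_mul_right this hNr.le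
              linarith
          have h8 : ‖((t - m : ℝ) : UnitAddCircle)‖ = |t - m| := by
            rw [UnitAddCircle.norm_eq, h7]
            simp
          rw [h8]
          have h9 : 1 - (|t - m| - w) / δ ≤ 0 := by
            have : 1 ≤ (|t - m| - w) / δ := by
              rw [le_div_iff₀ hδ0]
              linarith
            linarith
          exact max_le le_rfl (le_trans (min_le_right _ _) h9)
      linarith
    rw [h2, Finset.sum_add_distrib, Finset.sum_const, Finset.card_range, nsmul_eq_mul,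
      ← Finset.sum_filter, Finset.sum_const, nsmul_eq_mul, mul_one] at h3
    have h4 := card_le N hNpos i₀ m (w + δ) (by positivity)
    have h5 : (N : ℝ) * (c' 0).re ≤ N * (2 * (w + δ) + 2 * δ) := by
      have h6 : 1 ≤ δ * N := by
        have h7 : 1 / δ < N := by
          refine lt_of_lt_of_le hN₁ ?_
          rw [hNdef]
          push_cast
          have : (0 : ℝ) ≤ N₀ := by positivity
          linarith
        rw [div_lt_iff₀ hδ0] at h7
        linarith
      nlinarith
    have h6 := le_of_mul_le_mul_left h5 hNr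
    rw [Finsupp.add_apply, Finsupp.single_eq_same, Complex.add_re, Complex.ofReal_re]
    rw [hw, hδ] at h6
    rw [hδ]
    linarith

end Pool.Agent.H78R2.ET
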