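import Mathlib
import Pool.Agent.H380R2.HAssembly
import Pool.Agent.H78R2.ET.Maj
import Pool.Agent.H78R2.ET.Defs

set_option autoImplicit false

open Finset

namespace Pool.Agent.H78R2.ET

open Pool.Agent.H380R2

/-- exponential sum over `T` at the frequency `θ` -/
noncomputable def S (T : Finset ℕ) (θ : ℝ) : ℂ := ∑ a ∈ T, ee (θ * a)

lemma norm_S_le (T : Finset ℕ) (θ : ℝ) : ‖S T θ‖ ≤ T.card := by
  unfold S
  refine le_trans (norm_sum_le _ _) ?_
  simp [norm_ee]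

/-- index of the fraction `n / d` among the fractions of denominator `M` -/
def idx (n : ℤ) (M d : ℕ) : ℕ := ((n * ((M / d : ℕ) : ℤ)) % (M : ℤ)).toNat

lemma idx_lt (n : ℤ) (M d : ℕ) (hM : 0 < M) : idx n M d < M := by
  unfold idx
  have h1 := Int.emod_nonneg (n * ((M / d : ℕ) : ℤ)) (show (M : ℤ) ≠ 0 by omega)
  have h2 := Int.emod_lt_of_pos (n * ((M / d : ℕ) : ℤ)) (show (0 : ℤ) < M by omega)
  omega

lemma idx_cast (n : ℤ) (M d : ℕ) (hM : 0 < M) :
    ((idx n M d : ℕ) : ℤ) = (n * ((M / d : ℕ) : ℤ)) % (M : ℤ) := by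
  unfold idx
  exact Int.toNat_of_nonneg (Int.emod_nonneg _ (by omega))

lemma S_eq_expSum (T : Finset ℕ) (n : ℤ) (M d : ℕ) (hM : 0 < M) (hd : d ∣ M) :
    S T ((n : ℝ) / d) = expSum T id M (idx n M d) := by
  unfold S expSum
  apply Finset.sum_congr rfl
  intro a _
  unfold ee
  have hd0 : 0 < d := Nat.pos_of_dvd_of_pos hd hM
  obtain ⟨e, he⟩ := hd
  have hMd : M / d = e := by rw [he]; exact Nat.mul_div_cancel_left e hd0
  have he0 : 0 < e := by
    rcases Nat.eq_zero_or_pos e with h | h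
    · rw [h, mul_zero] at he; omega
    · exact h
  have h1 := idx_cast n M d hM
  rw [hMd] at h1
  have h2 : n * (e : ℤ) = (idx n M d : ℤ) + M * ((n * (e : ℤ)) / M) := by
    rw [h1]; exact (Int.emod_add_mul_ediv _ _).symm
  set q : ℤ := (n * (e : ℤ)) / M with hq
  set k := idx n M d with hk
  have hMc : (M : ℂ) ≠ 0 := by exact_mod_cast hM.ne'
  have hdc : (d : ℂ) ≠ 0 := by exact_mod_cast hd0.ne'
  have hec : (e : ℂ) ≠ 0 := by exact_mod_cast he0.ne'
  have hMe : (M : ℂ) = d * e := by rw [he]; push_cast; ring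
  have h3 : (n : ℂ) * e = (k : ℂ) + M * q := by exact_mod_cast h2
  have h4 : (2 * Real.pi * Complex.I * (((n : ℝ) / d * a : ℝ) : ℂ) : ℂ) =
      2 * Real.pi * Complex.I * ((k : ℂ) * ((id a : ℕ) : ℂ)) / (M : ℂ) +
        ((q * a : ℤ) : ℂ) * (2 * Real.pi * Complex.I) := by
    have h5 : (n : ℂ) / d = (k : ℂ) / M + q := by
      rw [div_eq_iff hdc]
      have : (n : ℂ) = ((k : ℂ) + M * q) / e := by rw [← h3]; field_simp
      rw [this, hMe]
      field_simp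
    push_cast
    rw [h5]
    simp only [id]
    field_simp
  rw [h4, Complex.exp_add, Complex.exp_int_mul_two_pi_mul_I, mul_one]

/-- For `1 ≤ n ≤ H` the numbers `n θ` (`θ ∈ Θ`) have pairwise distances at least `c / X`
modulo one. -/
def Spread (c : ℝ) (X H : ℕ) (Θ : Finset ℝ) : Prop :=
  ∀ n : ℕ, 1 ≤ n → n ≤ H → ∀ θ ∈ Θ, ∀ θ' ∈ Θ, θ ≠ θ' → ∀ k : ℤ, c ≤ X * |n * (θ - θ') - k|

lemma Spread.mono {c : ℝ} {X H H' : ℕ} {Θ Θ' : Finset ℝ} (h : Spread c X H Θ) (hH : H' ≤ H)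
    (hΘ : Θ' ⊆ Θ) : Spread c X H' Θ' :=
  fun n h1 h2 θ h3 θ' h4 h5 k => h n h1 (h2.trans hH) θ (hΘ h3) θ' (hΘ h4) h5 k

lemma Spread.int {c : ℝ} {X H : ℕ} {Θ : Finset ℝ} (h : Spread c X H Θ) (n : ℤ) (hn : n ≠ 0)
    (hnH : n.natAbs ≤ H) (θ : ℝ) (hθ : θ ∈ Θ) (θ' : ℝ) (hθ' : θ' ∈ Θ) (hne : θ ≠ θ') (k : ℤ) :
    c ≤ X * |n * (θ - θ') - k| := by
  rcases le_or_gt 0 n with h0 | h0
  · have h1 := h n.natAbs (by omega) hnH θ hθ θ' hθ' hne k
    have h2 : ((n.natAbs : ℕ) : ℝ) = (n : ℝ) := by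
      have : ((n.natAbs : ℕ) : ℤ) = n := by omega
      calc ((n.natAbs : ℕ) : ℝ) = (((n.natAbs : ℕ) : ℤ) : ℝ) := (Int.cast_natCast _).symm
        _ = (n : ℝ) := by rw [this]
    rw [h2] at h1
    exact h1
  · have h1 := h n.natAbs (by omega) hnH θ hθ θ' hθ' hne (-k)
    have h2 : ((n.natAbs : ℕ) : ℝ) = -(n : ℝ) := by
      have : ((n.natAbs : ℕ) : ℤ) = -n := by omega
      calc ((n.natAbs : ℕ) : ℝ) = (((n.natAbs : ℕ) : ℤ) : ℝ) := (Int.cast_natCast _).symm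
        _ = -(n : ℝ) := by rw [this]; push_cast; ring
    rw [h2] at h1
    have h3 : -(n : ℝ) * (θ - θ') - ((-k : ℤ) : ℝ) = -(n * (θ - θ') - k) := by
      push_cast
      ring
    rw [h3, abs_neg] at h1
    exact h1

lemma norm_ee_sub (u v : ℝ) : ‖ee u - ee v‖ ≤ 2 * Real.pi * |u - v| := by
  have h1 : ee u - ee v = ee v * (ee (u - v) - 1) := by
    unfold ee
    rw [mul_sub, mul_one, ← Complex.exp_add]
    congr 2
    push_cast
    ring
  have h2 : ee (u - v) = Complex.exp (Complex.I * ((2 * Real.pi * (u - v) : ℝ) : ℂ)) := by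
    unfold ee
    congr 1
    push_cast
    ring
  rw [h1, norm_mul, norm_ee, one_mul, h2]
  refine le_trans Real.norm_exp_I_mul_ofReal_sub_one_le ?_
  rw [Real.norm_eq_abs, abs_mul, abs_of_nonneg (by positivity : (0 : ℝ) ≤ 2 * Real.pi)]

lemma norm_S_sub (T : Finset ℕ) (X : ℕ) (hTX : ∀ a ∈ T, a ≤ X) (θ θ' : ℝ) :
    ‖S T θ - S T θ'‖ ≤ T.card * (2 * Real.pi * X * |θ - θ'|) := by
  unfold S
  rw [← Finset.sum_sub_distrib]
  refine le_trans (norm_sum_le _ _) ?_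
  have h1 : ∀ a ∈ T, ‖ee (θ * a) - ee (θ' * a)‖ ≤ 2 * Real.pi * X * |θ - θ'| := by
    intro a ha
    refine le_trans (norm_ee_sub _ _) ?_
    rw [← sub_mul, abs_mul, abs_of_nonneg (by positivity : (0 : ℝ) ≤ (a : ℝ))]
    have h2 : (a : ℝ) ≤ X := by exact_mod_cast hTX a ha
    have h3 : |θ - θ'| * (a : ℝ) ≤ |θ - θ'| * X := mul_le_mul_of_nonneg_left h2 (abs_nonneg _)
    have h4 : 0 ≤ 2 * Real.pi := by positivity
    nlinarith
  refine le_trans (Finset.sum_le_sum h1) ?_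
  rw [Finset.sum_const, nsmul_eq_mul]

/-- the index of the fraction with denominator `M` closest to `θ` -/
noncomputable def near (M : ℕ) (θ : ℝ) : ℕ := idx (round (M * θ)) M M

lemma near_lt (M : ℕ) (hM : 0 < M) (θ : ℝ) : near M θ < M := idx_lt _ _ _ hM

lemma norm_S_near (T : Finset ℕ) (X L : ℕ) (hX : 0 < X) (hL : 0 < L) (hTX : ∀ a ∈ T, a ≤ X)
    (θ : ℝ) : ‖S T θ‖ ≤ ‖expSum T id (L * X) (near (L * X) θ)‖ + T.card * (Real.pi / L) := by
  have hM : 0 < L * X := Nat.mul_pos hL hX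
  have hMr : (0 : ℝ) < ((L * X : ℕ) : ℝ) := by exact_mod_cast hM
  have hLr : (0 : ℝ) < (L : ℝ) := by exact_mod_cast hL
  have hXr : (0 : ℝ) < (X : ℝ) := by exact_mod_cast hX
  have h1 := S_eq_expSum T (round (((L * X : ℕ) : ℝ) * θ)) (L * X) (L * X) hM (dvd_refl _)
  have h2 := norm_S_sub T X hTX θ ((round (((L * X : ℕ) : ℝ) * θ) : ℝ) / ((L * X : ℕ) : ℝ))
  have h3 : |θ - (round (((L * X : ℕ) : ℝ) * θ) : ℝ) / ((L * X : ℕ) : ℝ)| ≤
      1 / (2 * ((L * X : ℕ) : ℝ)) := by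
    have h4 : θ - (round (((L * X : ℕ) : ℝ) * θ) : ℝ) / ((L * X : ℕ) : ℝ) =
        (((L * X : ℕ) : ℝ) * θ - round (((L * X : ℕ) : ℝ) * θ)) / ((L * X : ℕ) : ℝ) := by
      field_simp
    rw [h4, abs_div, abs_of_pos hMr, div_le_div_iff₀ hMr (by positivity)]
    have h5 := abs_sub_round (((L * X : ℕ) : ℝ) * θ)
    nlinarith
  have h4 : ‖S T θ‖ ≤ ‖S T ((round (((L * X : ℕ) : ℝ) * θ) : ℝ) / ((L * X : ℕ) : ℝ))‖ +
      ‖S T θ - S T ((round (((L * X : ℕ) : ℝ) * θ) : ℝ) / ((L * X : ℕ) : ℝ))‖ := by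
    have := norm_add_le (S T ((round (((L * X : ℕ) : ℝ) * θ) : ℝ) / ((L * X : ℕ) : ℝ)))
      (S T θ - S T ((round (((L * X : ℕ) : ℝ) * θ) : ℝ) / ((L * X : ℕ) : ℝ)))
    rw [add_sub_cancel] at this
    exact this
  rw [h1] at h4
  refine le_trans h4 ?_
  apply add_le_add (le_refl _)
  rw [h1] at h2
  refine le_trans h2 ?_
  apply mul_le_mul_of_nonneg_left _ (by positivity)
  calc 2 * Real.pi * X * |θ - (round (((L * X : ℕ) : ℝ) * θ) : ℝ) / ((L * X : ℕ) : ℝ)| ≤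
      2 * Real.pi * X * (1 / (2 * ((L * X : ℕ) : ℝ))) :=
        mul_le_mul_of_nonneg_left h3 (by positivity)
    _ = Real.pi / L := by
        push_cast
        field_simp

lemma near_inj (c : ℝ) (X H L : ℕ) (hX : 0 < X) (hL : 0 < L) (hcL : 1 < c * L) (Θ : Finset ℝ)
    (hΘ : Spread c X H Θ) (n : ℤ) (hn : n ≠ 0) (hnH : n.natAbs ≤ H) :
    Set.InjOn (fun θ => near (L * X) (n * θ)) (Θ : Set ℝ) := by
  intro θ hθ θ' hθ' heq
  by_contra hne
  have hM : 0 < L * X := Nat.mul_pos hL hX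
  have hMr : (0 : ℝ) < ((L * X : ℕ) : ℝ) := by exact_mod_cast hM
  simp only [near] at heq
  set r := round (((L * X : ℕ) : ℝ) * (n * θ)) with hr
  set r' := round (((L * X : ℕ) : ℝ) * (n * θ')) with hr'
  have h1 : (r * ((L * X / (L * X) : ℕ) : ℤ)) % ((L * X : ℕ) : ℤ) =
      (r' * ((L * X / (L * X) : ℕ) : ℤ)) % ((L * X : ℕ) : ℤ) := by
    rw [← idx_cast r (L * X) (L * X) hM, ← idx_cast r' (L * X) (L * X) hM, heq]
  rw [Nat.div_self hM, Nat.cast_one, mul_one, mul_one] at h1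
  have h2 : ((L * X : ℕ) : ℤ) ∣ r - r' := Int.ModEq.dvd (Eq.symm h1)
  obtain ⟨q, hq⟩ := h2
  have h3 := hΘ.int n hn hnH θ hθ θ' hθ' hne q
  have h4 := abs_sub_round (((L * X : ℕ) : ℝ) * (n * θ))
  have h5 := abs_sub_round (((L * X : ℕ) : ℝ) * (n * θ'))
  rw [← hr] at h4
  rw [← hr'] at h5
  have hq' : (r : ℝ) - r' = ((L * X : ℕ) : ℝ) * q := by exact_mod_cast hq
  have h6 : ((L * X : ℕ) : ℝ) * |n * (θ - θ') - q| ≤ 1 := by
    have h60 : ((L * X : ℕ) : ℝ) * |n * (θ - θ') - q| =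
        |((L * X : ℕ) : ℝ) * (n * (θ - θ') - q)| := by
      rw [abs_mul, abs_of_pos hMr]
    rw [h60]
    have h7 : ((L * X : ℕ) : ℝ) * (n * (θ - θ') - q) =
        (((L * X : ℕ) : ℝ) * (n * θ) - r) - (((L * X : ℕ) : ℝ) * (n * θ') - r') := by
      have : ((L * X : ℕ) : ℝ) * (n * (θ - θ') - q) =
        ((L * X : ℕ) : ℝ) * (n * θ) - ((L * X : ℕ) : ℝ) * (n * θ') - ((L * X : ℕ) : ℝ) * q := by
        ring
      rw [this, ← hq']
      ring
    rw [h7]
    refine le_trans (abs_sub _ _) ?_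
    linarith
  have hLr : (0 : ℝ) < (L : ℝ) := by exact_mod_cast hL
  have h8 : c * L ≤ ((L * X : ℕ) : ℝ) * |n * (θ - θ') - q| := by
    push_cast
    calc c * L ≤ (X * |n * (θ - θ') - q|) * L := mul_le_mul_of_nonneg_right h3 hLr.le
      _ = _ := by ring
  linarith

/-- few of the frequencies `n θ` have a large exponential sum -/
lemma few_large (h : ℕ) (hh : 1 ≤ h) (κ c : ℝ) (hκ : 0 < κ) (hc : 0 < c) :
    ∃ C : ℝ, 0 < C ∧ ∀ (X H K : ℕ) (Θ : Finset ℝ) (T : Finset ℕ), 0 < X → Spread c X H Θ →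
      (∀ a ∈ T, a ≤ X) → (∀ m, ((tup T h).filter (fun v => ∑ i, v i = m)).card ≤ K) →
      ∀ n : ℤ, n ≠ 0 → n.natAbs ≤ H →
      ((Θ.filter (fun θ => κ * T.card < ‖S T (n * θ)‖)).card : ℝ) * (T.card : ℝ) ^ h ≤
        C * K * X := by
  classical
  obtain ⟨L, hL⟩ := exists_nat_gt (2 * Real.pi / κ + 1 / c)
  have hpic : 0 < 2 * Real.pi / κ := by positivity
  have h1c : 0 < 1 / c := by positivity
  have hLr : (0 : ℝ) < L := by linarith
  have hL0 : 0 < L := by exact_mod_cast hLr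
  have hcL : 1 < c * L := by
    have : 1 / c < L := by linarith
    rw [div_lt_iff₀ hc] at this
    linarith
  have hκL : Real.pi / L < κ / 2 := by
    have : 2 * Real.pi / κ < L := by linarith
    rw [div_lt_iff₀ hκ] at this
    rw [div_lt_div_iff₀ hLr (by norm_num)]
    linarith
  refine ⟨((h : ℝ) + 1) * L / (κ / 2) ^ (2 * h), by positivity, ?_⟩
  intro X H K Θ T hX hΘ hTX hK n hn hnH
  set t : ℝ := (T.card : ℝ) with ht
  have hXr : (0 : ℝ) < X := by exact_mod_cast hX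
  have ht0 : 0 ≤ t := by positivity
  rcases ht0.eq_or_lt with htz | htpos
  · rw [← htz, zero_pow (by omega), mul_zero]
    positivity
  set M : ℕ := L * X with hM
  have hM0 : 0 < M := Nat.mul_pos hL0 hX
  set B := Θ.filter (fun θ => κ * t < ‖S T (n * θ)‖) with hB
  have hinj : Set.InjOn (fun θ => near M (n * θ)) (B : Set ℝ) := by
    refine (near_inj c X H L hX hL0 hcL Θ hΘ n hn hnH).mono ?_
    intro θ hθ
    rw [hB, Finset.mem_coe, Finset.mem_filter] at hθ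
    exact hθ.1
  have h1 : ∀ θ ∈ B, (κ / 2 * t) ^ (2 * h) ≤
      (Complex.normSq (expSum T id M (near M (n * θ)))) ^ h := by
    intro θ hθ
    rw [hB, Finset.mem_filter] at hθ
    have h2 := norm_S_near T X L hX hL0 hTX (n * θ)
    rw [← hM, ← ht] at h2
    have h3 : t * (Real.pi / L) ≤ t * (κ / 2) := mul_le_mul_of_nonneg_left hκL.le ht0
    have h4 : κ / 2 * t ≤ ‖expSum T id M (near M (n * θ))‖ := by linarith [hθ.2]
    rw [Complex.normSq_eq_norm_sq, ← pow_mul]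
    exact pow_le_pow_left₀ (by positivity) h4 _
  have h2 : (B.card : ℝ) * (κ / 2 * t) ^ (2 * h) ≤ ((h : ℝ) + 1) * K * M * t ^ h := by
    calc (B.card : ℝ) * (κ / 2 * t) ^ (2 * h) = ∑ _θ ∈ B, (κ / 2 * t) ^ (2 * h) := by
          rw [Finset.sum_const, nsmul_eq_mul]
      _ ≤ ∑ θ ∈ B, (Complex.normSq (expSum T id M (near M (n * θ)))) ^ h :=
          Finset.sum_le_sum h1
      _ = ∑ k ∈ B.image (fun θ => near M (n * θ)),
          (Complex.normSq (expSum T id M k)) ^ h := by rw [Finset.sum_image hinj]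
      _ ≤ ∑ k ∈ range M, (Complex.normSq (expSum T id M k)) ^ h := by
          apply Finset.sum_le_sum_of_subset_of_nonneg
          · intro k hk
            rw [Finset.mem_image] at hk
            obtain ⟨θ, _, rfl⟩ := hk
            rw [Finset.mem_range]
            exact near_lt M hM0 _
          · intro k _ _
            have := Complex.normSq_nonneg (expSum T id M k)
            positivity
      _ = (M : ℝ) * enh T h M := sum_normSq_pow T h M hM0
      _ ≤ _ := by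
          apply scaled_enh_le T M K h M _ (le_refl _) hK
          intro a ha
          refine le_trans (hTX a ha) ?_
          rw [hM]
          exact Nat.le_mul_of_pos_left X hL0
  have h3 : (M : ℝ) = L * X := by rw [hM]; push_cast; ring
  rw [h3] at h2
  have h6 : (B.card : ℝ) * (κ / 2 * t) ^ (2 * h) =
      t ^ h * ((κ / 2) ^ (2 * h) * ((B.card : ℝ) * t ^ h)) := by
    have h8 : t ^ (2 * h) = t ^ h * t ^ h := by rw [two_mul, pow_add]
    rw [mul_pow, h8]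
    ring
  have h7 : ((h : ℝ) + 1) * K * (L * X) * t ^ h = t ^ h * (((h : ℝ) + 1) * K * (L * X)) := by
    ring
  rw [h6, h7] at h2
  have h9 := le_of_mul_le_mul_left h2 (by positivity)
  have h10 : (B.card : ℝ) * t ^ h ≤ (((h : ℝ) + 1) * K * (L * X)) / (κ / 2) ^ (2 * h) := by
    rw [le_div_iff₀ (by positivity)]
    linarith
  refine le_trans h10 (le_of_eq ?_)
  ring

/-- the mean of `|S(n θ)|` over a large spread set `Θ` of frequencies is small -/
lemma mean_le (h : ℕ) (hh : 1 ≤ h) (κ c : ℝ) (hκ : 0 < κ) (hc : 0 < c) :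
    ∃ C : ℝ, 0 < C ∧ ∀ (X H K : ℕ) (Θ : Finset ℝ) (T : Finset ℕ), 0 < X → Spread c X H Θ →
      (∀ a ∈ T, a ≤ X) → (∀ m, ((tup T h).filter (fun v => ∑ i, v i = m)).card ≤ K) →
      ∀ n : ℤ, n ≠ 0 → n.natAbs ≤ H →
      (∑ θ ∈ Θ, ‖S T (n * θ)‖) * (T.card : ℝ) ^ h ≤
        (κ * (Θ.card * (T.card : ℝ) ^ h) + C * K * X) * T.card := by
  classical
  obtain ⟨C, hC, hJ₁⟩ := few_large h hh κ c hκ hc
  refine ⟨C, hC, ?_⟩
  intro X H K Θ T hX hΘ hTX hK n hn hnH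
  have h1 := hJ₁ X H K Θ T hX hΘ hTX hK n hn hnH
  set t : ℝ := (T.card : ℝ) with ht
  have ht0 : 0 ≤ t := by positivity
  have hth : 0 ≤ t ^ h := by positivity
  rw [← Finset.sum_filter_add_sum_filter_not Θ (fun θ => κ * t < ‖S T (n * θ)‖)]
  have h2 : (∑ θ ∈ Θ.filter (fun θ => κ * t < ‖S T (n * θ)‖), ‖S T (n * θ)‖) * t ^ h ≤
      C * K * X * t := by
    have h3 : ∑ θ ∈ Θ.filter (fun θ => κ * t < ‖S T (n * θ)‖), ‖S T (n * θ)‖ ≤
        ∑ _θ ∈ Θ.filter (fun θ => κ * t < ‖S T (n * θ)‖), t :=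
      Finset.sum_le_sum (fun θ _ => norm_S_le T _)
    rw [Finset.sum_const, nsmul_eq_mul] at h3
    calc _ ≤ (((Θ.filter (fun θ => κ * t < ‖S T (n * θ)‖)).card : ℝ) * t) * t ^ h :=
          mul_le_mul_of_nonneg_right h3 hth
      _ = (((Θ.filter (fun θ => κ * t < ‖S T (n * θ)‖)).card : ℝ) * t ^ h) * t := by ring
      _ ≤ _ := mul_le_mul_of_nonneg_right h1 ht0
  have h3 : (∑ θ ∈ Θ.filter (fun θ => ¬ κ * t < ‖S T (n * θ)‖), ‖S T (n * θ)‖) * t ^ h ≤
      κ * (Θ.card * t ^ h) * t := by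
    have h4 : ∑ θ ∈ Θ.filter (fun θ => ¬ κ * t < ‖S T (n * θ)‖), ‖S T (n * θ)‖ ≤
        ∑ _θ ∈ Θ.filter (fun θ => ¬ κ * t < ‖S T (n * θ)‖), κ * t := by
      apply Finset.sum_le_sum
      intro θ hθ
      rw [Finset.mem_filter] at hθ
      exact not_lt.1 hθ.2
    rw [Finset.sum_const, nsmul_eq_mul] at h4
    have h5 : ((Θ.filter (fun θ => ¬ κ * t < ‖S T (n * θ)‖)).card : ℝ) ≤ Θ.card := by
      exact_mod_cast Finset.card_filter_le _ _
    have h6 := mul_le_mul_of_nonneg_right h5 (show 0 ≤ κ * t by positivity)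
    calc _ ≤ (Θ.card * (κ * t)) * t ^ h := mul_le_mul_of_nonneg_right (h4.trans h6) hth
      _ = _ := by ring
  nlinarith

/-- double counting of the pairs `(a, θ)` for which the fractional part of `a θ` lies in
`[α, β)` -/
theorem core_double (h : ℕ) (hh : 1 ≤ h) (ε α β c : ℝ) (hε : 0 < ε)
    (hc0 : 0 < c) (hαβ : α ≤ β) :
    ∃ (C : ℝ) (H : ℕ), 0 < C ∧ ∀ (X K : ℕ) (Θ : Finset ℝ) (T : Finset ℕ), 0 < X →
      Spread c X H Θ →
      (∀ a ∈ T, a ≤ X) → (∀ m, ((tup T h).filter (fun v => ∑ i, v i = m)).card ≤ K) →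
      (β - α + ε) * Θ.card * T.card ≤ ∑ a ∈ T, (cnt Θ (fun θ => a * θ) α β : ℝ) →
      (Θ.card : ℝ) * (T.card : ℝ) ^ h ≤ C * K * X := by
  classical
  obtain ⟨c, hc1, hc2⟩ := exists_majorant α β (ε / 4) hαβ (by positivity)
  set L : ℝ := ∑ n ∈ c.support, ‖c n‖ with hL
  have hL0 : 0 ≤ L := by positivity
  set H : ℕ := c.support.sup Int.natAbs with hH
  set κ : ℝ := ε / 4 / (L + 1) with hκ
  have hκ0 : 0 < κ := by positivity
  obtain ⟨C, hC, hJ₀⟩ := mean_le h hh κ _ hκ0 hc0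
  refine ⟨2 * (L + 1) * C / ε, H, by positivity, ?_⟩
  intro X K Θ T hX hΘ hTX hK hdev
  have hmean := hJ₀ X H K Θ T hX hΘ hTX hK
  have hXr : (0 : ℝ) < X := by exact_mod_cast hX
  set t : ℝ := (T.card : ℝ) with ht
  have ht0 : 0 ≤ t := by positivity
  rcases ht0.eq_or_lt with htz | htpos
  · rw [← htz, zero_pow (by omega), mul_zero]
    positivity
  -- lower bound
  have hlow : (β - α + ε) * Θ.card * t ≤ ∑ a ∈ T, ∑ θ ∈ Θ,
      (c.sum (fun n z => z * ee (n * ((a : ℝ) * θ)))).re := by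
    refine le_trans hdev ?_
    apply Finset.sum_le_sum
    intro a ha
    unfold cnt
    rw [Finset.card_filter]
    push_cast
    apply Finset.sum_le_sum
    intro d _
    exact hc1 ((a : ℝ) * d)
  -- exchange
  have hex : ∑ a ∈ T, ∑ θ ∈ Θ, (c.sum (fun n z => z * ee (n * ((a : ℝ) * θ)))).re =
      ∑ n ∈ c.support, (c n * ∑ θ ∈ Θ, S T ((n : ℝ) * θ)).re := by
    rw [← Complex.re_sum]
    simp_rw [← Complex.re_sum]
    congr 1
    unfold Finsupp.sum S
    have h1 : ∀ a ∈ T, ∑ θ ∈ Θ, ∑ n ∈ c.support, c n * ee (n * ((a : ℝ) * θ)) =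
        ∑ n ∈ c.support, ∑ θ ∈ Θ, c n * ee (n * ((a : ℝ) * θ)) := fun a _ => Finset.sum_comm
    rw [Finset.sum_congr rfl h1, Finset.sum_comm]
    apply Finset.sum_congr rfl
    intro n _
    rw [Finset.mul_sum, Finset.sum_comm]
    apply Finset.sum_congr rfl
    intro d _
    rw [Finset.mul_sum]
    apply Finset.sum_congr rfl
    intro a _
    congr 2
    ring
  -- upper bound for each term
  have hDt : 0 ≤ Θ.card * t := by positivity
  set E : ℝ := κ * (Θ.card * t ^ h) + C * K * X with hE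
  have hE0 : 0 ≤ E := by positivity
  have hterm : ∀ n ∈ c.support, (c n * ∑ θ ∈ Θ, S T ((n : ℝ) * θ)).re * t ^ h ≤
      (if n = 0 then (c 0).re * (Θ.card * t) * t ^ h else 0) + ‖c n‖ * (E * t) := by
    intro n hn
    split_ifs with h0
    · subst h0
      have h1 : ∑ θ ∈ Θ, S T (((0 : ℤ) : ℝ) * θ) = ((Θ.card * t : ℝ) : ℂ) := by
        have h2 : ∀ θ ∈ Θ, S T (((0 : ℤ) : ℝ) * θ) = ((t : ℝ) : ℂ) := by
          intro d _
          unfold S ee
          simp [ht]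
        rw [Finset.sum_congr rfl h2, Finset.sum_const, nsmul_eq_mul]
        push_cast
        ring
      rw [h1, Complex.re_mul_ofReal]
      have : 0 ≤ ‖c 0‖ * (E * t) := by positivity
      linarith
    · rw [zero_add]
      have h1 : (c n * ∑ θ ∈ Θ, S T ((n : ℝ) * θ)).re ≤ ‖c n‖ * ∑ θ ∈ Θ, ‖S T ((n : ℝ) * θ)‖ := by
        refine le_trans (Complex.re_le_norm _) ?_
        rw [norm_mul]
        exact mul_le_mul_of_nonneg_left (norm_sum_le _ _) (norm_nonneg _)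
      calc (c n * ∑ θ ∈ Θ, S T ((n : ℝ) * θ)).re * t ^ h ≤
          (‖c n‖ * ∑ θ ∈ Θ, ‖S T ((n : ℝ) * θ)‖) * t ^ h :=
            mul_le_mul_of_nonneg_right h1 (by positivity)
        _ = ‖c n‖ * ((∑ θ ∈ Θ, ‖S T ((n : ℝ) * θ)‖) * t ^ h) := by ring
        _ ≤ _ := mul_le_mul_of_nonneg_left
            (hmean n h0 (Finset.le_sup (f := Int.natAbs) hn)) (norm_nonneg _)
  have hup : (∑ n ∈ c.support, (c n * ∑ θ ∈ Θ, S T ((n : ℝ) * θ)).re) * t ^ h ≤
      (β - α + ε / 4) * (Θ.card * t) * t ^ h + L * (E * t) := by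
    rw [Finset.sum_mul]
    refine le_trans (Finset.sum_le_sum hterm) ?_
    rw [Finset.sum_add_distrib, ← Finset.sum_mul, ← hL]
    apply add_le_add_left
    have hba : 0 ≤ (β - α + ε / 4) * (Θ.card * t) * t ^ h := by
      have : 0 ≤ β - α := by linarith
      positivity
    rw [Finset.sum_ite_eq']
    split_ifs with h0
    · apply mul_le_mul_of_nonneg_right _ (by positivity)
      exact mul_le_mul_of_nonneg_right hc2 hDt
    · exact hba
  rw [hex] at hlow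
  have hth : 0 < t ^ h := by positivity
  have h1 := le_trans (mul_le_mul_of_nonneg_right hlow hth.le) hup
  have h2 : (3 * ε / 4) * (Θ.card * t ^ h) ≤ L * E := by
    have h3 : t * ((3 * ε / 4) * (Θ.card * t ^ h)) ≤ t * (L * E) := by nlinarith
    exact le_of_mul_le_mul_left h3 htpos
  have hfin : L * κ ≤ ε / 4 := by
    rw [hκ, ← mul_div_assoc, div_le_iff₀ (by positivity)]
    nlinarith
  have hw : 0 ≤ Θ.card * t ^ h := by positivity
  have h3 : L * E ≤ ε / 4 * (Θ.card * t ^ h) + (L + 1) * (C * K * X) := by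
    rw [hE]
    have h4 : 0 ≤ C * K * X := by positivity
    calc L * (κ * (Θ.card * t ^ h) + C * K * X) =
        (L * κ) * (Θ.card * t ^ h) + L * (C * K * X) := by ring
      _ ≤ ε / 4 * (Θ.card * t ^ h) + (L + 1) * (C * K * X) := by
        apply add_le_add (mul_le_mul_of_nonneg_right hfin hw)
        apply mul_le_mul_of_nonneg_right (by linarith) h4
  have h4 : ε / 2 * (Θ.card * t ^ h) ≤ (L + 1) * (C * K * X) := by linarith
  have h5 : 2 * (L + 1) * C / ε * K * X = ((L + 1) * (C * K * X)) / (ε / 2) := by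
    field_simp
  rw [h5, le_div_iff₀ (by positivity)]
  linarith

end Pool.Agent.H78R2.ET
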