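import Mathlib
import Pool.Agent.H380R2.HAssembly
import Pool.Agent.H380R2.Assembly
import Pool.Agent.H78R2.ET.Core

set_option autoImplicit false

open Finset Filter Topology

namespace Pool.Agent.H78R2.ET

open Pool.Agent.H380R2

/-- `S` is *biased*: there are `ε, c > 0` such that for every `J` and every `δ > 0`, for all
large `x` there is a set `Θ` of at least `J` real numbers, such that for `1 ≤ n ≤ J` the multiples
`n θ` (`θ ∈ Θ`) are at distance at least `c / x` from each other modulo one, and such that for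
every `a ∈ S` between `δ x` and `x` the numbers `a θ` (`θ ∈ Θ`) have discrepancy at least `ε`
modulo one. -/
def Biased (S : Set ℕ) : Prop :=
  ∃ ε c : ℝ, 0 < ε ∧ 0 < c ∧ ∀ J : ℕ, ∀ δ : ℝ, 0 < δ → ∀ᶠ x : ℕ in atTop,
    ∃ Θ : Finset ℝ, J ≤ Θ.card ∧ Spread c x J Θ ∧
      ∀ a ∈ S, δ * x ≤ a → a ≤ x → Uneven ε Θ (fun θ => (a : ℝ) * θ)

section generic

variable {ι : Type}

lemma cnt_mono (s : Finset ι) (y : ι → ℝ) {α β α' β' : ℝ} (h1 : α' ≤ α) (h2 : β ≤ β') :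
    cnt s y α β ≤ cnt s y α' β' := by
  unfold cnt
  apply Finset.card_le_card
  intro d hd
  rw [Finset.mem_filter] at hd ⊢
  exact ⟨hd.1, h1.trans hd.2.1, lt_of_lt_of_le hd.2.2 h2⟩

lemma cnt_split (s : Finset ι) (y : ι → ℝ) (α β : ℝ) :
    s.card ≤ cnt s y 0 α + cnt s y α β + cnt s y β 1 := by
  classical
  unfold cnt
  have hsub : s ⊆ (s.filter (fun d => 0 ≤ Int.fract (y d) ∧ Int.fract (y d) < α)) ∪
      (s.filter (fun d => α ≤ Int.fract (y d) ∧ Int.fract (y d) < β)) ∪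
      (s.filter (fun d => β ≤ Int.fract (y d) ∧ Int.fract (y d) < 1)) := by
    intro d hd
    rw [Finset.mem_union, Finset.mem_union, Finset.mem_filter, Finset.mem_filter,
      Finset.mem_filter]
    have hf0 := Int.fract_nonneg (y d)
    have hf1 := Int.fract_lt_one (y d)
    rcases lt_or_ge (Int.fract (y d)) α with h | h
    · exact Or.inl (Or.inl ⟨hd, hf0, h⟩)
    · rcases lt_or_ge (Int.fract (y d)) β with h' | h'
      · exact Or.inl (Or.inr ⟨hd, h, h'⟩)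
      · exact Or.inr ⟨hd, h', hf1⟩
  refine le_trans (Finset.card_le_card hsub) ?_
  refine le_trans (Finset.card_union_le _ _) ?_
  exact Nat.add_le_add_right (Finset.card_union_le _ _) _

lemma Uneven.up {ε : ℝ} {s : Finset ι} {y : ι → ℝ} (h : Uneven ε s y) (hε : 0 < ε) :
    ∃ α β : ℝ, 0 ≤ α ∧ α ≤ β ∧ β ≤ 1 ∧ (β - α + ε / 2) * s.card ≤ cnt s y α β := by
  obtain ⟨α, β, h0, h1, h2, h3⟩ := h
  have hD : (0 : ℝ) ≤ s.card := by positivity
  rcases le_abs'.1 h3 with h4 | h4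
  · have h5 : (s.card : ℝ) ≤ cnt s y 0 α + cnt s y α β + cnt s y β 1 := by
      exact_mod_cast cnt_split s y α β
    by_cases h6 : (α - 0 + ε / 2) * s.card ≤ cnt s y 0 α
    · exact ⟨0, α, le_refl _, h0, h1.trans h2, h6⟩
    · refine ⟨β, 1, h0.trans h1, h2, le_refl _, ?_⟩
      push Not at h6
      nlinarith
  · exact ⟨α, β, h0, h1, h2, by nlinarith⟩

lemma grid {ε : ℝ} (hε : 0 < ε) (N : ℕ) (hN : 2 / (ε / 4) ≤ N) (hN0 : 0 < N) (s : Finset ι)
    (y : ι → ℝ) (h : Uneven ε s y) :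
    ∃ p ∈ (range (N + 1)) ×ˢ (range (N + 1)), p.1 ≤ p.2 ∧
      ((p.2 : ℝ) / N - (p.1 : ℝ) / N + ε / 4) * s.card ≤
        cnt s y ((p.1 : ℝ) / N) ((p.2 : ℝ) / N) := by
  obtain ⟨α, β, h0, h1, h2, h3⟩ := h.up hε
  have hNr : (0 : ℝ) < N := by exact_mod_cast hN0
  have hD : (0 : ℝ) ≤ s.card := by positivity
  have hαN : 0 ≤ α * N := by positivity
  have hβN : 0 ≤ β * N := mul_nonneg (h0.trans h1) hNr.le
  have e1 : ((⌊α * N⌋₊ : ℕ) : ℝ) ≤ α * N := Nat.floor_le hαN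
  have e2 : α * N < ((⌊α * N⌋₊ : ℕ) : ℝ) + 1 := Nat.lt_floor_add_one _
  have e3 : β * N ≤ ((⌈β * N⌉₊ : ℕ) : ℝ) := Nat.le_ceil _
  have e4 : ((⌈β * N⌉₊ : ℕ) : ℝ) < β * N + 1 := Nat.ceil_lt_add_one hβN
  have e5 : α * N ≤ β * N := mul_le_mul_of_nonneg_right h1 hNr.le
  have e6 : β * N ≤ N := by
    calc β * N ≤ 1 * N := mul_le_mul_of_nonneg_right h2 hNr.le
      _ = N := one_mul _
  have f1 : ((⌊α * N⌋₊ : ℕ) : ℝ) / N ≤ α := by
    rw [div_le_iff₀ hNr]
    exact e1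
  have f2 : β ≤ ((⌈β * N⌉₊ : ℕ) : ℝ) / N := by
    rw [le_div_iff₀ hNr]
    exact e3
  have f3 : ((⌈β * N⌉₊ : ℕ) : ℝ) / N - ((⌊α * N⌋₊ : ℕ) : ℝ) / N ≤ β - α + ε / 4 := by
    rw [← sub_div, div_le_iff₀ hNr]
    have : 2 ≤ N * (ε / 4) := by
      rw [div_le_iff₀ (by positivity)] at hN
      exact hN
    nlinarith
  refine ⟨(⌊α * N⌋₊, ⌈β * N⌉₊), ?_, ?_, ?_⟩
  · rw [Finset.mem_product, Finset.mem_range, Finset.mem_range]
    constructor
    · have : ((⌊α * N⌋₊ : ℕ) : ℝ) ≤ N := by linarith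
      have : ⌊α * N⌋₊ ≤ N := by exact_mod_cast this
      simpa [Nat.lt_succ_iff] using this
    · have : ⌈β * N⌉₊ ≤ N := by
        rw [Nat.ceil_le]
        exact e6
      simpa [Nat.lt_succ_iff] using this
  · have : ((⌊α * N⌋₊ : ℕ) : ℝ) ≤ ((⌈β * N⌉₊ : ℕ) : ℝ) := by linarith
    exact_mod_cast this
  · have h4 : (cnt s y α β : ℝ) ≤ cnt s y (((⌊α * N⌋₊ : ℕ) : ℝ) / N)
        (((⌈β * N⌉₊ : ℕ) : ℝ) / N) := by
      exact_mod_cast cnt_mono s y f1 f2
    refine le_trans ?_ (le_trans h3 h4)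
    apply mul_le_mul_of_nonneg_right _ hD
    linarith

end generic

/-- the hypotheses of the finite statements are inherited by subsets -/
lemma sub_mult {h K : ℕ} {T : Finset ℕ}
    (hK : ∀ m, ((tup T h).filter (fun v => ∑ i, v i = m)).card ≤ K) (U : Finset ℕ) (hU : U ⊆ T) :
    ∀ m, ((tup U h).filter (fun v => ∑ i, v i = m)).card ≤ K := by
  intro m
  refine le_trans (Finset.card_le_card ?_) (hK m)
  intro v hv
  rw [Finset.mem_filter, tup, Fintype.mem_piFinset] at hv ⊢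
  exact ⟨fun i => hU (hv.1 i), hv.2⟩

/-- `core_double` for all the intervals of a grid, with common constants -/
lemma core_grid (h : ℕ) (hh : 1 ≤ h) (ε c : ℝ) (hε : 0 < ε) (hc : 0 < c) (N : ℕ) :
    ∃ (C : ℝ) (H : ℕ), 0 < C ∧ ∀ p ∈ (range (N + 1)) ×ˢ (range (N + 1)), p.1 ≤ p.2 →
      ∀ (X K : ℕ) (Θ : Finset ℝ) (T : Finset ℕ), 0 < X → Spread c X H Θ →
      (∀ a ∈ T, a ≤ X) → (∀ m, ((tup T h).filter (fun v => ∑ i, v i = m)).card ≤ K) →
      ((p.2 : ℝ) / N - (p.1 : ℝ) / N + ε) * Θ.card * T.card ≤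
        ∑ a ∈ T, (cnt Θ (fun θ => a * θ) ((p.1 : ℝ) / N) ((p.2 : ℝ) / N) : ℝ) →
      (Θ.card : ℝ) * (T.card : ℝ) ^ h ≤ C * K * X := by
  classical
  have hex : ∀ p : ℕ × ℕ, ∃ (C : ℝ) (H : ℕ), 0 < C ∧ (p.1 ≤ p.2 →
      ∀ (X K : ℕ) (Θ : Finset ℝ) (T : Finset ℕ), 0 < X → Spread c X H Θ →
      (∀ a ∈ T, a ≤ X) → (∀ m, ((tup T h).filter (fun v => ∑ i, v i = m)).card ≤ K) →
      ((p.2 : ℝ) / N - (p.1 : ℝ) / N + ε) * Θ.card * T.card ≤
        ∑ a ∈ T, (cnt Θ (fun θ => a * θ) ((p.1 : ℝ) / N) ((p.2 : ℝ) / N) : ℝ) →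
      (Θ.card : ℝ) * (T.card : ℝ) ^ h ≤ C * K * X) := by
    intro p
    by_cases hp : p.1 ≤ p.2
    · have hle : (p.1 : ℝ) / N ≤ (p.2 : ℝ) / N := by
        have : (p.1 : ℝ) ≤ p.2 := by exact_mod_cast hp
        gcongr
      obtain ⟨C, H, hC, hJ₀⟩ := core_double h hh ε _ _ c hε hc hle
      exact ⟨C, H, hC, fun _ => hJ₀⟩
    · exact ⟨1, 0, one_pos, fun h => absurd h hp⟩
  choose C H hC hJ using hex
  refine ⟨∑ p ∈ (range (N + 1)) ×ˢ (range (N + 1)), C p,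
    ∑ p ∈ (range (N + 1)) ×ˢ (range (N + 1)), H p, ?_, ?_⟩
  · apply Finset.sum_pos (fun p _ => hC p)
    exact ⟨(0, 0), by simp⟩
  intro p hp hp12 X K Θ T h1 h2 h3 h4 h6
  have h5 : H p ≤ ∑ p ∈ (range (N + 1)) ×ˢ (range (N + 1)), H p :=
    Finset.single_le_sum (f := H) (fun _ _ => Nat.zero_le _) hp
  have h7 : C p ≤ ∑ p ∈ (range (N + 1)) ×ˢ (range (N + 1)), C p :=
    Finset.single_le_sum (f := C) (fun p _ => (hC p).le) hp
  refine le_trans (hJ p hp12 X K Θ T h1 (h2.mono h5 (Finset.Subset.refl _)) h3 h4 h6) ?_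
  gcongr

/-- **The finite form, for the elements.**  If the `h`-fold sums from `T ⊆ [0, X]` have
multiplicity at most `K`, if `Θ` is a spread set of frequencies, and if `a θ` (`θ ∈ Θ`) is uneven
for every `a ∈ T`, then `|Θ| |T| ^ h ≤ C K X`. -/
theorem core (h : ℕ) (hh : 1 ≤ h) (ε c : ℝ) (hε : 0 < ε) (hc : 0 < c) :
    ∃ (C : ℝ) (H : ℕ), 0 < C ∧ ∀ (X K : ℕ) (Θ : Finset ℝ) (T : Finset ℕ), 0 < X →
      Spread c X H Θ →
      (∀ a ∈ T, a ≤ X) → (∀ m, ((tup T h).filter (fun v => ∑ i, v i = m)).card ≤ K) →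
      (∀ a ∈ T, Uneven ε Θ (fun θ => (a : ℝ) * θ)) →
      (Θ.card : ℝ) * (T.card : ℝ) ^ h ≤ C * K * X := by
  classical
  obtain ⟨N₁, hN₁⟩ := exists_nat_gt (2 / (ε / 4))
  set N : ℕ := N₁ + 1 with hN
  have hN0 : 0 < N := by omega
  have hN2 : 2 / (ε / 4) ≤ N := by
    rw [hN]
    push_cast
    linarith
  set P : Finset (ℕ × ℕ) := (range (N + 1)) ×ˢ (range (N + 1)) with hP
  have hPpos : (0 : ℝ) < P.card := by
    have : 0 < P.card := by
      rw [hP, Finset.card_product, Finset.card_range]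
      positivity
    exact_mod_cast this
  obtain ⟨C, H, hC, hJ⟩ := core_grid h hh (ε / 4) c (by positivity) hc N
  refine ⟨(P.card : ℝ) ^ h * C, H, by positivity, ?_⟩
  intro X K D T hX hDM hTX hK hdev
  set F : ℕ × ℕ → Finset ℕ := fun p => T.filter (fun a => p.1 ≤ p.2 ∧
    ((p.2 : ℝ) / N - (p.1 : ℝ) / N + ε / 4) * D.card ≤
      (cnt D (fun d => (a : ℝ) * d) ((p.1 : ℝ) / N) ((p.2 : ℝ) / N) : ℝ)) with hF
  have hFle : ∀ p ∈ P, (D.card : ℝ) * ((F p).card : ℝ) ^ h ≤ C * K * X := by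
    intro p hp
    rcases (F p).eq_empty_or_nonempty with h0 | ⟨a₀, ha₀⟩
    · rw [h0, Finset.card_empty, Nat.cast_zero, zero_pow (by omega), mul_zero]
      positivity
    · rw [hF, Finset.mem_filter] at ha₀
      apply hJ p hp ha₀.2.1 X K D (F p) hX hDM (by
        intro a ha
        rw [hF, Finset.mem_filter] at ha
        exact hTX a ha.1) (sub_mult hK _ (Finset.filter_subset _ _))
      have h2 : ∑ _a ∈ F p, ((p.2 : ℝ) / N - (p.1 : ℝ) / N + ε / 4) * D.card ≤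
          ∑ a ∈ F p, (cnt D (fun d => (a : ℝ) * d) ((p.1 : ℝ) / N) ((p.2 : ℝ) / N) : ℝ) := by
        apply Finset.sum_le_sum
        intro a ha
        rw [hF, Finset.mem_filter] at ha
        exact ha.2.2
      rw [Finset.sum_const, nsmul_eq_mul] at h2
      linarith
  have hcov : T ⊆ P.biUnion F := by
    intro a ha
    obtain ⟨p, hp, hp1, hp2⟩ := grid hε N hN2 hN0 D _ (hdev a ha)
    rw [Finset.mem_biUnion]
    exact ⟨p, hp, by rw [hF, Finset.mem_filter]; exact ⟨ha, hp1, hp2⟩⟩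
  have h4 : (T.card : ℝ) ≤ ∑ p ∈ P, ((F p).card : ℝ) := by
    have := le_trans (Finset.card_le_card hcov) Finset.card_biUnion_le
    exact_mod_cast this
  obtain ⟨n, rfl⟩ : ∃ n, h = n + 1 := ⟨h - 1, by omega⟩
  calc (D.card : ℝ) * (T.card : ℝ) ^ (n + 1) ≤
        (D.card : ℝ) * (∑ p ∈ P, ((F p).card : ℝ)) ^ (n + 1) := by gcongr
    _ ≤ (D.card : ℝ) * ((P.card : ℝ) ^ n * ∑ p ∈ P, ((F p).card : ℝ) ^ (n + 1)) := by
        apply mul_le_mul_of_nonneg_left _ (by positivity)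
        exact pow_sum_le_card_mul_sum_pow (fun i _ => by positivity) n
    _ = (P.card : ℝ) ^ n * ∑ p ∈ P, (D.card : ℝ) * ((F p).card : ℝ) ^ (n + 1) := by
        rw [Finset.mul_sum, Finset.mul_sum, Finset.mul_sum]
        apply Finset.sum_congr rfl
        intro p _
        ring
    _ ≤ (P.card : ℝ) ^ n * ∑ _p ∈ P, C * K * X := by
        apply mul_le_mul_of_nonneg_left (Finset.sum_le_sum hFle) (by positivity)
    _ = (P.card : ℝ) ^ (n + 1) * C * K * X := by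
        rw [Finset.sum_const, nsmul_eq_mul]
        ring

/-- **The finite form, for the frequencies.**  If the `h`-fold sums from `T ⊆ [0, X]` have
multiplicity at most `K`, then any spread set `Θ` of frequencies `θ` such that
`a θ` (`a ∈ T`) is uneven satisfies `|Θ| |T| ^ h ≤ C K X`. -/
theorem core_moduli (h : ℕ) (hh : 1 ≤ h) (ε c : ℝ) (hε : 0 < ε) (hc : 0 < c) :
    ∃ (C : ℝ) (H : ℕ), 0 < C ∧ ∀ (X K : ℕ) (Θ : Finset ℝ) (T : Finset ℕ), 0 < X →
      Spread c X H Θ →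
      (∀ a ∈ T, a ≤ X) → (∀ m, ((tup T h).filter (fun v => ∑ i, v i = m)).card ≤ K) →
      (∀ θ ∈ Θ, Uneven ε T (fun a => (a : ℝ) * θ)) →
      (Θ.card : ℝ) * (T.card : ℝ) ^ h ≤ C * K * X := by
  classical
  obtain ⟨N₁, hN₁⟩ := exists_nat_gt (2 / (ε / 4))
  set N : ℕ := N₁ + 1 with hN
  have hN0 : 0 < N := by omega
  have hN2 : 2 / (ε / 4) ≤ N := by
    rw [hN]
    push_cast
    linarith
  set P : Finset (ℕ × ℕ) := (range (N + 1)) ×ˢ (range (N + 1)) with hP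
  have hPpos : (0 : ℝ) < P.card := by
    have : 0 < P.card := by
      rw [hP, Finset.card_product, Finset.card_range]
      positivity
    exact_mod_cast this
  obtain ⟨C, H, hC, hJ⟩ := core_grid h hh (ε / 4) c (by positivity) hc N
  refine ⟨P.card * C, H, by positivity, ?_⟩
  intro X K D T hX hDM hTX hK hdev
  set F : ℕ × ℕ → Finset ℝ := fun p => D.filter (fun d => p.1 ≤ p.2 ∧
    ((p.2 : ℝ) / N - (p.1 : ℝ) / N + ε / 4) * T.card ≤
      (cnt T (fun a : ℕ => (a : ℝ) * d) ((p.1 : ℝ) / N) ((p.2 : ℝ) / N) : ℝ)) with hF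
  have hFle : ∀ p ∈ P, ((F p).card : ℝ) * (T.card : ℝ) ^ h ≤ C * K * X := by
    intro p hp
    rcases (F p).eq_empty_or_nonempty with h0 | ⟨d₀, hd₀⟩
    · rw [h0, Finset.card_empty, Nat.cast_zero, zero_mul]
      positivity
    rw [hF, Finset.mem_filter] at hd₀
    apply hJ p hp hd₀.2.1 X K (F p) T hX (hDM.mono (le_refl _) (Finset.filter_subset _ _))
      hTX hK
    have h2 : ∑ _d ∈ F p, ((p.2 : ℝ) / N - (p.1 : ℝ) / N + ε / 4) * T.card ≤
        ∑ d ∈ F p, (cnt T (fun a : ℕ => (a : ℝ) * d) ((p.1 : ℝ) / N) ((p.2 : ℝ) / N) : ℝ) := by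
      apply Finset.sum_le_sum
      intro d hd
      rw [hF, Finset.mem_filter] at hd
      exact hd.2.2
    rw [Finset.sum_const, nsmul_eq_mul] at h2
    have h3 : ∑ d ∈ F p, (cnt T (fun a : ℕ => (a : ℝ) * d) ((p.1 : ℝ) / N) ((p.2 : ℝ) / N) : ℝ) =
        ∑ a ∈ T, (cnt (F p) (fun d => (a : ℝ) * d) ((p.1 : ℝ) / N) ((p.2 : ℝ) / N) : ℝ) := by
      unfold cnt
      simp_rw [Finset.card_filter]
      push_cast
      exact Finset.sum_comm
    rw [h3] at h2
    linarith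
  have hcov : D ⊆ P.biUnion F := by
    intro d hd
    obtain ⟨p, hp, hp1, hp2⟩ := grid hε N hN2 hN0 T _ (hdev d hd)
    rw [Finset.mem_biUnion]
    exact ⟨p, hp, by rw [hF, Finset.mem_filter]; exact ⟨hd, hp1, hp2⟩⟩
  have h4 : (D.card : ℝ) ≤ ∑ p ∈ P, ((F p).card : ℝ) := by
    have := le_trans (Finset.card_le_card hcov) Finset.card_biUnion_le
    exact_mod_cast this
  calc (D.card : ℝ) * (T.card : ℝ) ^ h ≤ (∑ p ∈ P, ((F p).card : ℝ)) * (T.card : ℝ) ^ h :=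
        mul_le_mul_of_nonneg_right h4 (by positivity)
    _ = ∑ p ∈ P, ((F p).card : ℝ) * (T.card : ℝ) ^ h := Finset.sum_mul _ _ _
    _ ≤ ∑ _p ∈ P, C * K * X := Finset.sum_le_sum hFle
    _ = _ := by
        rw [Finset.sum_const, nsmul_eq_mul]
        ring

/-- counting: sets of small integers whose `h`-fold sums have bounded multiplicity are small -/
lemma small_card (h K : ℕ) (T : Finset ℕ) (y : ℝ) (hy : 0 ≤ y) (hT : ∀ a ∈ T, (a : ℝ) ≤ y)
    (hK : ∀ m, ((tup T h).filter (fun v => ∑ i, v i = m)).card ≤ K) :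
    (T.card : ℝ) ^ h ≤ K * (h * y + 1) := by
  classical
  have h1 : (tup T h).card ≤ (⌊(h : ℝ) * y⌋₊ + 1) * K := by
    have hmaps : ∀ v ∈ tup T h, ∑ i, v i ∈ range (⌊(h : ℝ) * y⌋₊ + 1) := by
      intro v hv
      rw [tup, Fintype.mem_piFinset] at hv
      rw [Finset.mem_range, Nat.lt_succ_iff]
      apply Nat.le_floor
      push_cast
      calc ∑ i, (v i : ℝ) ≤ ∑ _i : Fin h, y := Finset.sum_le_sum (fun i _ => hT _ (hv i))
        _ = h * y := by rw [Finset.sum_const, Finset.card_univ, Fintype.card_fin, nsmul_eq_mul]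
    rw [Finset.card_eq_sum_card_fiberwise hmaps]
    calc ∑ m ∈ range (⌊(h : ℝ) * y⌋₊ + 1), ((tup T h).filter (fun v => ∑ i, v i = m)).card ≤
        ∑ _m ∈ range (⌊(h : ℝ) * y⌋₊ + 1), K := Finset.sum_le_sum (fun m _ => hK m)
      _ = _ := by rw [Finset.sum_const, Finset.card_range, smul_eq_mul]
  rw [card_tup] at h1
  have h2 : ((T.card : ℝ)) ^ h ≤ ((⌊(h : ℝ) * y⌋₊ : ℝ) + 1) * K := by exact_mod_cast h1
  refine le_trans h2 ?_
  rw [mul_comm]
  apply mul_le_mul_of_nonneg_left _ (by positivity)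
  have := Nat.floor_le (show (0 : ℝ) ≤ (h : ℝ) * y by positivity)
  linarith

/-- **Biased sets are negligible** with respect to every order `h ≥ 1`. -/
theorem Biased.negligibleH {S : Set ℕ} (hS : Biased S) (h : ℕ) (hh : 1 ≤ h) :
    NegligibleH h S := by
  classical
  obtain ⟨ε, c, hε, hc, hS⟩ := hS
  intro K κ hκ
  have h2h : (0 : ℝ) < 2 ^ h := by positivity
  obtain ⟨C, H, hC, hJ₀⟩ := core h hh ε c hε hc
  obtain ⟨J₁, hJ₁⟩ := exists_nat_gt (C * K / (κ / 2 / 2 ^ h))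
  set δ : ℝ := κ / 4 / 2 ^ h / ((K + 1) * h) with hδ
  have hhr : (1 : ℝ) ≤ h := by exact_mod_cast hh
  have hKr : (0 : ℝ) ≤ K := by positivity
  have hδ0 : 0 < δ := by positivity
  filter_upwards [hS (J₁ + H) δ hδ0, eventually_ge_atTop (⌈K / (κ / 4 / 2 ^ h)⌉₊),
    eventually_gt_atTop 0] with x hx hx2 hx00 T hT hK
  obtain ⟨D, hDJ, hDM, hD⟩ := hx
  set T₁ := T.filter (fun a : ℕ => δ * x ≤ a) with hT₁
  set T₂ := T.filter (fun a : ℕ => ¬ δ * x ≤ a) with hT₂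
  have h1 : (T₁.card : ℝ) ^ h ≤ κ / 2 / 2 ^ h * x := by
    have g1 := hJ₀ x K D T₁ hx00 (hDM.mono (by omega) (Finset.Subset.refl _)) (by
      intro a ha
      rw [hT₁, Finset.mem_filter] at ha
      exact (hT a ha.1).2) (sub_mult hK T₁ (Finset.filter_subset _ _)) (by
      intro a ha
      rw [hT₁, Finset.mem_filter] at ha
      exact hD a (hT a ha.1).1 ha.2 (hT a ha.1).2)
    rw [div_lt_iff₀ (by positivity)] at hJ₁
    have g2 : (J₁ : ℝ) ≤ D.card := by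
      have : J₁ ≤ D.card := by omega
      exact_mod_cast this
    have g3 : (0 : ℝ) < D.card := by
      have : 0 ≤ C * K := by positivity
      have : 0 < (J₁ : ℝ) * (κ / 2 / 2 ^ h) := by linarith
      have : 0 < (J₁ : ℝ) := by
        by_contra hcon
        push Not at hcon
        have : (J₁ : ℝ) * (κ / 2 / 2 ^ h) ≤ 0 :=
          mul_nonpos_of_nonpos_of_nonneg hcon (by positivity)
        linarith
      linarith
    have g4 : C * K ≤ D.card * (κ / 2 / 2 ^ h) := by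
      have : (J₁ : ℝ) * (κ / 2 / 2 ^ h) ≤ D.card * (κ / 2 / 2 ^ h) :=
        mul_le_mul_of_nonneg_right g2 (by positivity)
      linarith
    have g5 : (D.card : ℝ) * (T₁.card : ℝ) ^ h ≤ D.card * (κ / 2 / 2 ^ h * x) := by
      calc _ ≤ C * K * x := g1
        _ ≤ (D.card * (κ / 2 / 2 ^ h)) * x := mul_le_mul_of_nonneg_right g4 (by positivity)
        _ = _ := by ring
    exact le_of_mul_le_mul_left g5 g3
  have h2 : (T₂.card : ℝ) ^ h ≤ κ / 2 / 2 ^ h * x := by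
    have h3 := small_card h K T₂ (δ * x) (by positivity) (by
      intro a ha
      rw [hT₂, Finset.mem_filter] at ha
      push Not at ha
      exact ha.2.le) (sub_mult hK T₂ (Finset.filter_subset _ _))
    refine le_trans h3 ?_
    have h4 : (K : ℝ) ≤ κ / 4 / 2 ^ h * x := by
      have h5 : K / (κ / 4 / 2 ^ h) ≤ (x : ℝ) :=
        le_trans (Nat.le_ceil _) (by exact_mod_cast hx2)
      rw [div_le_iff₀ (by positivity)] at h5
      linarith
    have h6 : (K : ℝ) * (h * (δ * x)) ≤ κ / 4 / 2 ^ h * x := by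
      have h7 : δ * ((K + 1) * h) = κ / 4 / 2 ^ h := by
        rw [hδ]
        field_simp
      calc (K : ℝ) * (h * (δ * x)) ≤ (K + 1) * (h * (δ * x)) := by
            apply mul_le_mul_of_nonneg_right (by linarith) (by positivity)
        _ = (δ * ((K + 1) * h)) * x := by ring
        _ = _ := by rw [h7]
    have h8 : κ / 2 / 2 ^ h * x = κ / 4 / 2 ^ h * x + κ / 4 / 2 ^ h * x := by ring
    rw [h8, mul_add, mul_one]
    linarith
  have h3 : (T.card : ℝ) = T₁.card + T₂.card := by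
    rw [hT₁, hT₂]
    exact_mod_cast (Finset.card_filter_add_card_filter_not (s := T)
      (fun a : ℕ => δ * (x : ℝ) ≤ a)).symm
  have hx0 : (0 : ℝ) ≤ x := by positivity
  set t₁ : ℝ := (T₁.card : ℝ)
  set t₂ : ℝ := (T₂.card : ℝ)
  have ht₁ : 0 ≤ t₁ := by positivity
  have ht₂ : 0 ≤ t₂ := by positivity
  rw [h3]
  have key : ∀ t : ℝ, 0 ≤ t → t ^ h ≤ κ / 2 / 2 ^ h * x → (2 * t) ^ h ≤ κ * x := by
    intro t _ htt
    rw [mul_pow]
    calc 2 ^ h * t ^ h ≤ 2 ^ h * (κ / 2 / 2 ^ h * x) := by gcongr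
      _ = κ / 2 * x := by field_simp
      _ ≤ κ * x := by nlinarith
  rcases le_total t₁ t₂ with hle | hle
  · refine le_trans ?_ (key t₂ ht₂ h2)
    apply pow_le_pow_left₀ (by positivity)
    linarith
  · refine le_trans ?_ (key t₁ ht₁ h1)
    apply pow_le_pow_left₀ (by positivity)
    linarith

/-- passing from tuples to ordered pairs -/
lemma negligible_of_H {S : Set ℕ} (hS : NegligibleH 2 S) : Negligible S := by
  classical
  intro K ε hε
  filter_upwards [hS K ε hε] with x hx T hT hK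
  apply hx T hT
  intro m
  refine le_trans ?_ (hK m)
  apply Finset.card_le_card_of_injOn (fun v => (v 0, v 1))
  · intro v hv
    rw [Finset.mem_coe, Finset.mem_filter, tup, Fintype.mem_piFinset] at hv
    rw [Finset.mem_coe, Finset.mem_filter, Finset.mem_product]
    refine ⟨⟨hv.1 0, hv.1 1⟩, ?_⟩
    rw [← hv.2, Fin.sum_univ_two]
  · intro v _ w _ hvw
    simp only [Prod.mk.injEq] at hvw
    funext i
    fin_cases i
    · exact hvw.1
    · exact hvw.2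

end Pool.Agent.H78R2.ET
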