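import Mathlib
import Pool.Agent.H78R2.ET.Biased

set_option autoImplicit false

open Finset Filter Topology

namespace Pool.Agent.H78R2.ET

open Pool.Agent.H380R2

lemma cnt_image {ι κ : Type} [DecidableEq κ] (s : Finset ι) (f : ι → κ) (hf : Set.InjOn f s)
    (y : κ → ℝ) (α β : ℝ) : cnt (s.image f) y α β = cnt s (fun i => y (f i)) α β := by
  unfold cnt
  rw [Finset.filter_image, Finset.card_image_of_injOn]
  exact hf.mono (by
    intro i hi
    rw [Finset.mem_coe, Finset.mem_filter] at hi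
    exact hi.1)

lemma Uneven.image {ι κ : Type} [DecidableEq κ] {ε : ℝ} {s : Finset ι} {f : ι → κ}
    (hf : Set.InjOn f s) {y : κ → ℝ} (h : Uneven ε s (fun i => y (f i))) :
    Uneven ε (s.image f) y := by
  obtain ⟨α, β, h0, h1, h2, h3⟩ := h
  refine ⟨α, β, h0, h1, h2, ?_⟩
  rw [cnt_image s f hf y α β, Finset.card_image_of_injOn hf]
  exact h3

/-- discrepancy of a large subset -/
lemma Uneven.restrict {ι : Type} {ε : ℝ} {s s' : Finset ι} {y : ι → ℝ} (h : Uneven ε s y)
    (hε : 0 < ε) (hs : s' ⊆ s) (B : ℝ) (hB : (s.card : ℝ) ≤ s'.card + B)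
    (hBs : B ≤ ε / 2 * s'.card) : Uneven (ε / 2) s' y := by
  classical
  obtain ⟨α, β, h0, h1, h2, h3⟩ := h
  refine ⟨α, β, h0, h1, h2, ?_⟩
  have h4 : (cnt s' y α β : ℝ) ≤ cnt s y α β := by
    have : cnt s' y α β ≤ cnt s y α β :=
      Finset.card_le_card (Finset.filter_subset_filter _ hs)
    exact_mod_cast this
  have h5 : (s'.card : ℝ) ≤ s.card := by exact_mod_cast Finset.card_le_card hs
  have h6 : (cnt s y α β : ℝ) ≤ cnt s' y α β + (s.card - s'.card) := by
    have h7 : cnt s y α β ≤ cnt s' y α β + (s \ s').card := by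
      unfold cnt
      have : s.filter (fun i => α ≤ Int.fract (y i) ∧ Int.fract (y i) < β) ⊆
          s'.filter (fun i => α ≤ Int.fract (y i) ∧ Int.fract (y i) < β) ∪ (s \ s') := by
        intro i hi
        rw [Finset.mem_filter] at hi
        rw [Finset.mem_union, Finset.mem_filter, Finset.mem_sdiff]
        by_cases hi' : i ∈ s'
        · exact Or.inl ⟨hi', hi.2⟩
        · exact Or.inr ⟨hi.1, hi'⟩
      exact le_trans (Finset.card_le_card this) (Finset.card_union_le _ _)
    have h8 : (s \ s').card + s'.card = s.card := Finset.card_sdiff_add_card_eq_card hs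
    have h9 : ((s \ s').card : ℝ) = s.card - s'.card := by
      have : ((s \ s').card : ℝ) + s'.card = s.card := by exact_mod_cast h8
      linarith
    rw [← h9]
    exact_mod_cast h7
  have hba : 0 ≤ β - α := by linarith
  have hba1 : β - α ≤ 1 := by linarith
  have h10 : (β - α) * ((s.card : ℝ) - s'.card) ≤ s.card - s'.card := by
    have : 0 ≤ (s.card : ℝ) - s'.card := by linarith
    nlinarith
  have h11 : 0 ≤ (β - α) * ((s.card : ℝ) - s'.card) := mul_nonneg hba (by linarith)
  have h12 : ε * s'.card ≤ ε * s.card := mul_le_mul_of_nonneg_left h5 hε.le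
  rcases le_abs'.1 h3 with h | h
  · rw [le_abs']
    left
    nlinarith
  · rw [le_abs']
    right
    nlinarith

/-- the reciprocals of integers with small pairwise least common multiples are spread -/
lemma spread_moduli (D : Finset ℕ) (X H : ℕ) (hH : ∀ d ∈ D, 2 * H < d)
    (hD : ∀ d ∈ D, ∀ d' ∈ D, d ≠ d' → Nat.lcm d d' ≤ X) :
    Spread 1 X H (D.image (fun d : ℕ => 1 / (d : ℝ))) := by
  classical
  intro n hn hnH θ hθ θ' hθ' hne k
  rw [Finset.mem_image] at hθ hθ'
  obtain ⟨d, hd, rfl⟩ := hθ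
  obtain ⟨d', hd', rfl⟩ := hθ'
  have hdd : d ≠ d' := fun h => hne (by rw [h])
  have h1 := hH d hd
  have h2 := hH d' hd'
  have hlcm := hD d hd d' hd' hdd
  set l := Nat.lcm d d' with hl
  obtain ⟨e, he⟩ := Nat.dvd_lcm_left d d'
  obtain ⟨e', he'⟩ := Nat.dvd_lcm_right d d'
  rw [← hl] at he he'
  have hd0 : (0 : ℝ) < d := by
    have : 0 < d := by omega
    exact_mod_cast this
  have hd0' : (0 : ℝ) < d' := by
    have : 0 < d' := by omega
    exact_mod_cast this
  have hl0 : 0 < l := Nat.lcm_pos (by omega) (by omega)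
  have hlr : (0 : ℝ) < l := by exact_mod_cast hl0
  have hle : (l : ℝ) = d * e := by exact_mod_cast he
  have hle' : (l : ℝ) = d' * e' := by exact_mod_cast he'
  have he0 : (e : ℝ) ≠ 0 := by
    intro h
    rw [h, mul_zero] at hle
    linarith
  have he0' : (e' : ℝ) ≠ 0 := by
    intro h
    rw [h, mul_zero] at hle'
    linarith
  have h3 : (l : ℝ) * (n * (1 / (d : ℝ) - 1 / (d' : ℝ)) - k) =
      ((n * ((e : ℤ) - e') - k * l : ℤ) : ℝ) := by
    have g1 : (l : ℝ) * (1 / (d : ℝ)) = e := by rw [hle]; field_simp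
    have g2 : (l : ℝ) * (1 / (d' : ℝ)) = e' := by rw [hle']; field_simp
    push_cast
    calc (l : ℝ) * (n * (1 / (d : ℝ) - 1 / (d' : ℝ)) - k) =
        n * ((l : ℝ) * (1 / (d : ℝ)) - (l : ℝ) * (1 / (d' : ℝ))) - k * l := by ring
      _ = _ := by rw [g1, g2]
  have h4 : (n * ((e : ℤ) - e') - k * l : ℤ) ≠ 0 := by
    intro h0
    rw [h0, Int.cast_zero] at h3
    have h5 : n * (1 / (d : ℝ) - 1 / (d' : ℝ)) = k := by
      rcases mul_eq_zero.1 h3 with h | h
      · linarith
      · linarith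
    have hnr : (0 : ℝ) < n := by
      have : 0 < n := by omega
      exact_mod_cast this
    have h6 : (n : ℝ) / d < 1 / 2 := by
      rw [div_lt_div_iff₀ hd0 (by norm_num)]
      have : 2 * n < d := by omega
      have : (2 : ℝ) * n < d := by exact_mod_cast this
      linarith
    have h7 : (n : ℝ) / d' < 1 / 2 := by
      rw [div_lt_div_iff₀ hd0' (by norm_num)]
      have : 2 * n < d' := by omega
      have : (2 : ℝ) * n < d' := by exact_mod_cast this
      linarith
    have h8 : 0 < (n : ℝ) / d := by positivity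
    have h9 : 0 < (n : ℝ) / d' := by positivity
    have h10 : n * (1 / (d : ℝ) - 1 / (d' : ℝ)) = n / d - n / d' := by ring
    rw [h10] at h5
    have h11 : |(k : ℝ)| < 1 := by
      rw [← h5, abs_lt]
      constructor <;> linarith
    have h12 : k = 0 := by
      have : |k| < 1 := by exact_mod_cast h11
      rwa [Int.abs_lt_one_iff] at this
    rw [h12, Int.cast_zero, sub_eq_zero, div_eq_div_iff hd0.ne' hd0'.ne'] at h5
    have h13 : (d' : ℝ) = d := mul_left_cancel₀ hnr.ne' h5
    exact hdd (by exact_mod_cast h13.symm)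
  have h5 : (1 : ℝ) ≤ |(l : ℝ) * (n * (1 / (d : ℝ) - 1 / (d' : ℝ)) - k)| := by
    rw [h3, ← Int.cast_abs]
    exact_mod_cast Int.one_le_abs h4
  rw [abs_mul, abs_of_pos hlr] at h5
  refine le_trans h5 ?_
  apply mul_le_mul_of_nonneg_right _ (abs_nonneg _)
  exact_mod_cast hlcm

/-- **Well-distribution modulo most moduli.**  If the `h`-fold sums from `T ⊆ [0, X]` have
multiplicity at most `K`, and `D` is a set of moduli with pairwise least common multiples
at most `X`, such that `a / d` (`a ∈ T`) has discrepancy at least `ε` modulo one for all `d ∈ D`,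
then `|D| |T| ^ h ≤ C K X`. -/
theorem moduli_bound (h : ℕ) (hh : 1 ≤ h) (ε : ℝ) (hε : 0 < ε) :
    ∃ C : ℝ, 0 < C ∧ ∀ (X K : ℕ) (D T : Finset ℕ), 0 < X → (∀ d ∈ D, 0 < d) →
      (∀ d ∈ D, ∀ d' ∈ D, d ≠ d' → Nat.lcm d d' ≤ X) →
      (∀ a ∈ T, a ≤ X) → (∀ m, ((tup T h).filter (fun v => ∑ i, v i = m)).card ≤ K) →
      (∀ d ∈ D, Uneven ε T (fun a => (a : ℝ) / (d : ℝ))) →
      (D.card : ℝ) * (T.card : ℝ) ^ h ≤ C * K * X := by
  classical
  obtain ⟨C, H, hC, hJ₀⟩ := core_moduli h hh ε 1 hε one_pos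
  refine ⟨C + (2 * H + 1) * (h + 1), by positivity, ?_⟩
  intro X K D T hX hD0 hD hTX hK hdev
  have hXr : (1 : ℝ) ≤ X := by exact_mod_cast hX
  have h1 : (D.filter (fun d => ¬ 2 * H < d)).card ≤ 2 * H + 1 := by
    have : D.filter (fun d => ¬ 2 * H < d) ⊆ range (2 * H + 1) := by
      intro d hd
      rw [Finset.mem_filter] at hd
      rw [Finset.mem_range]
      omega
    have := Finset.card_le_card this
    rwa [Finset.card_range] at this
  have hinj : Set.InjOn (fun d : ℕ => 1 / (d : ℝ)) (D.filter (fun d => 2 * H < d) : Finset ℕ) := by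
    intro d hd d' hd' heq
    rw [Finset.mem_coe, Finset.mem_filter] at hd hd'
    have g1 : (0 : ℝ) < d := by exact_mod_cast hD0 d hd.1
    have g2 : (0 : ℝ) < d' := by exact_mod_cast hD0 d' hd'.1
    simp only [one_div, inv_inj] at heq
    exact_mod_cast heq
  have h2 : ((D.filter (fun d => 2 * H < d)).card : ℝ) * (T.card : ℝ) ^ h ≤ C * K * X := by
    rw [← Finset.card_image_of_injOn hinj]
    apply hJ₀ X K _ T hX _ hTX hK
    · intro θ hθ
      rw [Finset.mem_image] at hθ
      obtain ⟨d, hd, rfl⟩ := hθ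
      rw [Finset.mem_filter] at hd
      have := hdev d hd.1
      simp_rw [mul_one_div]
      exact this
    · apply spread_moduli
      · intro d hd
        rw [Finset.mem_filter] at hd
        exact hd.2
      · intro d hd d' hd' hne
        rw [Finset.mem_filter] at hd hd'
        exact hD d hd.1 d' hd'.1 hne
  have h3 := small_card h K T X (by positivity) (fun a ha => by exact_mod_cast hTX a ha) hK
  have h4 : (D.card : ℝ) = (D.filter (fun d => 2 * H < d)).card +
      (D.filter (fun d => ¬ 2 * H < d)).card := by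
    exact_mod_cast (Finset.card_filter_add_card_filter_not (s := D) (fun d => 2 * H < d)).symm
  have h5 : ((D.filter (fun d => ¬ 2 * H < d)).card : ℝ) ≤ 2 * H + 1 := by exact_mod_cast h1
  have h6 : (T.card : ℝ) ^ h ≤ K * ((h + 1) * X) := by
    refine le_trans h3 ?_
    apply mul_le_mul_of_nonneg_left _ (by positivity)
    nlinarith
  have h7 : (0 : ℝ) ≤ (T.card : ℝ) ^ h := by positivity
  have h8 : ((D.filter (fun d => ¬ 2 * H < d)).card : ℝ) * (T.card : ℝ) ^ h ≤
      (2 * H + 1) * (K * ((h + 1) * X)) := by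
    calc _ ≤ (2 * (H : ℝ) + 1) * (T.card : ℝ) ^ h := mul_le_mul_of_nonneg_right h5 h7
      _ ≤ _ := mul_le_mul_of_nonneg_left h6 (by positivity)
  rw [h4, add_mul]
  calc _ ≤ C * K * X + (2 * H + 1) * (K * ((h + 1) * X)) := add_le_add h2 h8
    _ = _ := by ring

section lacunary

variable {u : ℕ → ℝ} {q : ℝ}

lemma lac_pos (hu0 : 0 < u 0) (hq : 1 < q) (hu : ∀ j, q * u j ≤ u (j + 1)) (j : ℕ) : 0 < u j := by
  induction j with
  | zero => exact hu0
  | succ j ih => exact lt_of_lt_of_le (by positivity) (hu j)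

lemma lac_mono (hu0 : 0 < u 0) (hq : 1 < q) (hu : ∀ j, q * u j ≤ u (j + 1)) : StrictMono u := by
  apply strictMono_nat_of_lt_succ
  intro j
  have := hu j
  have := lac_pos hu0 hq hu j
  nlinarith

lemma lac_grow (hq : 1 < q) (hu : ∀ j, q * u j ≤ u (j + 1)) (i j : ℕ) :
    q ^ j * u i ≤ u (i + j) := by
  induction j with
  | zero => simp
  | succ j ih =>
    have h1 := hu (i + j)
    rw [← add_assoc]
    calc q ^ (j + 1) * u i = q * (q ^ j * u i) := by ring
      _ ≤ q * u (i + j) := mul_le_mul_of_nonneg_left ih (by linarith)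
      _ ≤ _ := h1

lemma lac_unb (hu0 : 0 < u 0) (hq : 1 < q) (hu : ∀ j, q * u j ≤ u (j + 1)) (B : ℝ) :
    ∃ j, B < u j := by
  obtain ⟨j, hj⟩ := pow_unbounded_of_one_lt (B / u 0) hq
  refine ⟨j, ?_⟩
  have h1 := lac_grow hq hu 0 j
  rw [zero_add] at h1
  rw [div_lt_iff₀ hu0] at hj
  linarith

lemma lac_spread (hu0 : 0 < u 0) (hq : 1 < q) (hu : ∀ j, q * u j ≤ u (j + 1)) (H x j₀ m : ℕ)
    (hj₀ : 2 * (H : ℝ) < u j₀) (hm : ∀ j, j < m → u j ≤ x) (hx : 1 ≤ x) :
    Spread (min (q - 1) (1 / 2)) x H ((Finset.Ico j₀ m).image (fun j => 1 / u j)) := by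
  have hpos := lac_pos hu0 hq hu
  have hmono := lac_mono hu0 hq hu
  have hx1 : (1 : ℝ) ≤ x := by exact_mod_cast hx
  have hxr : (0 : ℝ) < x := by linarith
  have key : ∀ n : ℕ, 1 ≤ n → n ≤ H → ∀ i, j₀ ≤ i → ∀ j, j < m → i < j → ∀ k : ℤ,
      min (q - 1) (1 / 2) ≤ x * |n * (1 / u i - 1 / u j) - k| := by
    intro n hn hnJ i hi j hj hij k
    have hui := hpos i
    have huj := hpos j
    have hnr : (1 : ℝ) ≤ n := by exact_mod_cast hn
    have hnJr : (n : ℝ) ≤ H := by exact_mod_cast hnJ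
    have h1 : 1 / u j < 1 / u i := one_div_lt_one_div_of_lt hui (hmono hij)
    have h2 : n * (1 / u i - 1 / u j) < 1 / 2 := by
      have h3 : n * (1 / u i) < 1 / 2 := by
        rw [mul_one_div, div_lt_div_iff₀ hui (by norm_num)]
        have := hmono.monotone hi
        linarith
      have h4 : 0 < n * (1 / u j) := by positivity
      nlinarith
    have h3 : 0 < n * (1 / u i - 1 / u j) := by
      apply mul_pos (by linarith)
      linarith
    by_cases hk : k = 0
    · rw [hk, Int.cast_zero, sub_zero, abs_of_pos h3]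
      refine le_trans (min_le_left _ _) ?_
      have h4 : (q - 1) / u j ≤ 1 / u i - 1 / u j := by
        have h5 : q * u i ≤ u j := le_trans (hu i) (hmono.monotone hij)
        rw [div_sub_div _ _ hui.ne' huj.ne', div_le_div_iff₀ huj (by positivity)]
        nlinarith [mul_pos hui huj, mul_pos huj huj]
      have h5 : (q - 1) / u j ≤ n * (1 / u i - 1 / u j) := by
        have : 0 ≤ 1 / u i - 1 / u j := by linarith
        nlinarith
      have h6 : u j ≤ x := hm j hj
      calc q - 1 = u j * ((q - 1) / u j) := by field_simp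
        _ ≤ x * ((q - 1) / u j) := by
            apply mul_le_mul_of_nonneg_right h6
            apply div_nonneg (by linarith) huj.le
        _ ≤ _ := mul_le_mul_of_nonneg_left h5 hxr.le
    · refine le_trans (min_le_right _ _) ?_
      have h4 : (1 : ℝ) ≤ |(k : ℝ)| := by
        rw [← Int.cast_abs]
        exact_mod_cast Int.one_le_abs hk
      have h5 : 1 / 2 ≤ |n * (1 / u i - 1 / u j) - k| := by
        have h6 := abs_sub_abs_le_abs_sub (k : ℝ) (n * (1 / u i - 1 / u j))
        rw [abs_sub_comm (k : ℝ) _, abs_of_pos h3] at h6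
        linarith
      nlinarith
  intro n hn hnJ θ hθ θ' hθ' hne k
  rw [Finset.mem_image] at hθ hθ'
  obtain ⟨i, hi, rfl⟩ := hθ
  obtain ⟨j, hj, rfl⟩ := hθ'
  rw [Finset.mem_Ico] at hi hj
  have hij : i ≠ j := fun h => hne (by rw [h])
  rcases lt_or_gt_of_ne hij with h | h
  · exact key n hn hnJ i hi.1 j hj.2 h k
  · have := key n hn hnJ j hj.1 i hi.2 h (-k)
    have h7 : n * (1 / u i - 1 / u j) - (k : ℝ) =
        -(n * (1 / u j - 1 / u i) - ((-k : ℤ) : ℝ)) := by
      push_cast
      ring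
    rw [h7, abs_neg]
    exact this

end lacunary

/-- for lacunary sequences `u` the irregular integers form a biased set -/
theorem irregular_biased (u : ℕ → ℝ) (q : ℝ) (hu0 : 0 < u 0) (hq : 1 < q)
    (hu : ∀ j, q * u j ≤ u (j + 1)) (ε : ℝ) (hε : 0 < ε) : Biased (Irregular u ε) := by
  classical
  have hpos := lac_pos hu0 hq hu
  have hmono := lac_mono hu0 hq hu
  have hgrow := lac_grow hq hu
  have hunb := lac_unb hu0 hq hu
  refine ⟨ε / 2, min (q - 1) (1 / 2), by positivity, lt_min (by linarith) (by norm_num), ?_⟩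
  intro J δ hδ
  set δ' : ℝ := min δ 1 with hδ'
  have hδ'0 : 0 < δ' := lt_min hδ one_pos
  have hδ'δ : δ' ≤ δ := min_le_left _ _
  have hδ'1 : δ' ≤ 1 := min_le_right _ _
  obtain ⟨j₀, hj₀⟩ := hunb (2 * J)
  obtain ⟨C, hC⟩ := pow_unbounded_of_one_lt (1 / δ') hq
  obtain ⟨R, hR⟩ := exists_nat_gt ((j₀ + C : ℝ) / (ε / 2))
  set m₀ : ℕ := j₀ + J + R with hm₀
  have hev : ∀ᶠ x : ℕ in atTop, u m₀ ≤ δ' * x := by
    have : Tendsto (fun x : ℕ => δ' * (x : ℝ)) atTop atTop :=
      Tendsto.const_mul_atTop hδ'0 tendsto_natCast_atTop_atTop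
    exact this.eventually_ge_atTop _
  filter_upwards [hev, eventually_gt_atTop 0] with x hx hx0
  have hxr : (0 : ℝ) < x := by exact_mod_cast hx0
  have hx1 : (1 : ℝ) ≤ x := by exact_mod_cast hx0
  -- `m` is the number of indices with `u j ≤ δ' x`
  have hexm : ∃ m, δ' * x < u m := hunb _
  set m := Nat.find hexm with hm
  have hm1 : δ' * x < u m := Nat.find_spec hexm
  have hm2 : ∀ j, j < m → u j ≤ δ' * x := by
    intro j hj
    exact not_lt.1 (Nat.find_min hexm hj)
  have hmm : m₀ < m := by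
    by_contra hcon
    push Not at hcon
    have := hmono.monotone hcon
    linarith
  have hinj : Set.InjOn (fun j => 1 / u j) ((Finset.Ico j₀ m : Finset ℕ) : Set ℕ) := by
    intro i _ j _ hij
    simp only [one_div, inv_inj] at hij
    exact hmono.injective hij
  refine ⟨(Finset.Ico j₀ m).image (fun j => 1 / u j), ?_, ?_, ?_⟩
  · rw [Finset.card_image_of_injOn hinj, Nat.card_Ico]
    omega
  · apply lac_spread hu0 hq hu J x j₀ m hj₀ _ hx0
    intro j hj
    have := hm2 j hj
    nlinarith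
  · rintro a ⟨F, hF, hFu⟩ hax hax'
    apply Uneven.image hinj
    have hFm : ∀ j, j < m → j ∈ F := by
      intro j hj
      rw [hF]
      have h1 := hm2 j hj
      have h2 : δ' * x ≤ δ * x := mul_le_mul_of_nonneg_right hδ'δ hxr.le
      linarith
    have hsub : Finset.Ico j₀ m ⊆ F := by
      intro j hj
      rw [Finset.mem_Ico] at hj
      exact hFm j hj.2
    have hFsub : F ⊆ (Finset.range j₀) ∪ (Finset.Ico j₀ m) ∪ (Finset.Ico m (m + C)) := by
      intro j hj
      rw [hF] at hj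
      rw [Finset.mem_union, Finset.mem_union, Finset.mem_range, Finset.mem_Ico, Finset.mem_Ico]
      by_contra hcon
      push Not at hcon
      obtain ⟨⟨g1, g2⟩, g3⟩ := hcon
      have g4 : m ≤ j := by
        by_contra g5
        push Not at g5
        have := g2 g1
        omega
      have g5 := g3 g4
      obtain ⟨e, rfl⟩ : ∃ e, j = m + e := ⟨j - m, by omega⟩
      have h1 := hgrow m e
      have h2 : q ^ C ≤ q ^ e := pow_le_pow_right₀ hq.le (by omega)
      have h3 : (a : ℝ) ≤ x := by exact_mod_cast hax'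
      have h4 : 1 / δ' * u m < q ^ e * u m :=
        mul_lt_mul_of_pos_right (lt_of_lt_of_le hC h2) (hpos m)
      have h5 : x < 1 / δ' * u m := by
        rw [one_div, ← div_eq_inv_mul, lt_div_iff₀ hδ'0]
        linarith
      linarith
    have hcard : F.card ≤ (Finset.Ico j₀ m).card + (j₀ + C) := by
      refine le_trans (Finset.card_le_card hFsub) ?_
      refine le_trans (Finset.card_union_le _ _) ?_
      have := Finset.card_union_le (Finset.range j₀) (Finset.Ico j₀ m)
      rw [Finset.card_range] at this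
      rw [Nat.card_Ico m (m + C)]
      omega
    have hres := hFu.restrict hε hsub (j₀ + C : ℝ) (by exact_mod_cast hcard) (by
      rw [div_lt_iff₀ (by positivity)] at hR
      have h1 : (R : ℝ) ≤ (Finset.Ico j₀ m).card := by
        rw [Nat.card_Ico]
        have : R ≤ m - j₀ := by omega
        exact_mod_cast this
      nlinarith)
    simp_rw [mul_one_div]
    exact hres

/-- the number of indices `j` with `u j ≤ y` -/
noncomputable def numLE (u : ℕ → ℝ) (y : ℝ) : ℕ := {j : ℕ | u j ≤ y}.ncard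

lemma exp_beats_linear (q : ℝ) (hq : 1 < q) (B : ℝ) :
    ∃ e₀ : ℕ, ∀ e : ℕ, e₀ ≤ e → B * (e + 1) ≤ q ^ e := by
  have h1 : Tendsto (fun n : ℕ => (n : ℝ) ^ 1 / q ^ n) atTop (𝓝 0) :=
    tendsto_pow_const_div_const_pow_of_one_lt 1 hq
  have h2 : ∀ᶠ n : ℕ in atTop, (n : ℝ) ^ 1 / q ^ n < 1 / (2 * (|B| + 1)) :=
    h1.eventually_lt_const (by positivity)
  obtain ⟨e₀, he₀⟩ := eventually_atTop.1 h2
  refine ⟨e₀ + 1, fun e he => ?_⟩
  have h3 := he₀ e (by omega)
  have hqe : (0 : ℝ) < q ^ e := by positivity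
  rw [pow_one, div_lt_div_iff₀ hqe (by positivity), one_mul] at h3
  have h4 : (1 : ℝ) ≤ e := by
    have : 1 ≤ e := by omega
    exact_mod_cast this
  have h5 : B ≤ |B| := le_abs_self B
  have h6 : 0 ≤ |B| := abs_nonneg B
  nlinarith

/-- **Irregular integers, quantitative form.**  For a lacunary sequence `u` and `T` a set of
irregular integers in `[0, x]` whose `h`-fold sums have multiplicity at most `K`, the product of
`|T| ^ h` and the number of indices `j` with `u j ≤ x` is at most `C K x`. -/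
theorem irregular_quant (h : ℕ) (hh : 1 ≤ h) (u : ℕ → ℝ) (q : ℝ) (hu0 : 0 < u 0) (hq : 1 < q)
    (hu : ∀ j, q * u j ≤ u (j + 1)) (ε : ℝ) (hε : 0 < ε) :
    ∃ C : ℝ, 0 < C ∧ ∀ᶠ x : ℕ in atTop, ∀ (K : ℕ) (T : Finset ℕ),
      (∀ a ∈ T, a ∈ Irregular u ε ∧ a ≤ x) →
      (∀ m, ((tup T h).filter (fun v => ∑ i, v i = m)).card ≤ K) →
      (numLE u x : ℝ) * (T.card : ℝ) ^ h ≤ C * K * x := by
  classical
  have hpos := lac_pos hu0 hq hu
  have hmono := lac_mono hu0 hq hu
  have hgrow := lac_grow hq hu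
  have hunb := lac_unb hu0 hq hu
  -- counting function
  have hcount : ∀ y : ℝ, ∃ m : ℕ, y < u m ∧ (∀ j, j < m → u j ≤ y) ∧ numLE u y = m := by
    intro y
    refine ⟨Nat.find (hunb y), Nat.find_spec (hunb y), ?_, ?_⟩
    · intro j hj
      exact not_lt.1 (Nat.find_min (hunb y) hj)
    · unfold numLE
      have : {j : ℕ | u j ≤ y} = ((Finset.range (Nat.find (hunb y)) : Finset ℕ) : Set ℕ) := by
        ext j
        simp only [Set.mem_ofPred_eq, Finset.coe_range, Set.mem_Iio]
        constructor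
        · intro hj
          by_contra hcon
          push Not at hcon
          have h1 := hmono.monotone hcon
          have h2 := Nat.find_spec (hunb y)
          linarith
        · intro hj
          exact not_lt.1 (Nat.find_min (hunb y) hj)
      rw [this, Set.ncard_coe_finset, Finset.card_range]
  set c : ℝ := min (q - 1) (1 / 2) with hc
  have hc0 : 0 < c := lt_min (by linarith) (by norm_num)
  obtain ⟨C, H, hC, hcore⟩ := core h hh (ε / 2) c (by positivity) hc0
  obtain ⟨j₀, hj₀⟩ := hunb (2 * H)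
  -- `B` is the loss factor
  set B : ℝ := 4 * (1 + 2 / ε) with hB
  have h2ε : 0 < 2 / ε := by positivity
  have hB4 : 4 ≤ B := by
    rw [hB]
    linarith
  obtain ⟨e₀, he₀⟩ := exp_beats_linear q hq B
  obtain ⟨J₁, hJ₁⟩ := exists_nat_gt (B * (e₀ + 1 + j₀))
  refine ⟨2 ^ h * (2 * C + (h + 1)), by positivity, ?_⟩
  have hev : ∀ᶠ x : ℕ in atTop, u J₁ ≤ x :=
    tendsto_natCast_atTop_atTop.eventually_ge_atTop _
  have hev2 : ∀ᶠ x : ℕ in atTop, (numLE u x : ℝ) ≤ x := by
    -- `u j ≥ q ^ j u 0`, so `numLE u x ≤ x` for large `x`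
    obtain ⟨e₁, he₁⟩ := exp_beats_linear q hq (1 / u 0)
    filter_upwards [eventually_ge_atTop (e₁ + 1)] with x hx
    obtain ⟨m, hm1, hm2, hm3⟩ := hcount x
    rw [hm3]
    by_contra hcon
    push Not at hcon
    have h0 : x < m := by exact_mod_cast hcon
    have h1 := hm2 x h0
    have h2 := hgrow 0 x
    rw [zero_add] at h2
    have h3 := he₁ x (by omega)
    have h4 : 1 / u 0 * (x + 1) * u 0 = x + 1 := by field_simp
    have h5 : 1 / u 0 * ((x : ℝ) + 1) * u 0 ≤ q ^ x * u 0 :=
      mul_le_mul_of_nonneg_right h3 hu0.le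
    rw [h4] at h5
    linarith
  filter_upwards [hev, hev2, eventually_gt_atTop 0] with x hx hx2 hx0 K T hT hK
  have hxr : (0 : ℝ) < x := by exact_mod_cast hx0
  have hx1 : (1 : ℝ) ≤ x := by exact_mod_cast hx0
  obtain ⟨J, hJa, hJb, hJc⟩ := hcount x
  rw [hJc] at hx2 ⊢
  have hJJ : J₁ < J := by
    by_contra hcon
    push Not at hcon
    have := hmono.monotone hcon
    linarith
  have hJr : (J₁ : ℝ) < J := by exact_mod_cast hJJ
  have hJ₁0 : (0 : ℝ) ≤ J₁ := by positivity
  have hJpos : (0 : ℝ) < J := by linarith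
  have hJ1 : (1 : ℝ) ≤ J := by
    have : 0 < J := by omega
    exact_mod_cast this
  set Y : ℝ := x / J with hY
  have hY0 : 0 < Y := by positivity
  have hYx : Y ≤ x := div_le_self hxr.le hJ1
  obtain ⟨m, hm1, hm2, hm3⟩ := hcount Y
  -- `e` is minimal with `q ^ e > J`
  have hexe : ∃ e : ℕ, (J : ℝ) < q ^ e := pow_unbounded_of_one_lt _ hq
  set e := Nat.find hexe with he
  have he1 : (J : ℝ) < q ^ e := Nat.find_spec hexe
  have heB : B * e ≤ J := by
    rcases Nat.lt_or_ge e (e₀ + 1) with h1 | h1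
    · have h2 : (e : ℝ) ≤ e₀ + 1 := by
        have : e ≤ e₀ + 1 := h1.le
        exact_mod_cast this
      have h3 : B * e ≤ B * (e₀ + 1 + j₀) := by
        apply mul_le_mul_of_nonneg_left _ (by linarith)
        have : (0 : ℝ) ≤ j₀ := by positivity
        linarith
      linarith
    · obtain ⟨e', he'⟩ : ∃ e', e = e' + 1 := ⟨e - 1, by omega⟩
      have h2 : ¬ (J : ℝ) < q ^ e' := Nat.find_min hexe (by omega)
      have h3 := he₀ e' (by omega)
      push Not at h2
      rw [he']
      push_cast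
      linarith
  have hjB : B * j₀ ≤ J := by
    have h3 : B * j₀ ≤ B * (e₀ + 1 + j₀) := by
      apply mul_le_mul_of_nonneg_left _ (by linarith)
      have : (0 : ℝ) ≤ e₀ := by positivity
      linarith
    linarith
  have hloss : (1 + 2 / ε) * (e + j₀) ≤ J / 2 := by
    have : B * (e + j₀) ≤ 2 * J := by linarith
    rw [hB] at this
    linarith
  have hej : ((e : ℝ) + j₀) ≤ J / 2 := by
    have h1 : 0 ≤ (e : ℝ) + j₀ := by positivity
    nlinarith
  -- `J ≤ m + e`
  have hJme : J ≤ m + e := by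
    by_contra hcon
    push Not at hcon
    have h1 := hJb (m + e) hcon
    have h2 := hgrow m e
    have h3 : (J : ℝ) * Y < q ^ e * u m := by
      apply mul_lt_mul he1 hm1.le hY0 (by positivity)
    have h4 : (J : ℝ) * Y = x := by rw [hY]; field_simp
    linarith
  have hJmer : (J : ℝ) ≤ m + e := by exact_mod_cast hJme
  have hj₀m : j₀ < m := by
    have h1 : (j₀ : ℝ) < m := by
      have h2 : (e : ℝ) + j₀ < J := by linarith
      linarith
    exact_mod_cast h1
  have hcardI : (((Finset.Ico j₀ m).card : ℕ) : ℝ) = m - j₀ := by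
    rw [Nat.card_Ico, Nat.cast_sub hj₀m.le]
  have hhalf : (J : ℝ) / 2 ≤ m - j₀ := by linarith
  have hinj : Set.InjOn (fun j => 1 / u j) ((Finset.Ico j₀ m : Finset ℕ) : Set ℕ) := by
    intro i _ j _ hij
    simp only [one_div, inv_inj] at hij
    exact hmono.injective hij
  set T₁ := T.filter (fun a : ℕ => Y ≤ a) with hT₁
  set T₂ := T.filter (fun a : ℕ => ¬ Y ≤ a) with hT₂
  have hmain := hcore x K ((Finset.Ico j₀ m).image (fun j => 1 / u j)) T₁ hx0
    (lac_spread hu0 hq hu H x j₀ m hj₀ (fun j hj => (hm2 j hj).trans hYx) hx0) (by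
      intro a ha
      rw [hT₁, Finset.mem_filter] at ha
      exact (hT a ha.1).2) (sub_mult hK T₁ (Finset.filter_subset _ _)) (by
      intro a ha
      rw [hT₁, Finset.mem_filter] at ha
      obtain ⟨F, hF, hFu⟩ := (hT a ha.1).1
      apply Uneven.image hinj
      have hsub : Finset.Ico j₀ m ⊆ F := by
        intro j hj
        rw [Finset.mem_Ico] at hj
        rw [hF]
        have := hm2 j hj.2
        linarith [ha.2]
      have hFsub : F ⊆ Finset.range J := by
        intro j hj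
        rw [hF] at hj
        rw [Finset.mem_range]
        by_contra hcon
        push Not at hcon
        have h1 := hmono.monotone hcon
        have h2 : (a : ℝ) ≤ x := by exact_mod_cast (hT a ha.1).2
        linarith
      have hFc := Finset.card_le_card hFsub
      rw [Finset.card_range] at hFc
      have hres := hFu.restrict hε hsub ((e : ℝ) + j₀) (by
        rw [hcardI]
        have : (F.card : ℝ) ≤ J := by exact_mod_cast hFc
        linarith) (by
        rw [hcardI]
        have h1 : (1 + 2 / ε) * ((e : ℝ) + j₀) ≤ J := by linarith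
        have h2 : ε / 2 * ((1 + 2 / ε) * ((e : ℝ) + j₀)) ≤ ε / 2 * J :=
          mul_le_mul_of_nonneg_left h1 (by positivity)
        have h3 : ε / 2 * ((1 + 2 / ε) * ((e : ℝ) + j₀)) =
            ε / 2 * ((e : ℝ) + j₀) + (e + j₀) := by
          field_simp
        have h4 : ε / 2 * ((J : ℝ) - (e + j₀)) ≤ ε / 2 * ((m : ℝ) - j₀) :=
          mul_le_mul_of_nonneg_left (by linarith) (by positivity)
        have h5 : ε / 2 * ((J : ℝ) - (e + j₀)) = ε / 2 * J - ε / 2 * ((e : ℝ) + j₀) := by ring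
        rw [h3] at h2
        rw [h5] at h4
        linarith)
      simp_rw [mul_one_div]
      exact hres)
  rw [Finset.card_image_of_injOn hinj, hcardI] at hmain
  have h1 : (J : ℝ) * (T₁.card : ℝ) ^ h ≤ (2 * C + (h + 1)) * K * x := by
    have g1 : (J : ℝ) / 2 * (T₁.card : ℝ) ^ h ≤ C * K * x := by
      refine le_trans ?_ hmain
      exact mul_le_mul_of_nonneg_right hhalf (by positivity)
    have g2 : (0 : ℝ) ≤ (h + 1) * K * x := by positivity
    have g3 : (J : ℝ) * (T₁.card : ℝ) ^ h = 2 * ((J : ℝ) / 2 * (T₁.card : ℝ) ^ h) := by ring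
    have g4 : (2 * C + (h + 1)) * K * x = 2 * (C * K * x) + (h + 1) * K * x := by ring
    rw [g3, g4]
    linarith
  have h2 : (J : ℝ) * (T₂.card : ℝ) ^ h ≤ (2 * C + (h + 1)) * K * x := by
    have g1 := small_card h K T₂ Y hY0.le (by
      intro a ha
      rw [hT₂, Finset.mem_filter] at ha
      push Not at ha
      exact ha.2.le) (sub_mult hK T₂ (Finset.filter_subset _ _))
    have g2 : (J : ℝ) * (T₂.card : ℝ) ^ h ≤ J * (K * (h * Y + 1)) :=
      mul_le_mul_of_nonneg_left g1 hJpos.le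
    have g3 : (J : ℝ) * (K * (h * Y + 1)) = K * (h * x + J) := by
      rw [hY]
      field_simp
    have g4 : (K : ℝ) * (h * x + J) ≤ K * (h * x + x) := by
      apply mul_le_mul_of_nonneg_left _ (by positivity)
      linarith
    have g5 : (0 : ℝ) ≤ 2 * C * K * x := by positivity
    have g6 : (2 * C + (h + 1)) * K * x = 2 * C * K * x + K * (h * x + x) := by ring
    rw [g6]
    linarith
  have h3 : (T.card : ℝ) = T₁.card + T₂.card := by
    rw [hT₁, hT₂]
    exact_mod_cast (Finset.card_filter_add_card_filter_not (s := T)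
      (fun a : ℕ => Y ≤ (a : ℝ))).symm
  set t₁ : ℝ := (T₁.card : ℝ)
  set t₂ : ℝ := (T₂.card : ℝ)
  have ht₁ : 0 ≤ t₁ := by positivity
  have ht₂ : 0 ≤ t₂ := by positivity
  rw [h3]
  have key : ∀ t : ℝ, 0 ≤ t → (J : ℝ) * t ^ h ≤ (2 * C + (h + 1)) * K * x →
      (J : ℝ) * (2 * t) ^ h ≤ 2 ^ h * (2 * C + (h + 1)) * K * x := by
    intro t _ htt
    rw [mul_pow]
    calc (J : ℝ) * (2 ^ h * t ^ h) = 2 ^ h * (J * t ^ h) := by ring
      _ ≤ 2 ^ h * ((2 * C + (h + 1)) * K * x) :=
          mul_le_mul_of_nonneg_left htt (by positivity)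
      _ = _ := by ring
  rcases le_total t₁ t₂ with hle | hle
  · refine le_trans ?_ (key t₂ ht₂ h2)
    apply mul_le_mul_of_nonneg_left _ hJpos.le
    apply pow_le_pow_left₀ (by positivity)
    linarith
  · refine le_trans ?_ (key t₁ ht₁ h1)
    apply mul_le_mul_of_nonneg_left _ hJpos.le
    apply pow_le_pow_left₀ (by positivity)
    linarith

/-- `a` is abnormal in base `g` along the positions `p 0 < p 1 < ...`: some block `v` of `s` digits
does not occur with the proportion `1 / g ^ s`, up to `ε`, among the blocks of `s` consecutive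
base `g` digits of `a` which start at the positions `p i` with `g ^ (p i + s) ≤ a`. -/
def AbnormalDigits (g s : ℕ) (p : ℕ → ℕ) (ε : ℝ) : Set ℕ :=
  {a | ∃ F : Finset ℕ, (∀ i, i ∈ F ↔ g ^ (p i + s) ≤ a) ∧ ∃ v < g ^ s,
    ε * F.card ≤ |((F.filter (fun i => a / g ^ (p i) % g ^ s = v)).card : ℝ) -
      F.card / (g : ℝ) ^ s|}

lemma fract_div_iff (a j s g v : ℕ) (hg : 0 < g) :
    ((v : ℝ) / (g : ℝ) ^ s ≤ Int.fract ((a : ℝ) / (g : ℝ) ^ (j + s)) ∧
      Int.fract ((a : ℝ) / (g : ℝ) ^ (j + s)) < ((v : ℝ) + 1) / (g : ℝ) ^ s) ↔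
    a / g ^ j % g ^ s = v := by
  have h1 : Int.fract ((a : ℝ) / (g : ℝ) ^ (j + s)) =
      ((a % g ^ (j + s) : ℕ) : ℝ) / (g : ℝ) ^ (j + s) := by
    have := Int.fract_div_natCast_eq_div_natCast_mod (k := ℝ) (m := a) (n := g ^ (j + s))
    push_cast at this ⊢
    exact this
  have hgr : (0 : ℝ) < g := by exact_mod_cast hg
  have hgs : (0 : ℝ) < (g : ℝ) ^ s := by positivity
  have hgj : (0 : ℝ) < (g : ℝ) ^ j := by positivity
  have h2 : a % g ^ (j + s) = a % g ^ j + g ^ j * (a / g ^ j % g ^ s) := by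
    rw [pow_add, Nat.mod_mul]
  rw [h1, h2]
  have hr : a % g ^ j < g ^ j := Nat.mod_lt _ (by positivity)
  set r := a % g ^ j
  set b := a / g ^ j % g ^ s
  have hpow : (g : ℝ) ^ (j + s) = (g : ℝ) ^ j * (g : ℝ) ^ s := pow_add _ _ _
  rw [hpow]
  have e1 : ((v : ℝ) / (g : ℝ) ^ s ≤ ((r + g ^ j * b : ℕ) : ℝ) / ((g : ℝ) ^ j * (g : ℝ) ^ s)) ↔
      v * g ^ j ≤ r + g ^ j * b := by
    rw [div_le_div_iff₀ hgs (by positivity)]
    rw [← mul_assoc, mul_le_mul_iff_left₀ hgs]
    exact_mod_cast Iff.rfl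
  have e2 : (((r + g ^ j * b : ℕ) : ℝ) / ((g : ℝ) ^ j * (g : ℝ) ^ s) <
      ((v : ℝ) + 1) / (g : ℝ) ^ s) ↔ r + g ^ j * b < (v + 1) * g ^ j := by
    rw [div_lt_div_iff₀ (by positivity) hgs]
    rw [← mul_assoc, mul_lt_mul_iff_left₀ hgs]
    exact_mod_cast Iff.rfl
  rw [e1, e2]
  constructor
  · rintro ⟨h3, h4⟩
    have h5 : v * g ^ j < (b + 1) * g ^ j := by nlinarith
    have h6 : b * g ^ j < (v + 1) * g ^ j := by nlinarith
    have h7 : v < b + 1 := lt_of_mul_lt_mul_right h5 (Nat.zero_le _)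
    have h8 : b < v + 1 := lt_of_mul_lt_mul_right h6 (Nat.zero_le _)
    omega
  · intro h
    rw [h]
    constructor <;> nlinarith

theorem abnormal_subset (g s : ℕ) (hg : 2 ≤ g) (p : ℕ → ℕ) (ε : ℝ) :
    AbnormalDigits g s p ε ⊆ Irregular (fun i => (g : ℝ) ^ (p i + s)) ε := by
  rintro a ⟨F, hF, v, hv, hd⟩
  refine ⟨F, ?_, ?_⟩
  · intro i
    rw [hF i]
    simp only
    exact_mod_cast Iff.rfl
  · have hgs : (0 : ℝ) < (g : ℝ) ^ s := by
      have : (0 : ℝ) < g := by
        have : 0 < g := by omega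
        exact_mod_cast this
      positivity
    refine ⟨(v : ℝ) / (g : ℝ) ^ s, ((v : ℝ) + 1) / (g : ℝ) ^ s, by positivity, ?_, ?_, ?_⟩
    · gcongr
      linarith
    · rw [div_le_one hgs]
      have : v + 1 ≤ g ^ s := hv
      exact_mod_cast this
    · have h1 : cnt F (fun i => (a : ℝ) / (g : ℝ) ^ (p i + s)) ((v : ℝ) / (g : ℝ) ^ s)
          (((v : ℝ) + 1) / (g : ℝ) ^ s) = (F.filter (fun i => a / g ^ (p i) % g ^ s = v)).card := by
        unfold cnt
        congr 1
        apply Finset.filter_congr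
        intro i _
        exact fract_div_iff a (p i) s g v (by omega)
      rw [h1]
      have h2 : (((v : ℝ) + 1) / (g : ℝ) ^ s - (v : ℝ) / (g : ℝ) ^ s) * F.card =
          F.card / (g : ℝ) ^ s := by
        rw [← sub_div]
        ring
      rw [h2]
      exact hd

lemma Biased.mono {S S' : Set ℕ} (h : Biased S) (hS : S' ⊆ S) : Biased S' := by
  obtain ⟨ε, c, hε, hc, h⟩ := h
  refine ⟨ε, c, hε, hc, fun J δ hδ => ?_⟩
  filter_upwards [h J δ hδ] with x hx
  obtain ⟨Θ, h1, h2, h3⟩ := hx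
  exact ⟨Θ, h1, h2, fun a ha => h3 a (hS ha)⟩

/-- integers with abnormal digits form a biased set -/
theorem abnormal_biased (g s : ℕ) (hg : 2 ≤ g) (p : ℕ → ℕ) (hp : StrictMono p) (ε : ℝ)
    (hε : 0 < ε) : Biased (AbnormalDigits g s p ε) := by
  have hgr : (2 : ℝ) ≤ g := by exact_mod_cast hg
  apply Biased.mono _ (abnormal_subset g s hg p ε)
  apply irregular_biased _ 2 (by positivity) (by norm_num) _ ε hε
  intro j
  have h1 : p j + s + 1 ≤ p (j + 1) + s := by
    have := hp (show j < j + 1 by omega)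
    omega
  calc 2 * (g : ℝ) ^ (p j + s) ≤ g * (g : ℝ) ^ (p j + s) := by
        apply mul_le_mul_of_nonneg_right hgr (by positivity)
    _ = (g : ℝ) ^ (p j + s + 1) := by rw [pow_succ]; ring
    _ ≤ _ := pow_le_pow_right₀ (by linarith) h1

end Pool.Agent.H78R2.ET
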