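import Mathlib
import Pool.Agent.H78R2.ET.Core

set_option autoImplicit false

open Finset

namespace Pool.Agent.H78R2.ET

open Pool.Agent.H380R2

lemma ee_add (s t : ℝ) : ee (s + t) = ee s * ee t := by
  unfold ee
  rw [← Complex.exp_add]
  congr 1
  push_cast
  ring

lemma ee_nat_mul (ψ : ℝ) (y : ℕ) : ee (ψ * y) = (ee ψ) ^ y := by
  unfold ee
  rw [← Complex.exp_nat_mul]
  congr 1
  push_cast
  ring

lemma conj_ee (t : ℝ) : (starRingEnd ℂ) (ee t) = ee (-t) := by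
  unfold ee
  rw [← Complex.exp_conj]
  congr 1
  simp only [map_mul, Complex.conj_I, Complex.conj_ofReal, map_ofNat]
  push_cast
  ring

lemma geo_sum (N : ℕ) (ψ : ℝ) (h0 : ψ ≠ 0) (h1 : |ψ| ≤ 1 / 2) :
    ‖∑ y ∈ range N, ee (ψ * y)‖ ≤ 1 / (2 * |ψ|) := by
  have hψ : 0 < |ψ| := abs_pos.2 h0
  have h2 : (∑ y ∈ range N, ee (ψ * y)) * (ee ψ - 1) = ee ψ ^ N - 1 := by
    simp_rw [ee_nat_mul]
    exact geom_sum_mul (ee ψ) N
  have h3 : ‖ee ψ ^ N - 1‖ ≤ 2 := by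
    refine le_trans (norm_sub_le _ _) ?_
    rw [norm_pow, norm_ee, one_pow, norm_one]
    norm_num
  have h4 : 4 * |ψ| ≤ ‖ee ψ - 1‖ := by
    have h5 : ee ψ = Complex.exp (Complex.I * ((2 * Real.pi * ψ : ℝ) : ℂ)) := by
      unfold ee
      congr 1
      push_cast
      ring
    rw [h5, Complex.norm_exp_I_mul_ofReal_sub_one, Real.norm_eq_abs]
    have h6 : 2 * Real.pi * ψ / 2 = Real.pi * ψ := by ring
    rw [h6, abs_mul, abs_of_pos (by norm_num : (0 : ℝ) < 2)]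
    have h7 : 2 * |ψ| ≤ |Real.sin (Real.pi * ψ)| := by
      have h8 : |Real.sin (Real.pi * ψ)| = Real.sin (Real.pi * |ψ|) := by
        rcases le_or_gt 0 ψ with h | h
        · rw [abs_of_nonneg h, abs_of_nonneg]
          apply Real.sin_nonneg_of_nonneg_of_le_pi (by positivity)
          rw [abs_of_nonneg h] at h1
          nlinarith [Real.pi_pos]
        · rw [abs_of_neg h]
          have h9 : Real.pi * -ψ = -(Real.pi * ψ) := by ring
          rw [h9, Real.sin_neg, abs_of_nonpos]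
          rw [← neg_nonneg, ← Real.sin_neg]
          apply Real.sin_nonneg_of_nonneg_of_le_pi
          · nlinarith [Real.pi_pos]
          · rw [abs_of_neg h] at h1
            nlinarith [Real.pi_pos]
      rw [h8]
      have h9 := Real.mul_le_sin (x := Real.pi * |ψ|) (by positivity) (by
        nlinarith [Real.pi_pos])
      refine le_trans (le_of_eq ?_) h9
      field_simp
    linarith
  have h5 : ‖∑ y ∈ range N, ee (ψ * y)‖ * (4 * |ψ|) ≤ 2 := by
    calc _ ≤ ‖∑ y ∈ range N, ee (ψ * y)‖ * ‖ee ψ - 1‖ :=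
          mul_le_mul_of_nonneg_left h4 (norm_nonneg _)
      _ = ‖ee ψ ^ N - 1‖ := by rw [← norm_mul, h2]
      _ ≤ 2 := h3
  rw [le_div_iff₀ (by positivity)]
  linarith

/-- the Riesz product -/
noncomputable def rp (lam : ℝ) (γ : ℕ → ℝ) (ω : ℕ → ℂ) (m : ℕ) (y : ℕ) : ℝ :=
  ∏ i ∈ range m, (1 + lam * (ω i * ee (γ i * y)).re)

lemma factor_eq (lam φ γ : ℝ) (ω : ℂ) (y : ℕ) (P : ℝ) :
    ee (φ * y) * ((P * (1 + lam * (ω * ee (γ * y)).re) : ℝ) : ℂ) =
      ee (φ * y) * (P : ℂ) + (lam / 2 : ℝ) * ω * (ee ((φ + γ) * y) * (P : ℂ)) +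
        (lam / 2 : ℝ) * (starRingEnd ℂ) ω * (ee ((φ - γ) * y) * (P : ℂ)) := by
  have h1 : (((ω * ee (γ * y)).re : ℝ) : ℂ) =
      (ω * ee (γ * y) + (starRingEnd ℂ) ω * ee (-(γ * y))) / 2 := by
    rw [Complex.re_eq_add_conj, map_mul, conj_ee]
  have h2 : ee ((φ + γ) * y) = ee (φ * y) * ee (γ * y) := by rw [← ee_add]; congr 1; ring
  have h3 : ee ((φ - γ) * y) = ee (φ * y) * ee (-(γ * y)) := by rw [← ee_add]; congr 1; ring
  rw [h2, h3]
  push_cast
  rw [h1]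
  ring

lemma twist (N : ℕ) (lam : ℝ) (hlam : 0 ≤ lam) (γ : ℕ → ℝ) (hγ : ∀ i, 0 ≤ γ i) (ω : ℕ → ℂ)
    (hω : ∀ i, ‖ω i‖ ≤ 1) (m : ℕ) : ∀ (φ G : ℝ),
    (∀ ψ : ℝ, |ψ - φ| ≤ ∑ i ∈ range m, γ i → ‖∑ y ∈ range N, ee (ψ * y)‖ ≤ G) →
    ‖∑ y ∈ range N, ee (φ * y) * ((rp lam γ ω m y : ℝ) : ℂ)‖ ≤ (1 + lam) ^ m * G := by
  induction m with
  | zero =>
    intro φ G hG
    have := hG φ (by simp)
    simpa [rp] using this
  | succ m ih =>
    intro φ G hG
    have hG0 : ∀ φ' : ℝ, |φ' - φ| ≤ γ m →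
        ∀ ψ : ℝ, |ψ - φ'| ≤ ∑ i ∈ range m, γ i → ‖∑ y ∈ range N, ee (ψ * y)‖ ≤ G := by
      intro φ' h1 ψ h2
      apply hG
      rw [Finset.sum_range_succ]
      calc |ψ - φ| = |(ψ - φ') + (φ' - φ)| := by congr 1; ring
        _ ≤ |ψ - φ'| + |φ' - φ| := abs_add_le _ _
        _ ≤ _ := add_le_add h2 h1
    have e1 := ih φ G (hG0 φ (by rw [sub_self, abs_zero]; exact hγ m))
    have e2 := ih (φ + γ m) G (hG0 (φ + γ m) (by
      rw [add_sub_cancel_left, abs_of_nonneg (hγ m)]))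
    have e3 := ih (φ - γ m) G (hG0 (φ - γ m) (by
      have : φ - γ m - φ = -γ m := by ring
      rw [this, abs_neg, abs_of_nonneg (hγ m)]))
    have hsum : ∑ y ∈ range N, ee (φ * y) * ((rp lam γ ω (m + 1) y : ℝ) : ℂ) =
        ∑ y ∈ range N, ee (φ * y) * ((rp lam γ ω m y : ℝ) : ℂ) +
        (lam / 2 : ℝ) * ω m * ∑ y ∈ range N, ee ((φ + γ m) * y) * ((rp lam γ ω m y : ℝ) : ℂ) +
        (lam / 2 : ℝ) * (starRingEnd ℂ) (ω m) *
          ∑ y ∈ range N, ee ((φ - γ m) * y) * ((rp lam γ ω m y : ℝ) : ℂ) := by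
      rw [Finset.mul_sum, Finset.mul_sum, ← Finset.sum_add_distrib, ← Finset.sum_add_distrib]
      apply Finset.sum_congr rfl
      intro y _
      have : rp lam γ ω (m + 1) y = rp lam γ ω m y * (1 + lam * (ω m * ee (γ m * y)).re) := by
        unfold rp
        rw [Finset.prod_range_succ]
      rw [this, factor_eq]
    rw [hsum]
    have hl : ‖((lam / 2 : ℝ) : ℂ)‖ = lam / 2 := by
      rw [Complex.norm_real, Real.norm_eq_abs, abs_of_nonneg (by positivity)]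
    have hG1 : 0 ≤ (1 + lam) ^ m * G := le_trans (norm_nonneg _) e1
    have n2 : ‖((lam / 2 : ℝ) : ℂ) * ω m *
        ∑ y ∈ range N, ee ((φ + γ m) * y) * ((rp lam γ ω m y : ℝ) : ℂ)‖ ≤
        lam / 2 * ((1 + lam) ^ m * G) := by
      rw [norm_mul, norm_mul, hl]
      calc lam / 2 * ‖ω m‖ * ‖∑ y ∈ range N, ee ((φ + γ m) * y) * ((rp lam γ ω m y : ℝ) : ℂ)‖ ≤
          lam / 2 * 1 * ((1 + lam) ^ m * G) := by
            apply mul_le_mul _ e2 (norm_nonneg _) (by positivity)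
            exact mul_le_mul_of_nonneg_left (hω m) (by positivity)
        _ = _ := by ring
    have n3 : ‖((lam / 2 : ℝ) : ℂ) * (starRingEnd ℂ) (ω m) *
        ∑ y ∈ range N, ee ((φ - γ m) * y) * ((rp lam γ ω m y : ℝ) : ℂ)‖ ≤
        lam / 2 * ((1 + lam) ^ m * G) := by
      rw [norm_mul, norm_mul, hl, RCLike.norm_conj]
      calc lam / 2 * ‖ω m‖ * ‖∑ y ∈ range N, ee ((φ - γ m) * y) * ((rp lam γ ω m y : ℝ) : ℂ)‖ ≤
          lam / 2 * 1 * ((1 + lam) ^ m * G) := by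
            apply mul_le_mul _ e3 (norm_nonneg _) (by positivity)
            exact mul_le_mul_of_nonneg_left (hω m) (by positivity)
        _ = _ := by ring
    refine le_trans (norm_add₃_le) ?_
    calc _ ≤ (1 + lam) ^ m * G + lam / 2 * ((1 + lam) ^ m * G) +
        lam / 2 * ((1 + lam) ^ m * G) := add_le_add (add_le_add e1 n2) n3
      _ = _ := by ring

lemma tail_sum (γ : ℕ → ℝ) (h4 : ∀ i, 4 * γ (i + 1) ≤ γ i) (m : ℕ) :
    3 * ∑ i ∈ range m, γ (i + 1) + γ m ≤ γ 0 := by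
  induction m with
  | zero => simp
  | succ m ih =>
    rw [Finset.sum_range_succ]
    have := h4 m
    linarith

/-- the mean value of the Riesz product -/
lemma riesz_sum (N : ℕ) (lam : ℝ) (hlam : 0 ≤ lam) (m : ℕ) :
    ∀ (γ : ℕ → ℝ) (ω : ℕ → ℂ), (∀ i, 0 < γ i) → (∀ i, 4 * γ (i + 1) ≤ γ i) → γ 0 ≤ 1 / 4 →
    (∀ i, ‖ω i‖ ≤ 1) →
    ∑ y ∈ range N, rp lam γ ω (m + 1) y ≤
      N + lam * (∑ l ∈ range (m + 1), ((1 + lam) / 4) ^ l) / γ m := by
  induction m with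
  | zero =>
    intro γ ω hpos h4 h0 hω
    have h1 : ∑ y ∈ range N, rp lam γ ω (0 + 1) y =
        N + lam * (ω 0 * ∑ y ∈ range N, ee (γ 0 * y)).re := by
      unfold rp
      simp only [zero_add, Finset.prod_range_one]
      rw [Finset.sum_add_distrib, Finset.sum_const, Finset.card_range, nsmul_eq_mul, mul_one,
        ← Finset.mul_sum, ← Complex.re_sum, ← Finset.mul_sum]
    rw [h1]
    have h2 : (ω 0 * ∑ y ∈ range N, ee (γ 0 * y)).re ≤ 1 / γ 0 := by
      refine le_trans (Complex.re_le_norm _) ?_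
      rw [norm_mul]
      have h3 := geo_sum N (γ 0) (hpos 0).ne' (by rw [abs_of_pos (hpos 0)]; linarith)
      rw [abs_of_pos (hpos 0)] at h3
      have h5 : 1 / (2 * γ 0) ≤ 1 / γ 0 := by
        apply one_div_le_one_div_of_le (hpos 0)
        linarith [hpos 0]
      calc ‖ω 0‖ * ‖∑ y ∈ range N, ee (γ 0 * y)‖ ≤ 1 * (1 / γ 0) :=
            mul_le_mul (hω 0) (h3.trans h5) (norm_nonneg _) (by norm_num)
        _ = _ := one_mul _
    have h3 := mul_le_mul_of_nonneg_left h2 hlam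
    simp only [zero_add, Finset.range_one, Finset.sum_singleton, pow_zero, mul_one]
    have h5 : lam * (1 / γ 0) = lam / γ 0 := by ring
    linarith
  | succ m ih =>
    intro γ ω hpos h4 h0 hω
    set γ' : ℕ → ℝ := fun i => γ (i + 1) with hγ'
    set ω' : ℕ → ℂ := fun i => ω (i + 1) with hω'
    have h1 : ∀ y, rp lam γ ω (m + 1 + 1) y =
        rp lam γ' ω' (m + 1) y + lam * (ω 0 * (ee (γ 0 * y) * ((rp lam γ' ω' (m + 1) y : ℝ) : ℂ))).re
        := by
      intro y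
      unfold rp
      rw [Finset.prod_range_succ' _ (m + 1), ← mul_assoc (ω 0), Complex.re_mul_ofReal]
      ring
    have h2 : ∑ y ∈ range N, rp lam γ ω (m + 1 + 1) y = ∑ y ∈ range N, rp lam γ' ω' (m + 1) y +
        lam * (ω 0 * ∑ y ∈ range N, ee (γ 0 * y) * ((rp lam γ' ω' (m + 1) y : ℝ) : ℂ)).re := by
      rw [Finset.sum_congr rfl (fun y _ => h1 y), Finset.sum_add_distrib, ← Finset.mul_sum,
        ← Complex.re_sum, ← Finset.mul_sum]
    rw [h2]
    have h3 := ih γ' ω' (fun i => hpos (i + 1)) (fun i => h4 (i + 1)) (by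
      have := h4 0
      have := hpos 1
      have := hpos 0
      simp only [hγ']
      linarith) (fun i => hω (i + 1))
    have h5 := twist N lam hlam γ' (fun i => (hpos (i + 1)).le) ω' (fun i => hω (i + 1)) (m + 1)
      (γ 0) (1 / γ 0) (by
      intro ψ hψ
      have h6 := tail_sum γ h4 (m + 1)
      have h7 : ∑ i ∈ range (m + 1), γ' i ≤ γ 0 / 3 := by
        have : ∑ i ∈ range (m + 1), γ' i = ∑ i ∈ range (m + 1), γ (i + 1) := rfl
        rw [this]
        have := hpos (m + 1)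
        linarith
      have h8 := abs_le.1 (hψ.trans h7)
      have h9 := hpos 0
      have h10 : 0 < ψ := by linarith [h8.1]
      have h11 := geo_sum N ψ h10.ne' (by rw [abs_of_pos h10]; linarith [h8.2])
      refine le_trans h11 ?_
      rw [abs_of_pos h10]
      apply one_div_le_one_div_of_le h9
      linarith [h8.1])
    have h6 : (ω 0 * ∑ y ∈ range N, ee (γ 0 * y) * ((rp lam γ' ω' (m + 1) y : ℝ) : ℂ)).re ≤
        (1 + lam) ^ (m + 1) * (1 / γ 0) := by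
      refine le_trans (Complex.re_le_norm _) ?_
      rw [norm_mul]
      calc ‖ω 0‖ * _ ≤ 1 * ((1 + lam) ^ (m + 1) * (1 / γ 0)) :=
            mul_le_mul (hω 0) h5 (norm_nonneg _) (by norm_num)
        _ = _ := one_mul _
    have h7 : ∀ k, 4 ^ k * γ k ≤ γ 0 := by
      intro k
      induction k with
      | zero => simp
      | succ k ihk =>
        have := h4 k
        calc 4 ^ (k + 1) * γ (k + 1) = 4 ^ k * (4 * γ (k + 1)) := by ring
          _ ≤ 4 ^ k * γ k := mul_le_mul_of_nonneg_left this (by positivity)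
          _ ≤ _ := ihk
    have h8 : (1 + lam) ^ (m + 1) * (1 / γ 0) ≤ ((1 + lam) / 4) ^ (m + 1) / γ (m + 1) := by
      rw [div_pow, mul_one_div, div_div]
      apply div_le_div_of_nonneg_left (by positivity) _ (h7 (m + 1))
      have := hpos (m + 1)
      positivity
    have h9 := mul_le_mul_of_nonneg_left (h6.trans h8) hlam
    have h10 : γ' m = γ (m + 1) := rfl
    rw [h10] at h3
    rw [Finset.sum_range_succ _ (m + 1)]
    have h11 : lam * (∑ l ∈ range (m + 1), ((1 + lam) / 4) ^ l + ((1 + lam) / 4) ^ (m + 1)) /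
        γ (m + 1) = lam * (∑ l ∈ range (m + 1), ((1 + lam) / 4) ^ l) / γ (m + 1) +
        lam * (((1 + lam) / 4) ^ (m + 1) / γ (m + 1)) := by ring
    rw [h11]
    linarith

lemma riesz_bound (N : ℕ) (lam : ℝ) (hlam : 0 ≤ lam) (hlam2 : lam ≤ 1 / 2) (m : ℕ)
    (γ : ℕ → ℝ) (ω : ℕ → ℂ) (hpos : ∀ i, 0 < γ i) (h4 : ∀ i, 4 * γ (i + 1) ≤ γ i)
    (h0 : γ 0 ≤ 1 / 4) (hω : ∀ i, ‖ω i‖ ≤ 1) :
    ∑ y ∈ range N, rp lam γ ω (m + 1) y ≤ N + 1 / γ m := by
  refine le_trans (riesz_sum N lam hlam m γ ω hpos h4 h0 hω) ?_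
  apply add_le_add (le_refl _)
  apply div_le_div_of_nonneg_right _ (hpos m).le
  have hx : (1 + lam) / 4 ≤ 3 / 8 := by linarith
  have hx0 : 0 ≤ (1 + lam) / 4 := by positivity
  have h1 : ∀ n, ∑ l ∈ range n, ((1 + lam) / 4) ^ l ≤ 2 := by
    intro n
    have h2 : ∑ l ∈ range n, ((1 + lam) / 4) ^ l ≤ ∑ l ∈ range n, (3 / 8 : ℝ) ^ l :=
      Finset.sum_le_sum (fun l _ => pow_le_pow_left₀ hx0 hx l)
    have h3 : (∑ l ∈ range n, (3 / 8 : ℝ) ^ l) * (3 / 8 - 1) = (3 / 8 : ℝ) ^ n - 1 :=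
      geom_sum_mul _ _
    have h4 : (0 : ℝ) ≤ (3 / 8 : ℝ) ^ n := by positivity
    linarith
  have h2 := h1 (m + 1)
  have h3 : 0 ≤ ∑ l ∈ range (m + 1), ((1 + lam) / 4) ^ l := by positivity
  nlinarith

end Pool.Agent.H78R2.ET
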