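import Mathlib
import Pool.Agent.H78R2.ET.Riesz
import Pool.Agent.H78R2.ET.Biased

set_option autoImplicit false

open Finset

namespace Pool.Agent.H78R2.ET

open Pool.Agent.H380R2

lemma exp_quad_le {w : ℝ} (hw : |w| ≤ 1 / 2) : Real.exp (w - 2 * w ^ 2) ≤ 1 + w := by
  have h1 := abs_le.1 hw
  have h2 : 0 < 1 + w := by linarith
  have h3 : w - 2 * w ^ 2 ≤ Real.log (1 + w) := by
    have h4 := Real.one_sub_inv_le_log_of_pos h2
    refine le_trans ?_ h4
    have h5 : 1 - (1 + w)⁻¹ = w / (1 + w) := by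
      field_simp
      ring
    rw [h5, le_div_iff₀ h2]
    nlinarith [sq_nonneg w, mul_nonneg (sq_nonneg w) (by linarith : (0 : ℝ) ≤ 1 + 2 * w)]
  calc Real.exp (w - 2 * w ^ 2) ≤ Real.exp (Real.log (1 + w)) := Real.exp_le_exp.2 h3
    _ = 1 + w := Real.exp_log h2

lemma abs_re_le {ω : ℂ} (hω : ‖ω‖ ≤ 1) (t : ℝ) : |(ω * ee t).re| ≤ 1 := by
  refine le_trans (Complex.abs_re_le_norm _) ?_
  rw [norm_mul, norm_ee, mul_one]
  exact hω

lemma rp_nonneg (lam : ℝ) (hlam : 0 ≤ lam) (hlam2 : lam ≤ 1 / 2) (γ : ℕ → ℝ) (ω : ℕ → ℂ)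
    (hω : ∀ i, ‖ω i‖ ≤ 1) (m y : ℕ) : 0 ≤ rp lam γ ω m y := by
  unfold rp
  apply Finset.prod_nonneg
  intro i _
  have h1 := abs_le.1 (abs_re_le (hω i) (γ i * y))
  nlinarith [h1.1]

lemma rp_ge (lam : ℝ) (hlam : 0 ≤ lam) (hlam2 : lam ≤ 1 / 2) (γ : ℕ → ℝ) (ω : ℕ → ℂ)
    (hω : ∀ i, ‖ω i‖ ≤ 1) (m y : ℕ) :
    Real.exp (lam * (∑ i ∈ range m, (ω i * ee (γ i * y)).re) - 2 * lam ^ 2 * m) ≤
      rp lam γ ω m y := by
  unfold rp
  have h1 : lam * (∑ i ∈ range m, (ω i * ee (γ i * y)).re) - 2 * lam ^ 2 * m =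
      ∑ i ∈ range m, (lam * (ω i * ee (γ i * y)).re - 2 * lam ^ 2) := by
    rw [Finset.sum_sub_distrib, ← Finset.mul_sum, Finset.sum_const, Finset.card_range,
      nsmul_eq_mul]
    ring
  rw [h1, Real.exp_sum]
  apply Finset.prod_le_prod
  · intro i _
    positivity
  · intro i _
    have h2 := abs_re_le (hω i) (γ i * y)
    have h3 : |lam * (ω i * ee (γ i * y)).re| ≤ 1 / 2 := by
      rw [abs_mul, abs_of_nonneg hlam]
      nlinarith [abs_nonneg ((ω i * ee (γ i * y)).re)]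
    refine le_trans (Real.exp_le_exp.2 ?_) (exp_quad_le h3)
    have h4 : (lam * (ω i * ee (γ i * y)).re) ^ 2 ≤ lam ^ 2 := by
      rw [mul_pow]
      have h5 : ((ω i * ee (γ i * y)).re) ^ 2 ≤ 1 := by
        rw [← sq_abs]
        exact pow_le_one₀ (abs_nonneg _) h2
      nlinarith [sq_nonneg lam]
    linarith

/-- the exponential sum over `h`-tuples -/
lemma sum_tup_ee (T : Finset ℕ) (h : ℕ) (β : ℝ) :
    ∑ v ∈ tup T h, ee (β * ((∑ i, v i : ℕ) : ℝ)) = S T β ^ h := by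
  have h1 : ∀ v : Fin h → ℕ, ee (β * ((∑ i, v i : ℕ) : ℝ)) = ∏ i, ee (β * (v i : ℝ)) := by
    intro v
    unfold ee
    rw [← Complex.exp_sum]
    congr 1
    push_cast
    rw [Finset.mul_sum, Finset.mul_sum]
  rw [Finset.sum_congr rfl (fun v _ => h1 v)]
  unfold tup S
  rw [← Finset.prod_univ_sum (fun _ : Fin h => T) (fun _ a => ee (β * (a : ℝ)))]
  rw [Finset.prod_const, Finset.card_univ, Fintype.card_fin]

/-- the phase which makes `z` real and nonnegative -/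
lemma exists_phase (z : ℂ) : ∃ ω : ℂ, ‖ω‖ ≤ 1 ∧ ω * z = (‖z‖ : ℂ) := by
  rcases eq_or_ne z 0 with rfl | hz
  · exact ⟨0, by simp, by simp⟩
  · refine ⟨(starRingEnd ℂ) z / ‖z‖, ?_, ?_⟩
    · rw [norm_div, RCLike.norm_conj, Complex.norm_real, Real.norm_eq_abs, abs_norm,
        div_self (norm_ne_zero_iff.2 hz)]
    · have h1 : (‖z‖ : ℂ) ≠ 0 := by
        exact_mod_cast norm_ne_zero_iff.2 hz
      rw [div_mul_eq_mul_div, div_eq_iff h1, mul_comm, Complex.mul_conj, Complex.normSq_eq_norm_sq]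
      push_cast
      ring

/-- **Key lemma**: many large exponential sums at lacunary frequencies force large
multiplicities. -/
theorem key (n K X : ℕ) (T : Finset ℕ) (hTX : ∀ a ∈ T, a ≤ X)
    (hK : ∀ m, ((tup T (n + 1)).filter (fun v => ∑ i, v i = m)).card ≤ K)
    (γ : ℕ → ℝ) (hpos : ∀ i, 0 < γ i) (h4 : ∀ i, 4 * γ (i + 1) ≤ γ i) (h0 : γ 0 ≤ 1 / 4)
    (m : ℕ) (hm : 1 / γ m ≤ X) (M b : ℝ) (hM : (m : ℝ) + 1 ≤ M) (hb : 0 ≤ b)
    (hS : b * M * T.card ≤ ∑ i ∈ range (m + 1), ‖S T (γ i)‖) :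
    (T.card : ℝ) ^ (n + 1) * Real.exp (b ^ (2 * (n + 1)) * M / 8) ≤
      K * (((n + 1 : ℕ) : ℝ) * X + 1 + X) := by
  classical
  set t : ℝ := (T.card : ℝ) with ht
  have ht0 : 0 ≤ t := by positivity
  have hM0 : 0 < M := by
    have : (0 : ℝ) ≤ m := by positivity
    linarith
  rcases ht0.eq_or_lt with htz | htpos
  · rw [← htz, zero_pow (by omega), zero_mul]
    positivity
  -- `b ≤ 1`
  have hb1 : b ≤ 1 := by
    have h1 : ∑ i ∈ range (m + 1), ‖S T (γ i)‖ ≤ ∑ _i ∈ range (m + 1), t :=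
      Finset.sum_le_sum (fun i _ => norm_S_le T _)
    rw [Finset.sum_const, Finset.card_range, nsmul_eq_mul] at h1
    push_cast at h1
    have h2 : b * M * t ≤ 1 * M * t := by nlinarith
    have h3 : b * M ≤ 1 * M := le_of_mul_le_mul_right h2 htpos
    exact le_of_mul_le_mul_right h3 hM0
  set a : ℝ := b ^ (n + 1) with ha
  have ha0 : 0 ≤ a := by positivity
  have ha1 : a ≤ 1 := pow_le_one₀ hb hb1
  set lam : ℝ := a / 4 with hlam
  have hlam0 : 0 ≤ lam := by positivity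
  have hlam2 : lam ≤ 1 / 2 := by linarith
  -- phases
  choose ω hω1 hω2 using fun i => exists_phase (S T (γ i) ^ (n + 1))
  -- average of `Z`
  have hZ : ∑ v ∈ tup T (n + 1), ∑ i ∈ range (m + 1),
      (ω i * ee (γ i * ((∑ j, v j : ℕ) : ℝ))).re = ∑ i ∈ range (m + 1), ‖S T (γ i)‖ ^ (n + 1) := by
    rw [Finset.sum_comm]
    apply Finset.sum_congr rfl
    intro i _
    rw [← Complex.re_sum, ← Finset.mul_sum, sum_tup_ee, hω2 i, Complex.ofReal_re, norm_pow]
  have hZ2 : a * M * t ^ (n + 1) ≤ ∑ i ∈ range (m + 1), ‖S T (γ i)‖ ^ (n + 1) := by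
    have h1 : (b * M * t) ^ (n + 1) ≤ M ^ n * ∑ i ∈ range (m + 1), ‖S T (γ i)‖ ^ (n + 1) := by
      calc (b * M * t) ^ (n + 1) ≤ (∑ i ∈ range (m + 1), ‖S T (γ i)‖) ^ (n + 1) :=
            pow_le_pow_left₀ (by positivity) hS _
        _ ≤ ((range (m + 1)).card : ℝ) ^ n * ∑ i ∈ range (m + 1), ‖S T (γ i)‖ ^ (n + 1) :=
            pow_sum_le_card_mul_sum_pow (fun i _ => norm_nonneg _) n
        _ ≤ _ := by
            rw [Finset.card_range]
            push_cast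
            gcongr
    have h2 : (b * M * t) ^ (n + 1) = M ^ n * (a * M * t ^ (n + 1)) := by
      rw [mul_pow, mul_pow, ← ha, pow_succ M n]
      ring
    rw [h2] at h1
    exact le_of_mul_le_mul_left h1 (by positivity)
  -- lower bound for the sum of the Riesz product
  set μ : ℝ := a ^ 2 * M / 8 with hμ
  have hlow : Real.exp μ * t ^ (n + 1) ≤
      ∑ v ∈ tup T (n + 1), rp lam γ ω (m + 1) (∑ j, v j) := by
    have h1 : ∀ v ∈ tup T (n + 1), Real.exp μ * (1 + ((lam * (∑ i ∈ range (m + 1),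
        (ω i * ee (γ i * ((∑ j, v j : ℕ) : ℝ))).re) - 2 * lam ^ 2 * ((m + 1 : ℕ) : ℝ)) - μ)) ≤
        rp lam γ ω (m + 1) (∑ j, v j) := by
      intro v _
      refine le_trans ?_ (rp_ge lam hlam0 hlam2 γ ω hω1 (m + 1) (∑ j, v j))
      set U : ℝ := lam * (∑ i ∈ range (m + 1),
        (ω i * ee (γ i * ((∑ j, v j : ℕ) : ℝ))).re) - 2 * lam ^ 2 * ((m + 1 : ℕ) : ℝ) with hU
      have h2 : Real.exp U = Real.exp μ * Real.exp (U - μ) := by
        rw [← Real.exp_add]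
        congr 1
        ring
      rw [h2]
      apply mul_le_mul_of_nonneg_left _ (Real.exp_pos μ).le
      have := Real.add_one_le_exp (U - μ)
      linarith
    refine le_trans ?_ (Finset.sum_le_sum h1)
    rw [← Finset.mul_sum]
    apply mul_le_mul_of_nonneg_left _ (Real.exp_pos μ).le
    have h2 : ((tup T (n + 1)).card : ℝ) = t ^ (n + 1) := by
      rw [card_tup]
      push_cast
      rfl
    have h3 : ∑ v ∈ tup T (n + 1), (1 + ((lam * (∑ i ∈ range (m + 1),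
        (ω i * ee (γ i * ((∑ j, v j : ℕ) : ℝ))).re) - 2 * lam ^ 2 * ((m + 1 : ℕ) : ℝ)) - μ)) =
        t ^ (n + 1) + (lam * (∑ i ∈ range (m + 1), ‖S T (γ i)‖ ^ (n + 1)) -
          (2 * lam ^ 2 * ((m + 1 : ℕ) : ℝ) + μ) * t ^ (n + 1)) := by
      rw [← hZ, ← h2, Finset.mul_sum]
      have h4 : ∀ v ∈ tup T (n + 1), (1 + ((lam * (∑ i ∈ range (m + 1),
        (ω i * ee (γ i * ((∑ j, v j : ℕ) : ℝ))).re) - 2 * lam ^ 2 * ((m + 1 : ℕ) : ℝ)) - μ)) =
        lam * (∑ i ∈ range (m + 1), (ω i * ee (γ i * ((∑ j, v j : ℕ) : ℝ))).re) +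
          (1 - (2 * lam ^ 2 * ((m + 1 : ℕ) : ℝ) + μ)) := by
        intro v _
        ring
      rw [Finset.sum_congr rfl h4, Finset.sum_add_distrib, Finset.sum_const, nsmul_eq_mul]
      ring
    rw [h3]
    have h5 : 0 ≤ t ^ (n + 1) := by positivity
    have h6 : lam * (a * M * t ^ (n + 1)) ≤ lam * ∑ i ∈ range (m + 1), ‖S T (γ i)‖ ^ (n + 1) :=
      mul_le_mul_of_nonneg_left hZ2 hlam0
    have h7 : (2 * lam ^ 2 * ((m + 1 : ℕ) : ℝ) + μ) * t ^ (n + 1) ≤
        lam * (a * M * t ^ (n + 1)) := by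
      have h8 : 2 * lam ^ 2 * ((m + 1 : ℕ) : ℝ) + μ ≤ lam * (a * M) := by
        have h9 : 2 * lam ^ 2 * ((m + 1 : ℕ) : ℝ) ≤ 2 * lam ^ 2 * M := by
          apply mul_le_mul_of_nonneg_left _ (by positivity)
          push_cast
          exact hM
        have h10 : 2 * lam ^ 2 * M + μ = lam * (a * M) := by
          rw [hμ, hlam]
          ring
        linarith
      calc _ ≤ (lam * (a * M)) * t ^ (n + 1) := mul_le_mul_of_nonneg_right h8 h5
        _ = _ := by ring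
    linarith
  -- upper bound
  have hup : ∑ v ∈ tup T (n + 1), rp lam γ ω (m + 1) (∑ j, v j) ≤
      K * (((n + 1 : ℕ) : ℝ) * X + 1 + X) := by
    have hmaps : ∀ v ∈ tup T (n + 1), ∑ j, v j ∈ range ((n + 1) * X + 1) := by
      intro v hv
      rw [tup, Fintype.mem_piFinset] at hv
      rw [Finset.mem_range, Nat.lt_succ_iff]
      calc ∑ j, v j ≤ ∑ _j : Fin (n + 1), X := Finset.sum_le_sum (fun j _ => hTX _ (hv j))
        _ = (n + 1) * X := by
          rw [Finset.sum_const, Finset.card_univ, Fintype.card_fin, smul_eq_mul]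
    rw [← Finset.sum_fiberwise_of_maps_to hmaps]
    have h1 : ∀ y ∈ range ((n + 1) * X + 1),
        ∑ v ∈ (tup T (n + 1)).filter (fun v => ∑ j, v j = y), rp lam γ ω (m + 1) (∑ j, v j) ≤
        K * rp lam γ ω (m + 1) y := by
      intro y _
      have h2 : ∑ v ∈ (tup T (n + 1)).filter (fun v => ∑ j, v j = y),
          rp lam γ ω (m + 1) (∑ j, v j) =
          ∑ _v ∈ (tup T (n + 1)).filter (fun v => ∑ j, v j = y), rp lam γ ω (m + 1) y := by
        apply Finset.sum_congr rfl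
        intro v hv
        rw [Finset.mem_filter] at hv
        rw [hv.2]
      rw [h2, Finset.sum_const, nsmul_eq_mul]
      apply mul_le_mul_of_nonneg_right _ (rp_nonneg lam hlam0 hlam2 γ ω hω1 _ _)
      exact_mod_cast hK y
    refine le_trans (Finset.sum_le_sum h1) ?_
    rw [← Finset.mul_sum]
    apply mul_le_mul_of_nonneg_left _ (by positivity)
    have h3 := riesz_bound ((n + 1) * X + 1) lam hlam0 hlam2 m γ ω hpos h4 h0 hω1
    push_cast at h3 ⊢
    linarith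
  have hfin := hlow.trans hup
  have h8 : b ^ (2 * (n + 1)) * M / 8 = μ := by
    rw [hμ, ha, ← pow_mul, mul_comm (n + 1) 2]
  rw [h8]
  linarith

/-- an excess over an interval produces a large exponential sum -/
lemma large_coeff (ε α β : ℝ) (hε : 0 < ε) (hαβ : α ≤ β) :
    ∃ (κ : ℝ) (H : ℕ), 0 < κ ∧ ∀ (Θ : Finset ℝ) (T : Finset ℕ), 0 < Θ.card → 0 < T.card →
      (β - α + ε) * Θ.card * T.card ≤ ∑ a ∈ T, (cnt Θ (fun θ => a * θ) α β : ℝ) →
      ∃ n : ℕ, 1 ≤ n ∧ n ≤ H ∧ κ * Θ.card * T.card ≤ ∑ θ ∈ Θ, ‖S T (n * θ)‖ := by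
  classical
  obtain ⟨c, hc1, hc2⟩ := exists_majorant α β (ε / 4) hαβ (by positivity)
  set L : ℝ := ∑ n ∈ c.support, ‖c n‖ with hL
  have hL0 : 0 ≤ L := by positivity
  set H : ℕ := c.support.sup Int.natAbs with hH
  set κ : ℝ := ε / 2 / (L + 1) with hκ
  have hκ0 : 0 < κ := by positivity
  refine ⟨κ, H, hκ0, ?_⟩
  intro Θ T hΘ hT hdev
  set t : ℝ := (T.card : ℝ) with ht
  have htpos : 0 < t := by rw [ht]; exact_mod_cast hT
  have hΘr : (0 : ℝ) < Θ.card := by exact_mod_cast hΘ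
  by_contra hcon
  push Not at hcon
  -- lower bound
  have hlow : (β - α + ε) * Θ.card * t ≤ ∑ a ∈ T, ∑ θ ∈ Θ,
      (c.sum (fun n z => z * ee (n * ((a : ℝ) * θ)))).re := by
    refine le_trans hdev ?_
    apply Finset.sum_le_sum
    intro a ha
    unfold cnt
    rw [Finset.card_filter]
    push_cast
    apply Finset.sum_le_sum
    intro d _
    exact hc1 ((a : ℝ) * d)
  -- exchange
  have hex : ∑ a ∈ T, ∑ θ ∈ Θ, (c.sum (fun n z => z * ee (n * ((a : ℝ) * θ)))).re =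
      ∑ n ∈ c.support, (c n * ∑ θ ∈ Θ, S T ((n : ℝ) * θ)).re := by
    rw [← Complex.re_sum]
    simp_rw [← Complex.re_sum]
    congr 1
    unfold Finsupp.sum S
    have h1 : ∀ a ∈ T, ∑ θ ∈ Θ, ∑ n ∈ c.support, c n * ee (n * ((a : ℝ) * θ)) =
        ∑ n ∈ c.support, ∑ θ ∈ Θ, c n * ee (n * ((a : ℝ) * θ)) := fun a _ => Finset.sum_comm
    rw [Finset.sum_congr rfl h1, Finset.sum_comm]
    apply Finset.sum_congr rfl
    intro n _
    rw [Finset.mul_sum, Finset.sum_comm]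
    apply Finset.sum_congr rfl
    intro d _
    rw [Finset.mul_sum]
    apply Finset.sum_congr rfl
    intro a _
    congr 2
    ring
  have hDt : 0 ≤ Θ.card * t := by positivity
  have hnorm : ∀ θ : ℝ, ‖S T (-θ)‖ = ‖S T θ‖ := by
    intro θ
    have : S T (-θ) = (starRingEnd ℂ) (S T θ) := by
      unfold S
      rw [map_sum]
      apply Finset.sum_congr rfl
      intro a _
      rw [conj_ee]
      congr 1
      ring
    rw [this, RCLike.norm_conj]
  have hmean : ∀ n : ℤ, n ≠ 0 → n.natAbs ≤ H →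
      ∑ θ ∈ Θ, ‖S T ((n : ℝ) * θ)‖ ≤ κ * Θ.card * t := by
    intro n hn hnH
    have h1 := hcon n.natAbs (by omega) hnH
    refine le_trans (le_of_eq ?_) h1.le
    apply Finset.sum_congr rfl
    intro θ _
    rcases le_or_gt 0 n with h | h
    · have h2 : ((n.natAbs : ℕ) : ℝ) = (n : ℝ) := by
        have : ((n.natAbs : ℕ) : ℤ) = n := by omega
        calc ((n.natAbs : ℕ) : ℝ) = (((n.natAbs : ℕ) : ℤ) : ℝ) := (Int.cast_natCast _).symm
          _ = (n : ℝ) := by rw [this]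
      rw [h2]
    · have h2 : ((n.natAbs : ℕ) : ℝ) = -(n : ℝ) := by
        have : ((n.natAbs : ℕ) : ℤ) = -n := by omega
        calc ((n.natAbs : ℕ) : ℝ) = (((n.natAbs : ℕ) : ℤ) : ℝ) := (Int.cast_natCast _).symm
          _ = -(n : ℝ) := by rw [this]; push_cast; ring
      rw [h2, neg_mul, hnorm]
  -- upper bound for each term
  have hterm : ∀ n ∈ c.support, (c n * ∑ θ ∈ Θ, S T ((n : ℝ) * θ)).re ≤
      (if n = 0 then (c 0).re * (Θ.card * t) else 0) + ‖c n‖ * (κ * Θ.card * t) := by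
    intro n hn
    split_ifs with h0
    · subst h0
      have h1 : ∑ θ ∈ Θ, S T (((0 : ℤ) : ℝ) * θ) = ((Θ.card * t : ℝ) : ℂ) := by
        have h2 : ∀ θ ∈ Θ, S T (((0 : ℤ) : ℝ) * θ) = ((t : ℝ) : ℂ) := by
          intro d _
          unfold S ee
          simp [ht]
        rw [Finset.sum_congr rfl h2, Finset.sum_const, nsmul_eq_mul]
        push_cast
        ring
      rw [h1, Complex.re_mul_ofReal]
      have : 0 ≤ ‖c 0‖ * (κ * Θ.card * t) := by positivity
      linarith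
    · rw [zero_add]
      refine le_trans (Complex.re_le_norm _) ?_
      rw [norm_mul]
      apply mul_le_mul_of_nonneg_left _ (norm_nonneg _)
      refine le_trans (norm_sum_le _ _) ?_
      exact hmean n h0 (Finset.le_sup (f := Int.natAbs) hn)
  have hup : ∑ n ∈ c.support, (c n * ∑ θ ∈ Θ, S T ((n : ℝ) * θ)).re ≤
      (β - α + ε / 4) * (Θ.card * t) + L * (κ * Θ.card * t) := by
    refine le_trans (Finset.sum_le_sum hterm) ?_
    rw [Finset.sum_add_distrib, ← Finset.sum_mul, ← hL]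
    apply add_le_add_left
    have hba : 0 ≤ (β - α + ε / 4) * (Θ.card * t) := by
      have : 0 ≤ β - α := by linarith
      positivity
    rw [Finset.sum_ite_eq']
    split_ifs with h0
    · exact mul_le_mul_of_nonneg_right hc2 hDt
    · exact hba
  rw [hex] at hlow
  have hfin : L * κ ≤ ε / 2 := by
    rw [hκ, ← mul_div_assoc, div_le_iff₀ (by positivity)]
    nlinarith
  have hDtp : 0 < Θ.card * t := by positivity
  have h1 : L * (κ * Θ.card * t) ≤ ε / 2 * (Θ.card * t) := by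
    calc L * (κ * Θ.card * t) = (L * κ) * (Θ.card * t) := by ring
      _ ≤ _ := mul_le_mul_of_nonneg_right hfin hDt
  nlinarith

end Pool.Agent.H78R2.ET
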