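import Mathlib
import Pool.Agent.H78R2.ET.Examples

set_option autoImplicit false

open Finset Filter Topology

namespace Pool.Agent.H78R2.ET

open Pool.Agent.H380R2

lemma tup2_le (T : Finset ℕ) (m : ℕ) : ((tup T 2).filter (fun v => ∑ i, v i = m)).card ≤
    ((T ×ˢ T).filter (fun p => p.1 + p.2 = m)).card := by
  classical
  apply Finset.card_le_card_of_injOn (fun v => (v 0, v 1))
  · intro v hv
    rw [Finset.mem_coe, Finset.mem_filter, tup, Fintype.mem_piFinset] at hv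
    rw [Finset.mem_coe, Finset.mem_filter, Finset.mem_product]
    refine ⟨⟨hv.1 0, hv.1 1⟩, ?_⟩
    rw [← hv.2, Fin.sum_univ_two]
  · intro v _ w _ hvw
    simp only [Prod.mk.injEq] at hvw
    funext i
    fin_cases i
    · exact hvw.1
    · exact hvw.2

/-- the sums of `h` elements of a subset of `[0, x]` are at most `h x` -/
lemma filter_empty (T : Finset ℕ) (h x m : ℕ) (hT : ∀ a ∈ T, a ≤ x) (hm : h * x < m) :
    ((tup T h).filter (fun v => ∑ i, v i = m)).card = 0 := by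
  rw [Finset.card_eq_zero, Finset.filter_eq_empty_iff]
  intro v hv hs
  rw [tup, Fintype.mem_piFinset] at hv
  have : ∑ i, v i ≤ ∑ _i : Fin h, x := Finset.sum_le_sum (fun i _ => hT _ (hv i))
  rw [Finset.sum_const, Finset.card_univ, Fintype.card_fin, smul_eq_mul] at this
  omega

/-- a maximum of the representation function on `[0, h x]` controls the multiplicities -/
lemma exists_mult (A : Set ℕ) (h x : ℕ) : ∃ n, n ≤ h * x ∧ ∀ T : Finset ℕ,
    (∀ a ∈ T, a ∈ A ∧ a ≤ x) →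
    ∀ m, ((tup T h).filter (fun v => ∑ i, v i = m)).card ≤ h ^ h * (msets A h n).ncard := by
  obtain ⟨n, hn, hmax⟩ := Finset.exists_max_image (range (h * x + 1))
    (fun n => (msets A h n).ncard) ⟨0, by simp⟩
  rw [Finset.mem_range] at hn
  refine ⟨n, by omega, ?_⟩
  intro T hT m
  rcases Nat.lt_or_ge (h * x) m with h1 | h1
  · rw [filter_empty T h x m (fun a ha => (hT a ha).2) h1]
    exact Nat.zero_le _
  · refine le_trans (ordered_le A h m T (fun a ha => (hT a ha).1)) ?_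
    apply Nat.mul_le_mul_left
    exact hmax m (by rw [Finset.mem_range]; omega)

lemma exists_mult_two (A : Set ℕ) (x : ℕ) : ∃ n, n ≤ 2 * x ∧ ∀ T : Finset ℕ,
    (∀ a ∈ T, a ∈ A ∧ a ≤ x) →
    ∀ m, ((tup T 2).filter (fun v => ∑ i, v i = m)).card ≤ rep A n := by
  obtain ⟨n, hn, hmax⟩ := Finset.exists_max_image (range (2 * x + 1))
    (fun n => rep A n) ⟨0, by simp⟩
  rw [Finset.mem_range] at hn
  refine ⟨n, by omega, ?_⟩
  intro T hT m
  rcases Nat.lt_or_ge (2 * x) m with h1 | h1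
  · rw [filter_empty T 2 x m (fun a ha => (hT a ha).2) h1]
    exact Nat.zero_le _
  · refine le_trans (tup2_le T m) (le_trans ?_ (le_trans (trunc_rep A x m) ?_))
    · apply Finset.card_le_card
      intro p hp
      rw [Finset.mem_filter, Finset.mem_product] at hp ⊢
      have g1 := hT _ hp.1.1
      have g2 := hT _ hp.1.2
      exact ⟨⟨(mem_trunc A x _).2 ⟨g1.2, g1.1⟩, (mem_trunc A x _).2 ⟨g2.2, g2.1⟩⟩, hp.2⟩
    · exact hmax m (by rw [Finset.mem_range]; omega)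

/-- quantitative form for sets of integers, order `h` -/
theorem irregular_sets (h : ℕ) (hh : 1 ≤ h) (u : ℕ → ℝ) (q : ℝ) (hu0 : 0 < u 0) (hq : 1 < q)
    (hu : ∀ j, q * u j ≤ u (j + 1)) (ε : ℝ) (hε : 0 < ε) :
    ∃ C : ℝ, 0 < C ∧ ∀ᶠ x : ℕ in atTop, ∀ A : Set ℕ, ∃ n, n ≤ h * x ∧
      (numLE u x : ℝ) * ((A ∩ Irregular u ε ∩ Set.Iic x).ncard : ℝ) ^ h ≤
        C * x * (msets A h n).ncard := by
  obtain ⟨C, hC, hev⟩ := irregular_quant h hh u q hu0 hq hu ε hε
  have hh0 : (0 : ℝ) < h := by exact_mod_cast hh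
  refine ⟨C * h ^ h, by positivity, ?_⟩
  filter_upwards [hev] with x hx A
  obtain ⟨n, hn, hmult⟩ := exists_mult A h x
  refine ⟨n, hn, ?_⟩
  rw [ncard_trunc]
  have h1 := hx (h ^ h * (msets A h n).ncard) (trunc (A ∩ Irregular u ε) x) (by
    intro a ha
    rw [mem_trunc] at ha
    exact ⟨ha.2.2, ha.1⟩) (hmult _ (by
    intro a ha
    rw [mem_trunc] at ha
    exact ⟨ha.2.1, ha.1⟩))
  refine le_trans h1 (le_of_eq ?_)
  push_cast
  ring

/-- quantitative form for sets of integers, ordered pairs -/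
theorem irregular_sets_two (u : ℕ → ℝ) (q : ℝ) (hu0 : 0 < u 0) (hq : 1 < q)
    (hu : ∀ j, q * u j ≤ u (j + 1)) (ε : ℝ) (hε : 0 < ε) :
    ∃ C : ℝ, 0 < C ∧ ∀ᶠ x : ℕ in atTop, ∀ A : Set ℕ, ∃ n, n ≤ 2 * x ∧
      (numLE u x : ℝ) * ((A ∩ Irregular u ε ∩ Set.Iic x).ncard : ℝ) ^ 2 ≤
        C * x * (rep A n : ℝ) := by
  obtain ⟨C, hC, hev⟩ := irregular_quant 2 (by norm_num) u q hu0 hq hu ε hε
  refine ⟨C, by positivity, ?_⟩
  filter_upwards [hev] with x hx A
  obtain ⟨n, hn, hmult⟩ := exists_mult_two A x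
  refine ⟨n, hn, ?_⟩
  rw [ncard_trunc]
  have h1 := hx (rep A n) (trunc (A ∩ Irregular u ε) x) (by
    intro a ha
    rw [mem_trunc] at ha
    exact ⟨ha.2.2, ha.1⟩) (hmult _ (by
    intro a ha
    rw [mem_trunc] at ha
    exact ⟨ha.2.1, ha.1⟩))
  refine le_trans h1 (le_of_eq ?_)
  ring

/-- moduli, order `h` -/
theorem moduli_sets (h : ℕ) (hh : 1 ≤ h) (ε : ℝ) (hε : 0 < ε) :
    ∃ C : ℝ, 0 < C ∧ ∀ (A : Set ℕ) (x : ℕ), 0 < x → ∃ n, n ≤ h * x ∧ ∀ D : Finset ℕ,
      (∀ d ∈ D, 0 < d) → (∀ d ∈ D, ∀ d' ∈ D, d ≠ d' → Nat.lcm d d' ≤ x) →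
      (∀ d ∈ D, Uneven ε (trunc A x) (fun a => (a : ℝ) / (d : ℝ))) →
      (D.card : ℝ) * ((A ∩ Set.Iic x).ncard : ℝ) ^ h ≤ C * x * (msets A h n).ncard := by
  obtain ⟨C, hC, hev⟩ := moduli_bound h hh ε hε
  have hh0 : (0 : ℝ) < h := by exact_mod_cast hh
  refine ⟨C * h ^ h, by positivity, ?_⟩
  intro A x hx
  obtain ⟨n, hn, hmult⟩ := exists_mult A h x
  refine ⟨n, hn, ?_⟩
  intro D hD0 hD hdev
  rw [ncard_trunc]
  have h1 := hev x (h ^ h * (msets A h n).ncard) D (trunc A x) hx hD0 hD (by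
    intro a ha
    rw [mem_trunc] at ha
    exact ha.1) (hmult _ (by
    intro a ha
    rw [mem_trunc] at ha
    exact ⟨ha.2, ha.1⟩)) hdev
  refine le_trans h1 (le_of_eq ?_)
  push_cast
  ring

/-- moduli, ordered pairs -/
theorem moduli_sets_two (ε : ℝ) (hε : 0 < ε) :
    ∃ C : ℝ, 0 < C ∧ ∀ (A : Set ℕ) (x : ℕ), 0 < x → ∃ n, n ≤ 2 * x ∧ ∀ D : Finset ℕ,
      (∀ d ∈ D, 0 < d) → (∀ d ∈ D, ∀ d' ∈ D, d ≠ d' → Nat.lcm d d' ≤ x) →
      (∀ d ∈ D, Uneven ε (trunc A x) (fun a => (a : ℝ) / (d : ℝ))) →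
      (D.card : ℝ) * ((A ∩ Set.Iic x).ncard : ℝ) ^ 2 ≤ C * x * (rep A n : ℝ) := by
  obtain ⟨C, hC, hev⟩ := moduli_bound 2 (by norm_num) ε hε
  refine ⟨C, by positivity, ?_⟩
  intro A x hx
  obtain ⟨n, hn, hmult⟩ := exists_mult_two A x
  refine ⟨n, hn, ?_⟩
  intro D hD0 hD hdev
  rw [ncard_trunc]
  have h1 := hev x (rep A n) D (trunc A x) hx hD0 hD (by
    intro a ha
    rw [mem_trunc] at ha
    exact ha.1) (hmult _ (by
    intro a ha
    rw [mem_trunc] at ha
    exact ⟨ha.2, ha.1⟩)) hdev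
  refine le_trans h1 (le_of_eq ?_)
  ring

/-- asymptotic bases have many elements -/
lemma basis_count (A : Set ℕ) (h n₀ : ℕ) (hn₀ : ∀ n, n₀ ≤ n → msets A h n ≠ ∅) (x : ℕ)
    (hx : n₀ ≤ x) : (x : ℝ) + 1 - n₀ ≤ ((trunc A x).card : ℝ) ^ h := by
  classical
  have h3 : (Finset.Icc n₀ x) ⊆ (tup (trunc A x) h).image (fun v => ∑ i, v i) := by
    intro v hv
    rw [Finset.mem_Icc] at hv
    have h4 := hn₀ v hv.1
    obtain ⟨s, hs⟩ := Set.nonempty_iff_ne_empty.2 h4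
    obtain ⟨l, rfl⟩ : ∃ l : List ℕ, (l : Multiset ℕ) = s := ⟨s.toList, Multiset.coe_toList s⟩
    obtain ⟨g1, g2, g3⟩ := hs
    have hl : l.length = h := by simpa using g1
    subst hl
    rw [Finset.mem_image]
    refine ⟨fun i => l.get i, ?_, ?_⟩
    · rw [tup, Fintype.mem_piFinset]
      intro i
      rw [mem_trunc]
      refine ⟨?_, g2 _ (Multiset.mem_coe.2 (List.get_mem l i))⟩
      have : l.get i ≤ v := by
        rw [← g3]
        exact Multiset.le_sum_of_mem (Multiset.mem_coe.2 (List.get_mem l i))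
      omega
    · rw [← g3, Multiset.sum_coe]
      rw [← List.sum_ofFn]
      congr 1
      exact List.ofFn_get l
  have h4 := le_trans (Finset.card_le_card h3) Finset.card_image_le
  rw [Nat.card_Icc, card_tup] at h4
  have h5 : ((x + 1 - n₀ : ℕ) : ℝ) ≤ ((trunc A x).card : ℝ) ^ h := by
    exact_mod_cast h4
  rw [Nat.cast_sub (by omega)] at h5
  push_cast at h5
  exact h5

/-- if an asymptotic basis has at most `x ^ (1 / h) / 2` elements outside `S` up to `x`, then it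
has at least `x ^ (1 / h) / 8` elements in `S` -/
lemma basis_part (A S : Set ℕ) (h : ℕ) (hh : 1 ≤ h) (hA : ∀ᶠ n in atTop, msets A h n ≠ ∅)
    (hE : ∀ᶠ x : ℕ in atTop, (2 * (((A \ S) ∩ Set.Iic x).ncard : ℝ)) ^ h ≤ x) :
    ∀ᶠ x : ℕ in atTop, (x : ℝ) ≤ 8 ^ h * ((A ∩ S ∩ Set.Iic x).ncard : ℝ) ^ h := by
  obtain ⟨n₀, hn₀⟩ := eventually_atTop.1 hA
  filter_upwards [hE, eventually_ge_atTop (3 * n₀ + 1)] with x hx hx2
  have hx0 : (0 : ℝ) ≤ x := by positivity
  set y : ℝ := (x : ℝ) ^ ((h : ℝ)⁻¹) with hy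
  have hy0 : 0 ≤ y := by positivity
  have hyh : y ^ h = x := Real.rpow_inv_natCast_pow hx0 (by omega)
  have h1 := basis_count A h n₀ (fun n hn => hn₀ n hn) x (by omega)
  rw [← ncard_trunc] at h1
  set t : ℝ := ((A ∩ S ∩ Set.Iic x).ncard : ℝ) with ht
  set e : ℝ := (((A \ S) ∩ Set.Iic x).ncard : ℝ) with he
  have ht0 : 0 ≤ t := by positivity
  have he0 : 0 ≤ e := by positivity
  have hsplit : ((A ∩ Set.Iic x).ncard : ℝ) ≤ t + e := by
    have : A ∩ Set.Iic x ⊆ (A ∩ S ∩ Set.Iic x) ∪ ((A \ S) ∩ Set.Iic x) := by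
      intro a ha
      by_cases haS : a ∈ S
      · exact Or.inl ⟨⟨ha.1, haS⟩, ha.2⟩
      · exact Or.inr ⟨⟨ha.1, haS⟩, ha.2⟩
    have hfin : ((A ∩ S ∩ Set.Iic x) ∪ ((A \ S) ∩ Set.Iic x)).Finite :=
      Set.Finite.union ((Set.finite_Iic x).inter_of_right _) ((Set.finite_Iic x).inter_of_right _)
    have h2 := le_trans (Set.ncard_le_ncard this hfin) (Set.ncard_union_le _ _)
    rw [ht, he]
    exact_mod_cast h2
  have h2 : 2 * e ≤ y := by
    rw [← hyh] at hx
    exact (pow_le_pow_iff_left₀ (by positivity) hy0 (by omega)).1 hx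
  by_contra hcon
  push Not at hcon
  have h3 : 8 * t < y := by
    rw [← mul_pow, ← hyh] at hcon
    exact (pow_lt_pow_iff_left₀ (by positivity) hy0 (by omega)).1 hcon
  have h4 : ((A ∩ Set.Iic x).ncard : ℝ) ≤ 5 / 8 * y := by linarith
  have h5 : ((A ∩ Set.Iic x).ncard : ℝ) ^ h ≤ 5 / 8 * x := by
    calc ((A ∩ Set.Iic x).ncard : ℝ) ^ h ≤ (5 / 8 * y) ^ h := by gcongr
      _ = (5 / 8) ^ h * x := by rw [mul_pow, hyh]
      _ ≤ (5 / 8) ^ 1 * x := by
          apply mul_le_mul_of_nonneg_right _ hx0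
          exact pow_le_pow_of_le_one (by norm_num) (by norm_num) hh
      _ = _ := by ring
  have h6 : (3 : ℝ) * n₀ + 1 ≤ x := by exact_mod_cast hx2
  linarith

/-- the number of powers `g ^ (j + s)` up to `x` -/
lemma numLE_log (g s : ℕ) (hg : 2 ≤ g) : ∃ c : ℝ, 0 < c ∧ ∀ᶠ x : ℕ in atTop,
    c * Real.log x ≤ (numLE (fun j => (g : ℝ) ^ (id j + s)) x : ℝ) := by
  have hgr : (2 : ℝ) ≤ g := by exact_mod_cast hg
  have hlg : 0 < Real.log g := Real.log_pos (by linarith)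
  refine ⟨1 / (2 * Real.log g), by positivity, ?_⟩
  have hlog : ∀ᶠ x : ℕ in atTop, 2 * Real.log g * (s + 1) ≤ Real.log x :=
    (Real.tendsto_log_atTop.comp tendsto_natCast_atTop_atTop).eventually_ge_atTop _
  filter_upwards [hlog, eventually_gt_atTop 0] with x hx hx0
  set L := Nat.log g x with hL
  have h1 : g ^ L ≤ x := Nat.pow_log_le_self g (by omega)
  have h2 : x < g ^ (L + 1) := Nat.lt_pow_succ_log_self (by omega) x
  have h3 : Real.log x ≤ (L + 1) * Real.log g := by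
    have hx1 : (0 : ℝ) < x := by exact_mod_cast hx0
    have h4 : (x : ℝ) ≤ (g : ℝ) ^ (L + 1) := by exact_mod_cast h2.le
    have h5 := Real.log_le_log hx1 h4
    rw [Real.log_pow] at h5
    push_cast at h5
    exact h5
  have hfin : {j : ℕ | (g : ℝ) ^ (id j + s) ≤ x}.Finite := by
    apply Set.Finite.subset (Set.finite_Iic L)
    intro j hj
    rw [Set.mem_ofPred_eq] at hj
    have h5 : g ^ (j + s) ≤ x := by exact_mod_cast hj
    have h6 : g ^ (j + s) < g ^ (L + 1) := lt_of_le_of_lt h5 h2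
    have h7 := (Nat.pow_lt_pow_iff_right (by omega)).1 h6
    rw [Set.mem_Iic]
    omega
  have h4 : L + 1 - s ≤ numLE (fun j => (g : ℝ) ^ (id j + s)) x := by
    unfold numLE
    have hsub : ((Finset.range (L + 1 - s) : Finset ℕ) : Set ℕ) ⊆
        {j : ℕ | (g : ℝ) ^ (id j + s) ≤ x} := by
      intro j hj
      rw [Finset.coe_range, Set.mem_Iio] at hj
      rw [Set.mem_ofPred_eq]
      have h5 : g ^ (j + s) ≤ x := le_trans (Nat.pow_le_pow_right (by omega) (by omega)) h1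
      exact_mod_cast h5
    have := Set.ncard_le_ncard hsub hfin
    rwa [Set.ncard_coe_finset, Finset.card_range] at this
  have h5 : ((L : ℝ) + 1) - s ≤ (numLE (fun j => (g : ℝ) ^ (id j + s)) x : ℝ) := by
    have h6 : ((L + 1 : ℕ) : ℝ) ≤ ((s + numLE (fun j => (g : ℝ) ^ (id j + s)) x : ℕ) : ℝ) := by
      exact_mod_cast (by omega : L + 1 ≤ s + numLE (fun j => (g : ℝ) ^ (id j + s)) x)
    push_cast at h6
    linarith
  have h6 : Real.log x / Real.log g ≤ L + 1 := by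
    rw [div_le_iff₀ hlg]
    exact h3
  have h7 : (s : ℝ) + 1 ≤ 1 / 2 * (Real.log x / Real.log g) := by
    rw [← mul_div_assoc, le_div_iff₀ hlg]
    linarith
  have h8 : 1 / (2 * Real.log g) * Real.log x = 1 / 2 * (Real.log x / Real.log g) := by
    field_simp
  rw [h8]
  linarith

/-- passage from `max_{n ≤ h x} f n ≥ c log x` to infinitely many `n` with `f n ≥ c' log n` -/
lemma frequently_log (f : ℕ → ℕ) (h : ℕ) (hh : 1 ≤ h) (c : ℝ) (hc : 0 < c)
    (hf : ∀ᶠ x : ℕ in atTop, ∃ n, n ≤ h * x ∧ c * Real.log x ≤ f n) :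
    ∃ᶠ n : ℕ in atTop, c / 2 * Real.log n ≤ f n := by
  rw [Filter.frequently_atTop]
  intro N
  set B : ℕ := ∑ n ∈ range (N + 1), f n with hB
  have hlog : ∀ᶠ x : ℕ in atTop, ((B : ℝ) + 1) / c ≤ Real.log x :=
    (Real.tendsto_log_atTop.comp tendsto_natCast_atTop_atTop).eventually_ge_atTop _
  obtain ⟨x, ⟨n, hn, hfn⟩, hx1, hx2⟩ := (hf.and (hlog.and (eventually_ge_atTop h))).exists
  have hlogB : (B : ℝ) + 1 ≤ c * Real.log x := by
    rw [div_le_iff₀ hc] at hx1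
    linarith
  have hnN : N ≤ n := by
    by_contra hcon
    push Not at hcon
    have h1 : f n ≤ B :=
      Finset.single_le_sum (f := f) (fun _ _ => Nat.zero_le _) (Finset.mem_range.2 (by omega))
    have h2 : (f n : ℝ) ≤ B := by exact_mod_cast h1
    linarith
  refine ⟨n, hnN, ?_⟩
  have hxr : (1 : ℝ) ≤ x := by
    have : 1 ≤ x := by omega
    exact_mod_cast this
  have hlogn : Real.log n ≤ 2 * Real.log x := by
    rcases Nat.eq_zero_or_pos n with h0 | h0
    · rw [h0, Nat.cast_zero, Real.log_zero]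
      have := Real.log_nonneg hxr
      linarith
    · have h1 : (n : ℝ) ≤ (x : ℝ) ^ 2 := by
        have : n ≤ x ^ 2 := by nlinarith
        exact_mod_cast this
      have h2 := Real.log_le_log (by exact_mod_cast h0) h1
      rw [Real.log_pow] at h2
      push_cast at h2
      exact h2
  nlinarith

/-- **Bases with many abnormal elements have representation functions of logarithmic growth.** -/
theorem abnormal_basis (h : ℕ) (hh : 1 ≤ h) (g s : ℕ) (hg : 2 ≤ g) (ε : ℝ) (hε : 0 < ε)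
    (A : Set ℕ) (hA : ∀ᶠ n in atTop, msets A h n ≠ ∅)
    (hE : ∀ᶠ x : ℕ in atTop,
      (2 * (((A \ AbnormalDigits g s id ε) ∩ Set.Iic x).ncard : ℝ)) ^ h ≤ x) :
    ∃ c : ℝ, 0 < c ∧ ∃ᶠ n : ℕ in atTop, c * Real.log n ≤ (msets A h n).ncard := by
  have hgr : (2 : ℝ) ≤ g := by exact_mod_cast hg
  have hpart := basis_part A (AbnormalDigits g s id ε) h hh hA hE
  obtain ⟨C, hC, hquant⟩ := irregular_sets h hh (fun j => (g : ℝ) ^ (id j + s)) 2 (by positivity)
    (by norm_num) (by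
      intro j
      calc 2 * (g : ℝ) ^ (id j + s) ≤ g * (g : ℝ) ^ (id j + s) := by
            apply mul_le_mul_of_nonneg_right hgr (by positivity)
        _ = (g : ℝ) ^ (id (j + 1) + s) := by
            rw [← pow_succ']
            congr 1
            simp only [id]
            ring) ε hε
  obtain ⟨c, hc, hnum⟩ := numLE_log g s hg
  refine ⟨c / (C * 8 ^ h) / 2, by positivity, ?_⟩
  apply frequently_log (fun n => (msets A h n).ncard) h hh (c / (C * 8 ^ h)) (by positivity)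
  filter_upwards [hpart, hquant, hnum, eventually_gt_atTop 0] with x h1 h2 h3 hx0
  obtain ⟨n, hn, h4⟩ := h2 A
  refine ⟨n, hn, ?_⟩
  have hxr : (0 : ℝ) < x := by exact_mod_cast hx0
  set N : ℝ := (numLE (fun j => (g : ℝ) ^ (id j + s)) x : ℝ) with hN
  have hN0 : 0 ≤ N := by positivity
  have hsub : ((A ∩ AbnormalDigits g s id ε ∩ Set.Iic x).ncard : ℝ) ≤
      ((A ∩ Irregular (fun j => (g : ℝ) ^ (id j + s)) ε ∩ Set.Iic x).ncard : ℝ) := by
    have : A ∩ AbnormalDigits g s id ε ∩ Set.Iic x ⊆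
        A ∩ Irregular (fun j => (g : ℝ) ^ (id j + s)) ε ∩ Set.Iic x := by
      intro a ha
      exact ⟨⟨ha.1.1, abnormal_subset g s hg id ε ha.1.2⟩, ha.2⟩
    exact_mod_cast Set.ncard_le_ncard this ((Set.finite_Iic x).inter_of_right _)
  have h5 : N * x ≤ 8 ^ h * (C * x * (msets A h n).ncard) := by
    calc N * x ≤ N * (8 ^ h * ((A ∩ AbnormalDigits g s id ε ∩ Set.Iic x).ncard : ℝ) ^ h) :=
          mul_le_mul_of_nonneg_left h1 hN0
      _ ≤ N * (8 ^ h *
          ((A ∩ Irregular (fun j => (g : ℝ) ^ (id j + s)) ε ∩ Set.Iic x).ncard : ℝ) ^ h) := by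
          gcongr
      _ = 8 ^ h * (N *
          ((A ∩ Irregular (fun j => (g : ℝ) ^ (id j + s)) ε ∩ Set.Iic x).ncard : ℝ) ^ h) := by
          ring
      _ ≤ _ := mul_le_mul_of_nonneg_left h4 (by positivity)
  have h6 : N ≤ 8 ^ h * C * (msets A h n).ncard := by
    have : N * x ≤ (8 ^ h * C * (msets A h n).ncard) * x := by
      refine le_trans h5 (le_of_eq ?_)
      ring
    exact le_of_mul_le_mul_right this hxr
  rw [div_mul_eq_mul_div, div_le_iff₀ (by positivity)]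
  have h7 : c * Real.log x ≤ 8 ^ h * C * (msets A h n).ncard := h3.trans h6
  refine le_trans h7 (le_of_eq ?_)
  ring

end Pool.Agent.H78R2.ET
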