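import Mathlib
import Pool.Agent.H78R2.ET.ExpCore
import Pool.Agent.H78R2.ET.Examples

set_option autoImplicit false

open Finset Filter Topology

namespace Pool.Agent.H78R2.ET

open Pool.Agent.H380R2

/-- `large_coeff` for all the intervals of a grid, with common constants -/
lemma grid_coeff (ε : ℝ) (hε : 0 < ε) (N : ℕ) :
    ∃ (κ : ℝ) (H : ℕ), 0 < κ ∧ ∀ p ∈ (range (N + 1)) ×ˢ (range (N + 1)), p.1 ≤ p.2 →
      ∀ (Θ : Finset ℝ) (T : Finset ℕ), 0 < Θ.card → 0 < T.card →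
      ((p.2 : ℝ) / N - (p.1 : ℝ) / N + ε) * Θ.card * T.card ≤
        ∑ a ∈ T, (cnt Θ (fun θ => a * θ) ((p.1 : ℝ) / N) ((p.2 : ℝ) / N) : ℝ) →
      ∃ n : ℕ, 1 ≤ n ∧ n ≤ H ∧ κ * Θ.card * T.card ≤ ∑ θ ∈ Θ, ‖S T (n * θ)‖ := by
  classical
  have hex : ∀ p : ℕ × ℕ, ∃ (κ : ℝ) (H : ℕ), 0 < κ ∧ (p.1 ≤ p.2 →
      ∀ (Θ : Finset ℝ) (T : Finset ℕ), 0 < Θ.card → 0 < T.card →
      ((p.2 : ℝ) / N - (p.1 : ℝ) / N + ε) * Θ.card * T.card ≤
        ∑ a ∈ T, (cnt Θ (fun θ => a * θ) ((p.1 : ℝ) / N) ((p.2 : ℝ) / N) : ℝ) →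
      ∃ n : ℕ, 1 ≤ n ∧ n ≤ H ∧ κ * Θ.card * T.card ≤ ∑ θ ∈ Θ, ‖S T (n * θ)‖) := by
    intro p
    by_cases hp : p.1 ≤ p.2
    · have hle : (p.1 : ℝ) / N ≤ (p.2 : ℝ) / N := by
        have : (p.1 : ℝ) ≤ p.2 := by exact_mod_cast hp
        gcongr
      obtain ⟨κ, H, hκ, hJ₀⟩ := large_coeff ε _ _ hε hle
      exact ⟨κ, H, hκ, fun _ => hJ₀⟩
    · exact ⟨1, 0, one_pos, fun h => absurd h hp⟩
  choose κ H hκ hJ using hex
  have hne : ((range (N + 1)) ×ˢ (range (N + 1))).Nonempty := ⟨(0, 0), by simp⟩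
  refine ⟨((range (N + 1)) ×ˢ (range (N + 1))).inf' hne κ,
    ∑ p ∈ (range (N + 1)) ×ˢ (range (N + 1)), H p, ?_, ?_⟩
  · rw [Finset.lt_inf'_iff]
    intro p _
    exact hκ p
  intro p hp hp12 Θ T h1 h2 h3
  obtain ⟨n, hn1, hn2, hn3⟩ := hJ p hp12 Θ T h1 h2 h3
  have h5 : H p ≤ ∑ p ∈ (range (N + 1)) ×ˢ (range (N + 1)), H p :=
    Finset.single_le_sum (f := H) (fun _ _ => Nat.zero_le _) hp
  refine ⟨n, hn1, hn2.trans h5, le_trans ?_ hn3⟩
  have h7 : ((range (N + 1)) ×ˢ (range (N + 1))).inf' hne κ ≤ κ p := Finset.inf'_le κ hp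
  gcongr

lemma sum_classes (f : ℕ → ℝ) (j₀ R M : ℕ) :
    ∑ j ∈ Finset.Ico j₀ (j₀ + R * M), f j =
      ∑ r ∈ range R, ∑ i ∈ range M, f (j₀ + r + R * i) := by
  rw [Finset.sum_comm, Finset.sum_Ico_eq_sum_range]
  have h1 : j₀ + R * M - j₀ = R * M := by omega
  rw [h1]
  induction M with
  | zero => simp
  | succ M ih =>
    rw [Finset.sum_range_succ, ← ih (by omega), Nat.mul_succ, Finset.sum_range_add]
    congr 1
    apply Finset.sum_congr rfl
    intro r _
    congr 1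
    ring

/-- **Exponential form for lacunary sequences.** -/
theorem lac_exp_core (n : ℕ) (u : ℕ → ℝ) (q : ℝ) (hu0 : 0 < u 0) (hq : 1 < q)
    (hu : ∀ j, q * u j ≤ u (j + 1)) (ε : ℝ) (hε : 0 < ε) :
    ∃ (c C : ℝ) (H R : ℕ), 0 < c ∧ 0 < C ∧ 0 < R ∧ ∀ (X K j₀ M : ℕ) (T : Finset ℕ),
      0 < X → 0 < M → 4 * (H : ℝ) ≤ u j₀ → (∀ j, j < j₀ + R * M → u j ≤ X) →
      (∀ a ∈ T, a ≤ X) → (∀ m, ((tup T (n + 1)).filter (fun v => ∑ i, v i = m)).card ≤ K) →
      (∀ a ∈ T, Uneven ε (Finset.Ico j₀ (j₀ + R * M)) (fun j => (a : ℝ) / u j)) →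
      (T.card : ℝ) ^ (n + 1) * Real.exp (c * (R * M)) ≤ C * K * X := by
  classical
  have hpos := lac_pos hu0 hq hu
  have hmono := lac_mono hu0 hq hu
  have hgrow := lac_grow hq hu
  obtain ⟨N₁, hN₁⟩ := exists_nat_gt (2 / (ε / 4))
  set N : ℕ := N₁ + 1 with hN
  have hN0 : 0 < N := by omega
  have hN2 : 2 / (ε / 4) ≤ N := by
    rw [hN]
    push_cast
    linarith
  set P : Finset (ℕ × ℕ) := (range (N + 1)) ×ˢ (range (N + 1)) with hP
  have hPpos : (0 : ℝ) < P.card := by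
    have : 0 < P.card := by
      rw [hP, Finset.card_product, Finset.card_range]
      positivity
    exact_mod_cast this
  obtain ⟨κ, H, hκ, hcoeff⟩ := grid_coeff (ε / 4) (by positivity) N
  obtain ⟨R₀, hR₀⟩ := pow_unbounded_of_one_lt 4 hq
  set R : ℕ := R₀ + 1 with hR
  have hR4 : 4 ≤ q ^ R := by
    refine le_trans hR₀.le ?_
    exact pow_le_pow_right₀ hq.le (by omega)
  have hRr : (0 : ℝ) < R := by
    have : 0 < R := by omega
    exact_mod_cast this
  set b : ℝ := κ / R with hb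
  have hb0 : 0 < b := by positivity
  refine ⟨b ^ (2 * (n + 1)) / 8, (P.card : ℝ) ^ (n + 1) * (n + 3), H, R, by positivity,
    by positivity, by omega, ?_⟩
  intro X K j₀ M T hX hM hj₀ huX hTX hK hdev
  have hXr : (1 : ℝ) ≤ X := by exact_mod_cast hX
  have hMr : (0 : ℝ) < M := by exact_mod_cast hM
  set I := Finset.Ico j₀ (j₀ + R * M) with hI
  have hIcard : (I.card : ℝ) = R * M := by
    rw [hI, Nat.card_Ico]
    have : j₀ + R * M - j₀ = R * M := by omega
    rw [this]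
    push_cast
    rfl
  have hinj : Set.InjOn (fun j => 1 / u j) (I : Set ℕ) := by
    intro i _ j _ hij
    simp only [one_div, inv_inj] at hij
    exact hmono.injective hij
  set Θ := I.image (fun j => 1 / u j) with hΘ
  have hΘcard : (Θ.card : ℝ) = R * M := by
    rw [hΘ, Finset.card_image_of_injOn hinj, hIcard]
  have hΘpos : 0 < Θ.card := by
    have : (0 : ℝ) < Θ.card := by rw [hΘcard]; positivity
    exact_mod_cast this
  set E : ℝ := Real.exp (b ^ (2 * (n + 1)) / 8 * (R * M)) with hE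
  have hE0 : 0 < E := Real.exp_pos _
  set F : ℕ × ℕ → Finset ℕ := fun p => T.filter (fun a => p.1 ≤ p.2 ∧
    ((p.2 : ℝ) / N - (p.1 : ℝ) / N + ε / 4) * Θ.card ≤
      (cnt Θ (fun d => (a : ℝ) * d) ((p.1 : ℝ) / N) ((p.2 : ℝ) / N) : ℝ)) with hF
  have hFle : ∀ p ∈ P, ((F p).card : ℝ) ^ (n + 1) * E ≤ (n + 3) * K * X := by
    intro p hp
    rcases (F p).eq_empty_or_nonempty with h0 | hne
    · rw [h0, Finset.card_empty, Nat.cast_zero, zero_pow (by omega), zero_mul]
      positivity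
    · obtain ⟨a₀, ha₀⟩ := id hne
      rw [hF, Finset.mem_filter] at ha₀
      have h2 : ∑ _a ∈ F p, ((p.2 : ℝ) / N - (p.1 : ℝ) / N + ε / 4) * Θ.card ≤
          ∑ a ∈ F p, (cnt Θ (fun d => (a : ℝ) * d) ((p.1 : ℝ) / N) ((p.2 : ℝ) / N) : ℝ) := by
        apply Finset.sum_le_sum
        intro a ha
        rw [hF, Finset.mem_filter] at ha
        exact ha.2.2
      rw [Finset.sum_const, nsmul_eq_mul] at h2
      obtain ⟨ν, hν1, hν2, hν3⟩ := hcoeff p hp ha₀.2.1 Θ (F p) hΘpos hne.card_pos (by linarith)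
      have hνr : (1 : ℝ) ≤ ν := by exact_mod_cast hν1
      have hν0 : (0 : ℝ) < ν := by linarith
      have hνH : (ν : ℝ) ≤ H := by exact_mod_cast hν2
      rw [hΘcard, hΘ, Finset.sum_image hinj] at hν3
      rw [hI, sum_classes (fun j => ‖S (F p) (ν * (1 / u j))‖) j₀ R M] at hν3
      obtain ⟨r, hr, hrS⟩ : ∃ r ∈ range R, b * (R * M) * (F p).card ≤
          ∑ i ∈ range M, ‖S (F p) (ν * (1 / u (j₀ + r + R * i)))‖ := by
        by_contra hcon
        push Not at hcon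
        have h3 : ∑ r ∈ range R, ∑ i ∈ range M, ‖S (F p) (ν * (1 / u (j₀ + r + R * i)))‖ <
            ∑ _r ∈ range R, b * (R * M) * (F p).card := by
          apply Finset.sum_lt_sum_of_nonempty _ (fun r hr => hcon r hr)
          exact ⟨0, by rw [Finset.mem_range]; omega⟩
        rw [Finset.sum_const, Finset.card_range, nsmul_eq_mul] at h3
        have h4 : (R : ℝ) * (b * (R * M) * (F p).card) = κ * (R * M) * (F p).card := by
          rw [hb]
          field_simp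
        linarith
      rw [Finset.mem_range] at hr
      obtain ⟨m, rfl⟩ : ∃ m, M = m + 1 := ⟨M - 1, by omega⟩
      have hkey := key n K X (F p) (by
        intro a ha
        rw [hF, Finset.mem_filter] at ha
        exact hTX a ha.1) (sub_mult hK _ (Finset.filter_subset _ _))
        (fun i => ν * (1 / u (j₀ + r + R * i))) (by
        intro i
        have := hpos (j₀ + r + R * i)
        positivity) (by
        intro i
        have e1 := hpos (j₀ + r + R * i)
        have e2 := hpos (j₀ + r + R * (i + 1))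
        have e3 : 4 * u (j₀ + r + R * i) ≤ u (j₀ + r + R * (i + 1)) := by
          have e4 := hgrow (j₀ + r + R * i) R
          have e5 : j₀ + r + R * i + R = j₀ + r + R * (i + 1) := by ring
          rw [e5] at e4
          refine le_trans ?_ e4
          exact mul_le_mul_of_nonneg_right hR4 e1.le
        have e6 : 4 * (1 / u (j₀ + r + R * (i + 1))) ≤ 1 / u (j₀ + r + R * i) := by
          rw [mul_one_div, div_le_div_iff₀ e2 e1]
          linarith
        calc 4 * (ν * (1 / u (j₀ + r + R * (i + 1)))) =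
            ν * (4 * (1 / u (j₀ + r + R * (i + 1)))) := by ring
          _ ≤ _ := mul_le_mul_of_nonneg_left e6 hν0.le) (by
        have e1 : u j₀ ≤ u (j₀ + r + R * 0) := hmono.monotone (by omega)
        have e2 := hpos (j₀ + r + R * 0)
        rw [mul_one_div, div_le_div_iff₀ e2 (by norm_num)]
        linarith) m (by
        have e1 := huX (j₀ + r + R * m) (by
          rw [Nat.mul_succ]
          omega)
        have e2 := hpos (j₀ + r + R * m)
        rw [mul_one_div, one_div_div, div_le_iff₀ hν0]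
        exact e1.trans (le_mul_of_one_le_right (by linarith) hνr)) (R * ((m + 1 : ℕ) : ℝ)) b (by
        have e1 : (1 : ℝ) ≤ R := by
          have : 1 ≤ R := by omega
          exact_mod_cast this
        push_cast
        have e2 : (0 : ℝ) ≤ m := by positivity
        nlinarith) hb0.le hrS
      have hEeq : b ^ (2 * (n + 1)) * (R * ((m + 1 : ℕ) : ℝ)) / 8 =
          b ^ (2 * (n + 1)) / 8 * (R * ((m + 1 : ℕ) : ℝ)) := by ring
      rw [hEeq] at hkey
      refine le_trans hkey ?_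
      have hK0 : (0 : ℝ) ≤ K := by positivity
      have e3 : (((n + 1 : ℕ) : ℝ) * X + 1 + X) ≤ (n + 3) * X := by
        push_cast
        linarith
      calc (K : ℝ) * (((n + 1 : ℕ) : ℝ) * X + 1 + X) ≤ K * ((n + 3) * X) :=
            mul_le_mul_of_nonneg_left e3 hK0
        _ = _ := by ring
  have hcov : T ⊆ P.biUnion F := by
    intro a ha
    have h1 := hdev a ha
    have h2 : Uneven ε Θ (fun θ => (a : ℝ) * θ) := by
      apply Uneven.image hinj
      simp_rw [mul_one_div]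
      exact h1
    obtain ⟨p, hp, hp1, hp2⟩ := grid hε N hN2 hN0 Θ _ h2
    rw [Finset.mem_biUnion]
    exact ⟨p, hp, by rw [hF, Finset.mem_filter]; exact ⟨ha, hp1, hp2⟩⟩
  have h4 : (T.card : ℝ) ≤ ∑ p ∈ P, ((F p).card : ℝ) := by
    have := le_trans (Finset.card_le_card hcov) Finset.card_biUnion_le
    exact_mod_cast this
  calc (T.card : ℝ) ^ (n + 1) * E ≤ (∑ p ∈ P, ((F p).card : ℝ)) ^ (n + 1) * E := by gcongr
    _ ≤ ((P.card : ℝ) ^ n * ∑ p ∈ P, ((F p).card : ℝ) ^ (n + 1)) * E := by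
        apply mul_le_mul_of_nonneg_right _ hE0.le
        exact pow_sum_le_card_mul_sum_pow (fun i _ => by positivity) n
    _ = (P.card : ℝ) ^ n * ∑ p ∈ P, ((F p).card : ℝ) ^ (n + 1) * E := by
        rw [mul_assoc, Finset.sum_mul]
    _ ≤ (P.card : ℝ) ^ n * ∑ _p ∈ P, ((n : ℝ) + 3) * K * X := by
        apply mul_le_mul_of_nonneg_left (Finset.sum_le_sum hFle) (by positivity)
    _ = (P.card : ℝ) ^ (n + 1) * (n + 3) * K * X := by
        rw [Finset.sum_const, nsmul_eq_mul]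
        ring

end Pool.Agent.H78R2.ET
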