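import Mathlib
import Pool.Agent.H78R2.ET.LacExp

set_option autoImplicit false

open Finset Filter Topology

namespace Pool.Agent.H78R2.ET

open Pool.Agent.H380R2

/-- **Irregular integers, exponential form.**  For a lacunary sequence `u` and `T` a set of
irregular integers in `[0, x]` whose `(n + 1)`-fold sums have multiplicity at most `K`,
`|T| ^ (n + 1) ≤ K x exp(-c J)`, where `J` is the number of indices `j` with `u j ≤ x`. -/
theorem irregular_exp (n : ℕ) (u : ℕ → ℝ) (q : ℝ) (hu0 : 0 < u 0) (hq : 1 < q)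
    (hu : ∀ j, q * u j ≤ u (j + 1)) (ε : ℝ) (hε : 0 < ε) :
    ∃ c : ℝ, 0 < c ∧ ∀ᶠ x : ℕ in atTop, ∀ (K : ℕ) (T : Finset ℕ),
      (∀ a ∈ T, a ∈ Irregular u ε ∧ a ≤ x) →
      (∀ m, ((tup T (n + 1)).filter (fun v => ∑ i, v i = m)).card ≤ K) →
      (T.card : ℝ) ^ (n + 1) * Real.exp (c * numLE u x) ≤ K * x := by
  classical
  have hpos := lac_pos hu0 hq hu
  have hmono := lac_mono hu0 hq hu
  have hgrow := lac_grow hq hu
  have hunb := lac_unb hu0 hq hu
  -- counting function
  have hcount : ∀ y : ℝ, ∃ m : ℕ, y < u m ∧ (∀ j, j < m → u j ≤ y) ∧ numLE u y = m := by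
    intro y
    refine ⟨Nat.find (hunb y), Nat.find_spec (hunb y), ?_, ?_⟩
    · intro j hj
      exact not_lt.1 (Nat.find_min (hunb y) hj)
    · unfold numLE
      have : {j : ℕ | u j ≤ y} = ((Finset.range (Nat.find (hunb y)) : Finset ℕ) : Set ℕ) := by
        ext j
        simp only [Set.mem_ofPred_eq, Finset.coe_range, Set.mem_Iio]
        constructor
        · intro hj
          by_contra hcon
          push Not at hcon
          have h1 := hmono.monotone hcon
          have h2 := Nat.find_spec (hunb y)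
          linarith
        · intro hj
          exact not_lt.1 (Nat.find_min (hunb y) hj)
      rw [this, Set.ncard_coe_finset, Finset.card_range]
  obtain ⟨c₁, C, H, R, hc₁, hC, hR, hcore⟩ :=
    lac_exp_core n u q hu0 hq hu (ε / 2) (by positivity)
  obtain ⟨j₀, hj₀⟩ := hunb (4 * H)
  have h2ε : 0 < 2 / ε := by positivity
  obtain ⟨B, hB⟩ := exists_nat_gt (4 * (1 + 2 / ε))
  have hB4 : (4 : ℝ) < B := by linarith
  have hB0 : (0 : ℝ) < B := by linarith
  have hBn : 4 < B := by exact_mod_cast hB4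
  have hlq : 0 < Real.log q := Real.log_pos hq
  set c₂ : ℝ := Real.log q / B with hc₂
  have hc₂0 : 0 < c₂ := by positivity
  set c₃ : ℝ := min (c₁ / 2) c₂ with hc₃
  have hc₃0 : 0 < c₃ := lt_min (by positivity) hc₂0
  set C' : ℝ := 2 ^ (n + 1) * (C + (n + 2)) with hC'
  have hC'0 : 0 < C' := by positivity
  -- thresholds
  obtain ⟨t₀, ht₀⟩ := pow_unbounded_of_one_lt (1 / u 0) hq
  obtain ⟨J₂, hJ₂⟩ := exists_nat_gt (Real.log C' / (c₃ / 2))
  set J₁ : ℕ := B * (j₀ + R + 1) + 4 * (t₀ + 3) + J₂ with hJ₁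
  refine ⟨c₃ / 2, by positivity, ?_⟩
  have hev : ∀ᶠ x : ℕ in atTop, u J₁ ≤ x :=
    tendsto_natCast_atTop_atTop.eventually_ge_atTop _
  filter_upwards [hev, eventually_gt_atTop 0] with x hx hx0 K T hT hK
  have hxr : (0 : ℝ) < x := by exact_mod_cast hx0
  have hx1 : (1 : ℝ) ≤ x := by exact_mod_cast hx0
  obtain ⟨J, hJa, hJb, hJc⟩ := hcount x
  rw [hJc]
  have hJJ : J₁ < J := by
    by_contra hcon
    push Not at hcon
    have := hmono.monotone hcon
    linarith
  have hJpos : (0 : ℝ) < J := by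
    have : 0 < J := by omega
    exact_mod_cast this
  set e : ℕ := J / B + 1 with he
  have heB1 : B * (J / B) ≤ J := Nat.mul_div_le J B
  have heB2 : J < B * (J / B) + B := by
    have := Nat.lt_mul_div_succ J (show 0 < B by omega)
    rw [Nat.mul_succ] at this
    exact this
  have heJ : (J : ℝ) ≤ B * e := by
    have : J ≤ B * e := by
      rw [he, Nat.mul_succ]
      omega
    exact_mod_cast this
  have heB : B * (e + j₀ + R) ≤ 2 * J := by
    have h1 : B * (e + j₀ + R) = B * (J / B) + B * (j₀ + R + 1) := by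
      rw [he]
      ring
    rw [h1]
    omega
  have hqe0 : 0 < q ^ e := by positivity
  set Y : ℝ := x / q ^ e with hY
  have hY0 : 0 < Y := by positivity
  have hYx : Y ≤ x := div_le_self hxr.le (one_le_pow₀ hq.le)
  -- `q ^ e ≤ x`
  have hqex : q ^ e ≤ x := by
    obtain ⟨J', hJ'⟩ : ∃ J', J = J' + 1 := ⟨J - 1, by omega⟩
    have h1 := hJb J' (by omega)
    have h2 := hgrow 0 J'
    rw [zero_add] at h2
    have h3 : e + t₀ ≤ J' := by
      have h4 : J / B ≤ J / 4 := Nat.div_le_div_left hBn.le (by norm_num)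
      have h5 : 4 * (J / 4) ≤ J := Nat.mul_div_le J 4
      omega
    have h4 : q ^ (e + t₀) ≤ q ^ J' := pow_le_pow_right₀ hq.le h3
    have h5 : q ^ e * (1 / u 0) ≤ q ^ J' := by
      calc q ^ e * (1 / u 0) ≤ q ^ e * q ^ t₀ := mul_le_mul_of_nonneg_left ht₀.le hqe0.le
        _ = q ^ (e + t₀) := (pow_add _ _ _).symm
        _ ≤ _ := h4
    have h6 : q ^ e ≤ q ^ J' * u 0 := by
      have := mul_le_mul_of_nonneg_right h5 hu0.le
      have h7 : q ^ e * (1 / u 0) * u 0 = q ^ e := by field_simp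
      rw [h7] at this
      exact this
    linarith
  have hY1 : 1 ≤ Y := by
    rw [hY, le_div_iff₀ hqe0]
    linarith
  obtain ⟨m, hm1, hm2, hm3⟩ := hcount Y
  -- `J ≤ m + e`
  have hJme : J ≤ m + e := by
    by_contra hcon
    push Not at hcon
    have h1 := hJb (m + e) hcon
    have h2 := hgrow m e
    have h3 : q ^ e * Y < q ^ e * u m := mul_lt_mul_of_pos_left hm1 hqe0
    have h4 : q ^ e * Y = x := by rw [hY]; field_simp
    linarith
  have heB4 : 4 * (e + j₀ + R) ≤ 2 * J :=
    le_trans (Nat.mul_le_mul_right _ hBn.le) heB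
  have hj₀m : j₀ + R ≤ m := by omega
  set M : ℕ := (m - j₀) / R with hM
  have hM1 : R * M ≤ m - j₀ := Nat.mul_div_le _ _
  have hM2 : m - j₀ < R * M + R := by
    have := Nat.lt_mul_div_succ (m - j₀) hR
    rw [Nat.mul_succ] at this
    exact this
  have hJRM : J ≤ R * M + (e + j₀ + R) := by omega
  have hJRMr : (J : ℝ) ≤ R * M + (e + j₀ + R) := by exact_mod_cast hJRM
  have hM0 : 0 < M := by
    rcases Nat.eq_zero_or_pos M with h | h
    · exfalso
      have h0 : R * M = 0 := by rw [h, Nat.mul_zero]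
      have h1 : J ≤ e + j₀ + R := by
        rw [h0, Nat.zero_add] at hJRM
        exact hJRM
      omega
    · exact h
  have hlossN : (4 : ℝ) * (1 + 2 / ε) * (e + j₀ + R) ≤ 2 * J := by
    have h1 : (B : ℝ) * (e + j₀ + R) ≤ 2 * J := by exact_mod_cast heB
    refine le_trans ?_ h1
    apply mul_le_mul_of_nonneg_right hB.le (by positivity)
  have hRM2 : (J : ℝ) / 2 ≤ R * M := by
    have h1 : (4 : ℝ) * (e + j₀ + R) ≤ 2 * J := by exact_mod_cast heB4
    linarith
  have hcardI : (((Finset.Ico j₀ (j₀ + R * M)).card : ℕ) : ℝ) = R * M := by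
    rw [Nat.card_Ico]
    have : j₀ + R * M - j₀ = R * M := by omega
    rw [this]
    push_cast
    rfl
  set T₁ := T.filter (fun a : ℕ => Y ≤ a) with hT₁
  set T₂ := T.filter (fun a : ℕ => ¬ Y ≤ a) with hT₂
  have hmain := hcore x K j₀ M T₁ hx0 hM0 hj₀.le (by
      intro j hj
      exact (hm2 j (by omega)).trans hYx) (by
      intro a ha
      rw [hT₁, Finset.mem_filter] at ha
      exact (hT a ha.1).2) (sub_mult hK T₁ (Finset.filter_subset _ _)) (by
      intro a ha
      rw [hT₁, Finset.mem_filter] at ha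
      obtain ⟨F, hF, hFu⟩ := (hT a ha.1).1
      have hsub : Finset.Ico j₀ (j₀ + R * M) ⊆ F := by
        intro j hj
        rw [Finset.mem_Ico] at hj
        rw [hF]
        have := hm2 j (by omega)
        linarith [ha.2]
      have hFsub : F ⊆ Finset.range J := by
        intro j hj
        rw [hF] at hj
        rw [Finset.mem_range]
        by_contra hcon
        push Not at hcon
        have h1 := hmono.monotone hcon
        have h2 : (a : ℝ) ≤ x := by exact_mod_cast (hT a ha.1).2
        linarith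
      have hFc := Finset.card_le_card hFsub
      rw [Finset.card_range] at hFc
      have hFcr : (F.card : ℝ) ≤ J := by exact_mod_cast hFc
      apply hFu.restrict hε hsub ((e : ℝ) + j₀ + R)
      · rw [hcardI]
        linarith
      · rw [hcardI]
        have h1 : (1 + 2 / ε) * ((e : ℝ) + j₀ + R) ≤ J := by nlinarith
        have h2 : ε / 2 * ((1 + 2 / ε) * ((e : ℝ) + j₀ + R)) ≤ ε / 2 * J :=
          mul_le_mul_of_nonneg_left h1 (by positivity)
        have h3 : ε / 2 * ((1 + 2 / ε) * ((e : ℝ) + j₀ + R)) =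
            ε / 2 * ((e : ℝ) + j₀ + R) + (e + j₀ + R) := by
          field_simp
        have h4 : ε / 2 * ((J : ℝ) - (e + j₀ + R)) ≤ ε / 2 * ((R : ℝ) * M) :=
          mul_le_mul_of_nonneg_left (by linarith) (by positivity)
        have h5 : ε / 2 * ((J : ℝ) - (e + j₀ + R)) = ε / 2 * J - ε / 2 * ((e : ℝ) + j₀ + R) := by
          ring
        rw [h3] at h2
        rw [h5] at h4
        linarith)
  have hK0 : (0 : ℝ) ≤ K := by positivity
  have hKx : 0 ≤ (K : ℝ) * x := by positivity
  have hexp0 : 0 < Real.exp (c₃ * J) := Real.exp_pos _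
  have h1 : (T₁.card : ℝ) ^ (n + 1) * Real.exp (c₃ * J) ≤ (C + (n + 2)) * (K * x) := by
    have g1 : Real.exp (c₃ * J) ≤ Real.exp (c₁ * (R * M)) := by
      apply Real.exp_le_exp.2
      have g2 : c₃ ≤ c₁ / 2 := min_le_left _ _
      calc c₃ * J ≤ c₁ / 2 * J := mul_le_mul_of_nonneg_right g2 hJpos.le
        _ = c₁ * (J / 2) := by ring
        _ ≤ _ := mul_le_mul_of_nonneg_left hRM2 hc₁.le
    calc (T₁.card : ℝ) ^ (n + 1) * Real.exp (c₃ * J) ≤
        (T₁.card : ℝ) ^ (n + 1) * Real.exp (c₁ * (R * M)) :=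
          mul_le_mul_of_nonneg_left g1 (by positivity)
      _ ≤ C * K * x := hmain
      _ ≤ (C + (n + 2)) * (K * x) := by
          have : 0 ≤ ((n : ℝ) + 2) * (K * x) := by positivity
          nlinarith
  have h2 : (T₂.card : ℝ) ^ (n + 1) * Real.exp (c₃ * J) ≤ (C + (n + 2)) * (K * x) := by
    have g1 := small_card (n + 1) K T₂ Y hY0.le (by
      intro a ha
      rw [hT₂, Finset.mem_filter] at ha
      push Not at ha
      exact ha.2.le) (sub_mult hK T₂ (Finset.filter_subset _ _))
    have g2 : Real.exp (c₃ * J) ≤ q ^ e := by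
      have g3 : c₃ ≤ c₂ := min_le_right _ _
      have g4 : c₂ * J ≤ e * Real.log q := by
        rw [hc₂, div_mul_eq_mul_div, div_le_iff₀ hB0]
        have : Real.log q * J ≤ Real.log q * (B * e) := mul_le_mul_of_nonneg_left heJ hlq.le
        linarith
      calc Real.exp (c₃ * J) ≤ Real.exp (e * Real.log q) := by
            apply Real.exp_le_exp.2
            have := mul_le_mul_of_nonneg_right g3 hJpos.le
            linarith
        _ = q ^ e := by
            rw [Real.exp_nat_mul, Real.exp_log (by linarith)]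
    have g3 : (K : ℝ) * (((n + 1 : ℕ) : ℝ) * Y + 1) ≤ (n + 2) * K * Y := by
      push_cast
      nlinarith
    calc (T₂.card : ℝ) ^ (n + 1) * Real.exp (c₃ * J) ≤ ((n + 2) * K * Y) * q ^ e := by
          apply mul_le_mul (g1.trans g3) g2 hexp0.le (by positivity)
      _ = (n + 2) * (K * x) := by
          rw [hY]
          field_simp
      _ ≤ _ := by
          have : 0 ≤ C * (K * x) := by positivity
          nlinarith
  have h3 : (T.card : ℝ) = T₁.card + T₂.card := by
    rw [hT₁, hT₂]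
    exact_mod_cast (Finset.card_filter_add_card_filter_not (s := T)
      (fun a : ℕ => Y ≤ (a : ℝ))).symm
  have h4 : (T.card : ℝ) ^ (n + 1) * Real.exp (c₃ * J) ≤ C' * (K * x) := by
    set t₁ : ℝ := (T₁.card : ℝ)
    set t₂ : ℝ := (T₂.card : ℝ)
    have ht₁ : 0 ≤ t₁ := by positivity
    have ht₂ : 0 ≤ t₂ := by positivity
    rw [h3]
    have key : ∀ t : ℝ, 0 ≤ t → t ^ (n + 1) * Real.exp (c₃ * J) ≤ (C + (n + 2)) * (K * x) →
        (2 * t) ^ (n + 1) * Real.exp (c₃ * J) ≤ C' * (K * x) := by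
      intro t _ htt
      rw [mul_pow]
      calc 2 ^ (n + 1) * t ^ (n + 1) * Real.exp (c₃ * J) =
          2 ^ (n + 1) * (t ^ (n + 1) * Real.exp (c₃ * J)) := by ring
        _ ≤ 2 ^ (n + 1) * ((C + (n + 2)) * (K * x)) :=
            mul_le_mul_of_nonneg_left htt (by positivity)
        _ = _ := by rw [hC']; ring
    rcases le_total t₁ t₂ with hle | hle
    · refine le_trans ?_ (key t₂ ht₂ h2)
      apply mul_le_mul_of_nonneg_right _ hexp0.le
      apply pow_le_pow_left₀ (by positivity)
      linarith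
    · refine le_trans ?_ (key t₁ ht₁ h1)
      apply mul_le_mul_of_nonneg_right _ hexp0.le
      apply pow_le_pow_left₀ (by positivity)
      linarith
  -- absorb the constant
  have h5 : C' ≤ Real.exp (c₃ / 2 * J) := by
    rw [← Real.exp_log hC'0]
    apply Real.exp_le_exp.2
    rw [div_lt_iff₀ (by positivity)] at hJ₂
    have h6 : (J₂ : ℝ) ≤ J := by
      have : J₂ ≤ J := by omega
      exact_mod_cast this
    have h7 := mul_le_mul_of_nonneg_right h6 (show 0 ≤ c₃ / 2 by positivity)
    linarith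
  have h6 : Real.exp (c₃ * J) = Real.exp (c₃ / 2 * J) * Real.exp (c₃ / 2 * J) := by
    rw [← Real.exp_add]
    congr 1
    ring
  have h7 : Real.exp (c₃ / 2 * J) * ((T.card : ℝ) ^ (n + 1) * Real.exp (c₃ / 2 * J)) ≤
      Real.exp (c₃ / 2 * J) * (K * x) := by
    calc _ = (T.card : ℝ) ^ (n + 1) * Real.exp (c₃ * J) := by rw [h6]; ring
      _ ≤ C' * (K * x) := h4
      _ ≤ _ := mul_le_mul_of_nonneg_right h5 hKx
  exact le_of_mul_le_mul_left h7 (Real.exp_pos _)

end Pool.Agent.H78R2.ET
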