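import Mathlib
import Pool.Agent.H78R2.ET.Final

set_option autoImplicit false

open Finset Filter Topology

namespace Pool.Agent.H78R2.ET

open Pool.Agent.H380R2

/-- If for infinitely many `m` all but finitely many elements of `S` miss an interval of at least
`δ m` consecutive residues modulo `m`, then `S` is biased. -/
theorem avoid_biased (S : Set ℕ) (δ : ℝ) (hδ : 0 < δ)
    (hS : ∃ᶠ m : ℕ in atTop, ∃ v w : ℕ, v + δ * m ≤ w ∧ w ≤ m ∧
      {a ∈ S | v ≤ a % m ∧ a % m < w}.Finite) : Biased S := by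
  classical
  obtain ⟨N₁, hN₁⟩ := exists_nat_gt (2 / δ)
  set N : ℕ := N₁ + 1 with hN
  have hN0 : 0 < N := by omega
  have hNr : (0 : ℝ) < N := by exact_mod_cast hN0
  have hN2 : 2 ≤ N * δ := by
    rw [div_lt_iff₀ hδ] at hN₁
    rw [hN]
    push_cast
    nlinarith
  set Av : ℕ → ℕ → Prop := fun i m => {a ∈ S | (i : ℝ) / N ≤ Int.fract ((a : ℝ) / m) ∧
    Int.fract ((a : ℝ) / m) < ((i : ℝ) + 1) / N}.Finite with hAv
  have h1 : ∃ᶠ m : ℕ in atTop, ∃ i ∈ Finset.range N, Av i m := by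
    have h2 := hS.and_eventually (eventually_gt_atTop 0)
    refine h2.mono ?_
    rintro m ⟨⟨v, w, hvw, hwm, hfin⟩, hm⟩
    have hmr : (0 : ℝ) < m := by exact_mod_cast hm
    set i : ℕ := ⌈(v : ℝ) * N / m⌉₊ with hi
    have hi0 : (0 : ℝ) ≤ (v : ℝ) * N / m := by positivity
    have hi1 : (v : ℝ) * N / m ≤ i := Nat.le_ceil _
    have hi2 : (i : ℝ) < (v : ℝ) * N / m + 1 := Nat.ceil_lt_add_one hi0
    have hi3 : ((i : ℝ) + 1) ≤ w * N / m := by
      have h3 : (v : ℝ) * N / m + 2 ≤ w * N / m := by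
        rw [div_add' _ _ _ hmr.ne', div_le_div_iff_of_pos_right hmr]
        nlinarith
      linarith
    refine ⟨i, ?_, ?_⟩
    · rw [Finset.mem_range]
      have h3 : (w : ℝ) * N / m ≤ N := by
        rw [div_le_iff₀ hmr]
        have : (w : ℝ) ≤ m := by exact_mod_cast hwm
        nlinarith
      have h4 : ((i : ℝ) + 1) ≤ N := by linarith
      have : i + 1 ≤ N := by exact_mod_cast h4
      omega
    · rw [hAv]
      refine hfin.subset ?_
      rintro a ⟨haS, ha1, ha2⟩
      refine ⟨haS, ?_⟩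
      have hfr : Int.fract ((a : ℝ) / m) = ((a % m : ℕ) : ℝ) / m :=
        Int.fract_div_natCast_eq_div_natCast_mod
      rw [hfr] at ha1 ha2
      rw [div_le_div_iff₀ hNr hmr] at ha1
      rw [div_lt_div_iff₀ hmr hNr] at ha2
      rw [div_le_iff₀ hmr] at hi1
      rw [le_div_iff₀ hmr] at hi3
      constructor
      · have : (v : ℝ) * N ≤ ((a % m : ℕ) : ℝ) * N := by linarith
        have := le_of_mul_le_mul_right this hNr
        exact_mod_cast this
      · have : ((a % m : ℕ) : ℝ) * N < w * N := by linarith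
        have := lt_of_mul_lt_mul_right this hNr.le
        exact_mod_cast this
  obtain ⟨i, hiN, hi⟩ : ∃ i ∈ Finset.range N, ∃ᶠ m : ℕ in atTop, Av i m := by
    by_contra hcon
    push Not at hcon
    have h2 : ∀ᶠ m : ℕ in atTop, ∀ i ∈ Finset.range N, ¬ Av i m := by
      rw [Finset.eventually_all]
      intro i hi
      exact hcon i hi
    obtain ⟨m, ⟨i, hi, h3⟩, h4⟩ := (h1.and_eventually h2).exists
    exact h4 i hi h3
  rw [Finset.mem_range] at hiN
  refine ⟨1 / N, 1, by positivity, one_pos, ?_⟩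
  intro J κ hκ
  have hinf : {m : ℕ | Av i m ∧ 2 * J < m}.Infinite := by
    rw [← Nat.frequently_atTop_iff_infinite]
    exact hi.and_eventually (eventually_gt_atTop (2 * J))
  obtain ⟨D, hDsub, hDcard⟩ := hinf.exists_subset_card_eq (J + 1)
  have hD : ∀ d ∈ D, Av i d ∧ 2 * J < d := fun d hd => hDsub hd
  set M : ℕ := ∏ d ∈ D, d with hM
  have hMpos : 0 < M := Finset.prod_pos (fun d hd => by have := (hD d hd).2; omega)
  -- bound for the exceptional elements
  have hfin : (⋃ d ∈ D, {a ∈ S | (i : ℝ) / N ≤ Int.fract ((a : ℝ) / d) ∧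
    Int.fract ((a : ℝ) / d) < ((i : ℝ) + 1) / N}).Finite :=
    Set.Finite.biUnion (Finset.finite_toSet D) (fun d hd => (hD d hd).1)
  obtain ⟨B, hB⟩ := hfin.bddAbove
  have hev : ∀ᶠ x : ℕ in atTop, (B : ℝ) + 1 ≤ κ * x := by
    have : Tendsto (fun x : ℕ => κ * (x : ℝ)) atTop atTop :=
      Tendsto.const_mul_atTop hκ tendsto_natCast_atTop_atTop
    exact this.eventually_ge_atTop _
  filter_upwards [hev, eventually_ge_atTop M] with x hx hxM
  have hinj : Set.InjOn (fun d : ℕ => 1 / (d : ℝ)) (D : Set ℕ) := by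
    intro d hd d' hd' heq
    simp only [one_div, inv_inj] at heq
    exact_mod_cast heq
  refine ⟨D.image (fun d : ℕ => 1 / (d : ℝ)), ?_, ?_, ?_⟩
  · rw [Finset.card_image_of_injOn hinj, hDcard]
    omega
  · apply spread_moduli D x J (fun d hd => (hD d hd).2)
    intro d hd d' hd' _
    refine le_trans (Nat.le_of_dvd hMpos ?_) hxM
    exact Nat.lcm_dvd (Finset.dvd_prod_of_mem _ hd) (Finset.dvd_prod_of_mem _ hd')
  · intro a haS hax _
    apply Uneven.image hinj
    have hN1 : ((i : ℝ) + 1) ≤ N := by exact_mod_cast hiN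
    refine ⟨(i : ℝ) / N, ((i : ℝ) + 1) / N, by positivity, ?_, ?_, ?_⟩
    · gcongr
      linarith
    · rw [div_le_one hNr]
      exact hN1
    · have h0 : cnt D (fun d : ℕ => (a : ℝ) * (1 / (d : ℝ))) ((i : ℝ) / N) (((i : ℝ) + 1) / N)
          = 0 := by
        unfold cnt
        rw [Finset.card_eq_zero, Finset.filter_eq_empty_iff]
        intro d hd hcon
        simp_rw [mul_one_div] at hcon
        have h2 : a ∈ ⋃ d ∈ D, {a ∈ S | (i : ℝ) / N ≤ Int.fract ((a : ℝ) / d) ∧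
            Int.fract ((a : ℝ) / d) < ((i : ℝ) + 1) / N} := by
          rw [Set.mem_iUnion₂]
          exact ⟨d, hd, haS, hcon⟩
        have h3 : (a : ℝ) ≤ B := by exact_mod_cast hB h2
        linarith
      rw [h0, Nat.cast_zero, zero_sub, abs_neg, ← sub_div, abs_of_nonneg (by
        have : (0 : ℝ) ≤ D.card := by positivity
        apply mul_nonneg _ this
        apply div_nonneg _ hNr.le
        linarith)]
      apply le_of_eq
      ring

/-- if `a n ≤ C n ^ 2` and few elements of `A` lie outside `S`, many elements lie in `S` -/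
lemma growth_part (A S : Set ℕ) (hA : A.Infinite) (C : ℝ)
    (hC : ∀ n : ℕ, 1 ≤ n → (Nat.nth (fun a => a ∈ A) (n - 1) : ℝ) ≤ C * (n : ℝ) ^ 2)
    (hE : ∀ᶠ x : ℕ in atTop, C * (2 * (((A \ S) ∩ Set.Iic x).ncard : ℝ)) ^ 2 ≤ x) :
    0 < C ∧ ∀ᶠ x : ℕ in atTop, (x : ℝ) ≤ 16 * C * ((A ∩ S ∩ Set.Iic x).ncard : ℝ) ^ 2 := by
  classical
  have hmono : StrictMono (Nat.nth (fun a => a ∈ A)) := Nat.nth_strictMono hA
  have hC0 : 0 < C := by
    have h1 := hC 2 (by norm_num)
    have h2 : 0 < Nat.nth (fun a => a ∈ A) 1 := lt_of_le_of_lt (Nat.zero_le _) (hmono one_pos)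
    have h3 : (1 : ℝ) ≤ (Nat.nth (fun a => a ∈ A) (2 - 1) : ℝ) := by
      exact_mod_cast h2
    push_cast at h1
    linarith
  refine ⟨hC0, ?_⟩
  filter_upwards [hE, eventually_ge_atTop (⌈16 * C⌉₊)] with x hx hx2
  have hx0 : (0 : ℝ) ≤ x := by positivity
  have hx16 : 16 * C ≤ x := le_trans (Nat.le_ceil _) (by exact_mod_cast hx2)
  set y : ℝ := Real.sqrt (x / C) with hy
  have hy0 : 0 ≤ y := Real.sqrt_nonneg _
  have hy2 : y ^ 2 = x / C := Real.sq_sqrt (by positivity)
  have hyx : C * y ^ 2 = x := by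
    rw [hy2]
    field_simp
  have hy4 : 4 ≤ y := by
    rw [hy]
    apply Real.le_sqrt_of_sq_le
    rw [le_div_iff₀ hC0]
    linarith
  set t : ℝ := ((A ∩ S ∩ Set.Iic x).ncard : ℝ) with ht
  set e : ℝ := (((A \ S) ∩ Set.Iic x).ncard : ℝ) with he
  have ht0 : 0 ≤ t := by positivity
  have he0 : 0 ≤ e := by positivity
  have hsplit : ((A ∩ Set.Iic x).ncard : ℝ) ≤ t + e := by
    have : A ∩ Set.Iic x ⊆ (A ∩ S ∩ Set.Iic x) ∪ ((A \ S) ∩ Set.Iic x) := by
      intro a ha
      by_cases haS : a ∈ S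
      · exact Or.inl ⟨⟨ha.1, haS⟩, ha.2⟩
      · exact Or.inr ⟨⟨ha.1, haS⟩, ha.2⟩
    have hfin : ((A ∩ S ∩ Set.Iic x) ∪ ((A \ S) ∩ Set.Iic x)).Finite :=
      Set.Finite.union ((Set.finite_Iic x).inter_of_right _) ((Set.finite_Iic x).inter_of_right _)
    have h2 := le_trans (Set.ncard_le_ncard this hfin) (Set.ncard_union_le _ _)
    rw [ht, he]
    exact_mod_cast h2
  have h2e : 2 * e ≤ y := by
    have h1 : (2 * e) ^ 2 ≤ y ^ 2 := by
      rw [hy2, le_div_iff₀ hC0]
      linarith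
    exact (pow_le_pow_iff_left₀ (by positivity) hy0 (by norm_num)).1 h1
  -- lower bound for the counting function
  have hcount : y - 1 ≤ ((A ∩ Set.Iic x).ncard : ℝ) := by
    set n : ℕ := ⌊y⌋₊ with hn
    have hn1 : (n : ℝ) ≤ y := Nat.floor_le hy0
    have hn2 : y < n + 1 := Nat.lt_floor_add_one y
    have h3 : n ≤ (A ∩ Set.Iic x).ncard := by
      have h4 : (((Finset.range n).image (Nat.nth (fun a => a ∈ A)) : Finset ℕ) : Set ℕ) ⊆
          A ∩ Set.Iic x := by
        intro b hb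
        rw [Finset.mem_coe, Finset.mem_image] at hb
        obtain ⟨j, hj, rfl⟩ := hb
        rw [Finset.mem_range] at hj
        refine ⟨Nat.nth_mem_of_infinite hA j, ?_⟩
        rw [Set.mem_Iic]
        have h5 := hC n (by omega)
        have h6 : (Nat.nth (fun a => a ∈ A) (n - 1) : ℝ) ≤ x := by
          refine le_trans h5 ?_
          rw [← hyx]
          apply mul_le_mul_of_nonneg_left _ hC0.le
          exact pow_le_pow_left₀ (by positivity) hn1 2
        have h7 : Nat.nth (fun a => a ∈ A) (n - 1) ≤ x := by exact_mod_cast h6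
        exact le_trans (hmono.monotone (by omega)) h7
      have h5 := Set.ncard_le_ncard h4 ((Set.finite_Iic x).inter_of_right _)
      rwa [Set.ncard_coe_finset, Finset.card_image_of_injective _ hmono.injective,
        Finset.card_range] at h5
    have : (n : ℝ) ≤ ((A ∩ Set.Iic x).ncard : ℝ) := by exact_mod_cast h3
    linarith
  have h1 : y ≤ 4 * t := by linarith
  calc (x : ℝ) = C * y ^ 2 := hyx.symm
    _ ≤ C * (4 * t) ^ 2 := by
        apply mul_le_mul_of_nonneg_left _ hC0.le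
        exact pow_le_pow_left₀ hy0 h1 2
    _ = _ := by ring

/-- **Sets with `a n ≤ C n ^ 2` and many abnormal elements have representation functions of
logarithmic growth.** -/
theorem abnormal_growth (g s : ℕ) (hg : 2 ≤ g) (ε : ℝ) (hε : 0 < ε)
    (A : Set ℕ) (hA : A.Infinite) (C : ℝ)
    (hC : ∀ n : ℕ, 1 ≤ n → (Nat.nth (fun a => a ∈ A) (n - 1) : ℝ) ≤ C * (n : ℝ) ^ 2)
    (hE : ∀ᶠ x : ℕ in atTop,
      C * (2 * (((A \ AbnormalDigits g s id ε) ∩ Set.Iic x).ncard : ℝ)) ^ 2 ≤ x) :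
    ∃ c : ℝ, 0 < c ∧ ∃ᶠ n : ℕ in atTop, c * Real.log n ≤ (rep A n : ℝ) := by
  have hgr : (2 : ℝ) ≤ g := by exact_mod_cast hg
  obtain ⟨hC0, hpart⟩ := growth_part A (AbnormalDigits g s id ε) hA C hC hE
  obtain ⟨C', hC', hquant⟩ := irregular_sets_two (fun j => (g : ℝ) ^ (id j + s)) 2 (by positivity)
    (by norm_num) (by
      intro j
      calc 2 * (g : ℝ) ^ (id j + s) ≤ g * (g : ℝ) ^ (id j + s) := by
            apply mul_le_mul_of_nonneg_right hgr (by positivity)
        _ = (g : ℝ) ^ (id (j + 1) + s) := by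
            rw [← pow_succ']
            congr 1
            simp only [id]
            ring) ε hε
  obtain ⟨c, hc, hnum⟩ := numLE_log g s hg
  refine ⟨c / (C' * (16 * C)) / 2, by positivity, ?_⟩
  apply frequently_log (fun n => rep A n) 2 (by norm_num) (c / (C' * (16 * C))) (by positivity)
  filter_upwards [hpart, hquant, hnum, eventually_gt_atTop 0] with x h1 h2 h3 hx0
  obtain ⟨n, hn, h4⟩ := h2 A
  refine ⟨n, hn, ?_⟩
  have hxr : (0 : ℝ) < x := by exact_mod_cast hx0
  set N : ℝ := (numLE (fun j => (g : ℝ) ^ (id j + s)) x : ℝ) with hN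
  have hN0 : 0 ≤ N := by positivity
  have hsub : ((A ∩ AbnormalDigits g s id ε ∩ Set.Iic x).ncard : ℝ) ≤
      ((A ∩ Irregular (fun j => (g : ℝ) ^ (id j + s)) ε ∩ Set.Iic x).ncard : ℝ) := by
    have : A ∩ AbnormalDigits g s id ε ∩ Set.Iic x ⊆
        A ∩ Irregular (fun j => (g : ℝ) ^ (id j + s)) ε ∩ Set.Iic x := by
      intro a ha
      exact ⟨⟨ha.1.1, abnormal_subset g s hg id ε ha.1.2⟩, ha.2⟩
    exact_mod_cast Set.ncard_le_ncard this ((Set.finite_Iic x).inter_of_right _)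
  have h5 : N * x ≤ 16 * C * (C' * x * (rep A n : ℝ)) := by
    calc N * x ≤ N * (16 * C * ((A ∩ AbnormalDigits g s id ε ∩ Set.Iic x).ncard : ℝ) ^ 2) :=
          mul_le_mul_of_nonneg_left h1 hN0
      _ ≤ N * (16 * C *
          ((A ∩ Irregular (fun j => (g : ℝ) ^ (id j + s)) ε ∩ Set.Iic x).ncard : ℝ) ^ 2) := by
          gcongr
      _ = 16 * C * (N *
          ((A ∩ Irregular (fun j => (g : ℝ) ^ (id j + s)) ε ∩ Set.Iic x).ncard : ℝ) ^ 2) := by
          ring
      _ ≤ _ := mul_le_mul_of_nonneg_left h4 (by positivity)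
  have h6 : N ≤ 16 * C * C' * (rep A n : ℝ) := by
    have : N * x ≤ (16 * C * C' * (rep A n : ℝ)) * x := by
      refine le_trans h5 (le_of_eq ?_)
      ring
    exact le_of_mul_le_mul_right this hxr
  rw [div_mul_eq_mul_div, div_le_iff₀ (by positivity)]
  have h7 : c * Real.log x ≤ 16 * C * C' * (rep A n : ℝ) := h3.trans h6
  refine le_trans h7 (le_of_eq ?_)
  ring

lemma rep_mono {A A' : Set ℕ} (hA : A' ⊆ A) (n : ℕ) : rep A' n ≤ rep A n := by
  unfold rep
  apply Set.ncard_le_ncard _ (rep_finite A n)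
  intro p hp
  exact ⟨hA hp.1, hA hp.2.1, hp.2.2⟩

lemma msets_mono {A A' : Set ℕ} (hA : A' ⊆ A) (h n : ℕ) :
    (msets A' h n).ncard ≤ (msets A h n).ncard := by
  apply Set.ncard_le_ncard _ (msets_finite A h n)
  intro s hs
  exact ⟨hs.1, fun a ha => hA (hs.2.1 a ha), hs.2.2⟩

end Pool.Agent.H78R2.ET
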