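import Mathlib
import Pool.Agent.H78R2.ET.IrrExp
import Pool.Agent.H78R2.ET.More

set_option autoImplicit false

open Finset Filter Topology

namespace Pool.Agent.H78R2.ET

open Pool.Agent.H380R2

lemma numLE_unbounded (u : ℕ → ℝ) (q : ℝ) (hu0 : 0 < u 0) (hq : 1 < q)
    (hu : ∀ j, q * u j ≤ u (j + 1)) (N : ℕ) : ∀ᶠ x : ℕ in atTop, N ≤ numLE u x := by
  have hmono := lac_mono hu0 hq hu
  have hev : ∀ᶠ x : ℕ in atTop, u N ≤ x :=
    tendsto_natCast_atTop_atTop.eventually_ge_atTop _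
  filter_upwards [hev] with x hx
  unfold numLE
  obtain ⟨m, hm⟩ := lac_unb hu0 hq hu x
  have hfin : {j : ℕ | u j ≤ x}.Finite := by
    apply Set.Finite.subset (Set.finite_Iic m)
    intro i hi
    rw [Set.mem_ofPred_eq] at hi
    rw [Set.mem_Iic]
    by_contra hcon
    push Not at hcon
    have := hmono hcon
    linarith
  have hsub : ((Finset.range N : Finset ℕ) : Set ℕ) ⊆ {j : ℕ | u j ≤ x} := by
    intro i hi
    rw [Finset.coe_range, Set.mem_Iio] at hi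
    rw [Set.mem_ofPred_eq]
    exact (hmono hi).le.trans hx
  have := Set.ncard_le_ncard hsub hfin
  rwa [Set.ncard_coe_finset, Finset.card_range] at this

lemma absorb (u : ℕ → ℝ) (q : ℝ) (hu0 : 0 < u 0) (hq : 1 < q)
    (hu : ∀ j, q * u j ≤ u (j + 1)) (c C : ℝ) (hc : 0 < c) :
    ∀ᶠ x : ℕ in atTop, C ≤ Real.exp (c * numLE u x) := by
  obtain ⟨N, hN⟩ := exists_nat_gt (C / c)
  filter_upwards [numLE_unbounded u q hu0 hq hu N] with x hx
  rw [div_lt_iff₀ hc] at hN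
  have h1 : (N : ℝ) ≤ numLE u x := by exact_mod_cast hx
  have h2 := Real.add_one_le_exp (c * numLE u x)
  have h3 : N * c ≤ numLE u x * c := mul_le_mul_of_nonneg_right h1 hc.le
  linarith

/-- **Few elements are irregular, unless the representation function is large**
(order `h`, unordered representations). -/
theorem irr_sets (h : ℕ) (hh : 1 ≤ h) (u : ℕ → ℝ) (q ε : ℝ) (hu0 : 0 < u 0) (hq : 1 < q)
    (hu : ∀ j, q * u j ≤ u (j + 1)) (hε : 0 < ε) :
    ∃ c : ℝ, 0 < c ∧ ∀ᶠ x : ℕ in atTop, ∀ A : Set ℕ, ∃ n, n ≤ h * x ∧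
      ((A ∩ Irregular u ε ∩ Set.Iic x).ncard : ℝ) ^ h *
        Real.exp (c * {j : ℕ | u j ≤ x}.ncard) ≤ x * (msets A h n).ncard := by
  obtain ⟨n', rfl⟩ : ∃ n', h = n' + 1 := ⟨h - 1, by omega⟩
  obtain ⟨c, hc, hev⟩ := irregular_exp n' u q hu0 hq hu ε hε
  refine ⟨c / 2, by positivity, ?_⟩
  filter_upwards [hev, absorb u q hu0 hq hu (c / 2) (((n' + 1) ^ (n' + 1) : ℕ) : ℝ)
    (by positivity)] with x hx hab A
  obtain ⟨n, hn, hmult⟩ := exists_mult A (n' + 1) x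
  refine ⟨n, hn, ?_⟩
  rw [ncard_trunc]
  have h1 := hx ((n' + 1) ^ (n' + 1) * (msets A (n' + 1) n).ncard)
    (trunc (A ∩ Irregular u ε) x) (by
    intro a ha
    rw [mem_trunc] at ha
    exact ⟨ha.2.2, ha.1⟩) (hmult _ (by
    intro a ha
    rw [mem_trunc] at ha
    exact ⟨ha.2.1, ha.1⟩))
  have hJeq : (({j : ℕ | u j ≤ x}.ncard : ℕ) : ℝ) = (numLE u x : ℝ) := rfl
  rw [hJeq]
  set J : ℝ := (numLE u x : ℝ) with hJ
  set W : ℝ := ((trunc (A ∩ Irregular u ε) x).card : ℝ) ^ (n' + 1) with hW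
  have hW0 : 0 ≤ W := by positivity
  have h2 : Real.exp (c * J) = Real.exp (c / 2 * J) * Real.exp (c / 2 * J) := by
    rw [← Real.exp_add]
    congr 1
    ring
  have h3 : Real.exp (c / 2 * J) * (W * Real.exp (c / 2 * J)) ≤
      Real.exp (c / 2 * J) * (x * (msets A (n' + 1) n).ncard) := by
    calc _ = W * Real.exp (c * J) := by rw [h2]; ring
      _ ≤ (((n' + 1) ^ (n' + 1) * (msets A (n' + 1) n).ncard : ℕ) : ℝ) * x := h1
      _ = (((n' + 1) ^ (n' + 1) : ℕ) : ℝ) * (x * (msets A (n' + 1) n).ncard) := by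
          push_cast
          ring
      _ ≤ _ := mul_le_mul_of_nonneg_right hab (by positivity)
  exact le_of_mul_le_mul_left h3 (Real.exp_pos _)

/-- the same for ordered pairs -/
theorem irr_sets_two (u : ℕ → ℝ) (q ε : ℝ) (hu0 : 0 < u 0) (hq : 1 < q)
    (hu : ∀ j, q * u j ≤ u (j + 1)) (hε : 0 < ε) :
    ∃ c : ℝ, 0 < c ∧ ∀ᶠ x : ℕ in atTop, ∀ A : Set ℕ, ∃ n, n ≤ 2 * x ∧
      ((A ∩ Irregular u ε ∩ Set.Iic x).ncard : ℝ) ^ 2 *
        Real.exp (c * {j : ℕ | u j ≤ x}.ncard) ≤ x * (rep A n : ℝ) := by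
  obtain ⟨c, hc, hev⟩ := irregular_exp 1 u q hu0 hq hu ε hε
  refine ⟨c, hc, ?_⟩
  filter_upwards [hev] with x hx A
  obtain ⟨n, hn, hmult⟩ := exists_mult_two A x
  refine ⟨n, hn, ?_⟩
  rw [ncard_trunc]
  have h1 := hx (rep A n) (trunc (A ∩ Irregular u ε) x) (by
    intro a ha
    rw [mem_trunc] at ha
    exact ⟨ha.2.2, ha.1⟩) (hmult _ (by
    intro a ha
    rw [mem_trunc] at ha
    exact ⟨ha.2.1, ha.1⟩))
  rw [mul_comm (x : ℝ)]
  exact h1

lemma pow_lac (β : ℝ) (hβ : 1 < β) (j : ℕ) : β * β ^ j ≤ β ^ (j + 1) := by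
  rw [pow_succ']

/-- the exponential factor is a power of `x` for `u j = β ^ j` -/
lemma exp_numLE (β : ℝ) (hβ : 1 < β) (c : ℝ) (hc : 0 < c) :
    ∃ δ : ℝ, 0 < δ ∧ ∀ᶠ x : ℕ in atTop,
      (x : ℝ) ^ δ ≤ Real.exp (c * {j : ℕ | β ^ j ≤ (x : ℝ)}.ncard) := by
  have hlb : 0 < Real.log β := Real.log_pos hβ
  have hβ0 : 0 < β := by linarith
  refine ⟨c / Real.log β, by positivity, ?_⟩
  filter_upwards [eventually_gt_atTop 0] with x hx0
  have hxr : (0 : ℝ) < x := by exact_mod_cast hx0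
  have hx1 : (1 : ℝ) ≤ x := by exact_mod_cast hx0
  rw [Real.rpow_def_of_pos hxr]
  apply Real.exp_le_exp.2
  set L : ℕ := ⌊Real.log x / Real.log β⌋₊ with hL
  have hlogx : 0 ≤ Real.log x := Real.log_nonneg hx1
  have h1 : (L : ℝ) ≤ Real.log x / Real.log β := Nat.floor_le (by positivity)
  have h2 : Real.log x / Real.log β < L + 1 := Nat.lt_floor_add_one _
  obtain ⟨m, hm⟩ := pow_unbounded_of_one_lt (x : ℝ) hβ
  have hfin : {j : ℕ | β ^ j ≤ (x : ℝ)}.Finite := by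
    apply Set.Finite.subset (Set.finite_Iic m)
    intro i hi
    rw [Set.mem_ofPred_eq] at hi
    rw [Set.mem_Iic]
    by_contra hcon
    push Not at hcon
    have := pow_lt_pow_right₀ hβ hcon
    linarith
  have hsub : ((Finset.range (L + 1) : Finset ℕ) : Set ℕ) ⊆ {j : ℕ | β ^ j ≤ (x : ℝ)} := by
    intro i hi
    rw [Finset.coe_range, Set.mem_Iio] at hi
    rw [Set.mem_ofPred_eq]
    have h3 : (i : ℝ) ≤ L := by
      have : i ≤ L := by omega
      exact_mod_cast this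
    have h4 : i * Real.log β ≤ Real.log x := by
      have h5 : (i : ℝ) ≤ Real.log x / Real.log β := h3.trans h1
      rwa [le_div_iff₀ hlb] at h5
    rw [← Real.log_pow] at h4
    exact (Real.log_le_log_iff (by positivity) hxr).1 h4
  have h3 := Set.ncard_le_ncard hsub hfin
  rw [Set.ncard_coe_finset, Finset.card_range] at h3
  have h4 : (L : ℝ) + 1 ≤ (({j : ℕ | β ^ j ≤ (x : ℝ)}.ncard : ℕ) : ℝ) := by exact_mod_cast h3
  calc Real.log x * (c / Real.log β) = c * (Real.log x / Real.log β) := by ring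
    _ ≤ c * (({j : ℕ | β ^ j ≤ (x : ℝ)}.ncard : ℕ) : ℝ) :=
        mul_le_mul_of_nonneg_left (by linarith) hc.le

/-- passage from `max_{n ≤ h x} f n ≥ x ^ c` for arbitrarily large `x` to infinitely many `n` with
`f n ≥ n ^ δ` -/
lemma frequently_pow (f : ℕ → ℕ) (h : ℕ) (c : ℝ) (hc : 0 < c)
    (hf : ∃ᶠ x : ℕ in atTop, ∃ n, n ≤ h * x ∧ (x : ℝ) ^ c ≤ f n) :
    ∃ᶠ n : ℕ in atTop, (n : ℝ) ^ (c / 2) ≤ f n := by
  rw [Filter.frequently_atTop]
  intro N
  set B : ℕ := ∑ n ∈ range (N + 1), f n with hB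
  have hlarge : ∀ᶠ x : ℕ in atTop, (B : ℝ) + 1 ≤ (x : ℝ) ^ c :=
    ((tendsto_rpow_atTop hc).comp tendsto_natCast_atTop_atTop).eventually_ge_atTop _
  obtain ⟨x, ⟨n, hn, hfn⟩, hx1, hx2, hx3⟩ := (hf.and_eventually
    (hlarge.and ((eventually_ge_atTop h).and (eventually_gt_atTop 0)))).exists
  have hnN : N ≤ n := by
    by_contra hcon
    push Not at hcon
    have h1 : f n ≤ B :=
      Finset.single_le_sum (f := f) (fun _ _ => Nat.zero_le _) (Finset.mem_range.2 (by omega))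
    have h2 : (f n : ℝ) ≤ B := by exact_mod_cast h1
    linarith
  refine ⟨n, hnN, ?_⟩
  have hxr : (0 : ℝ) < x := by exact_mod_cast hx3
  have h1 : (n : ℝ) ≤ (x : ℝ) ^ 2 := by
    have : n ≤ x ^ 2 := by nlinarith
    exact_mod_cast this
  calc (n : ℝ) ^ (c / 2) ≤ ((x : ℝ) ^ 2) ^ (c / 2) :=
        Real.rpow_le_rpow (by positivity) h1 (by positivity)
    _ = (x : ℝ) ^ c := by
        rw [← Real.rpow_natCast, ← Real.rpow_mul hxr.le]
        congr 1
        push_cast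
        ring
    _ ≤ _ := hfn

/-- the common argument for the power bounds -/
lemma power_step (N : Set ℕ) (h : ℕ) (J : ℕ → ℕ) (c δ' : ℝ) (hδ' : 0 < δ')
    (f : Set ℕ → ℕ → ℕ)
    (hev : ∀ᶠ x : ℕ in atTop, ∀ A : Set ℕ, ∃ n, n ≤ h * x ∧
      ((A ∩ N ∩ Set.Iic x).ncard : ℝ) ^ h * Real.exp (c * J x) ≤ x * (f A n))
    (hev' : ∀ᶠ x : ℕ in atTop, (x : ℝ) ^ δ' ≤ Real.exp (c * J x)) (A : Set ℕ)
    (hA : ∃ᶠ x : ℕ in atTop, (x : ℝ) ^ (1 - δ' / 4) ≤ ((A ∩ N ∩ Set.Iic x).ncard : ℝ) ^ h) :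
    ∃ᶠ n : ℕ in atTop, (n : ℝ) ^ (δ' / 4) ≤ f A n := by
  have h1 : ∃ᶠ x : ℕ in atTop, ∃ n, n ≤ h * x ∧ (x : ℝ) ^ (δ' / 2) ≤ f A n := by
    refine (hA.and_eventually (hev.and (hev'.and (eventually_gt_atTop 0)))).mono ?_
    rintro x ⟨hx1, hx2, hx3, hx0⟩
    obtain ⟨n, hn, hx4⟩ := hx2 A
    refine ⟨n, hn, ?_⟩
    have hxr : (0 : ℝ) < x := by exact_mod_cast hx0
    have hx1' : (1 : ℝ) ≤ x := by exact_mod_cast hx0
    have h2 : (x : ℝ) ^ (1 - δ' / 4) * (x : ℝ) ^ δ' ≤ x * f A n := by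
      refine le_trans ?_ hx4
      apply mul_le_mul hx1 hx3 (by positivity) (by positivity)
    rw [← Real.rpow_add hxr] at h2
    have h3 : (x : ℝ) ^ (1 - δ' / 4 + δ') = x * (x : ℝ) ^ (3 * δ' / 4) := by
      have : 1 - δ' / 4 + δ' = 1 + 3 * δ' / 4 := by ring
      rw [this, Real.rpow_add hxr, Real.rpow_one]
    rw [h3] at h2
    have h4 := le_of_mul_le_mul_left h2 hxr
    refine le_trans ?_ h4
    apply Real.rpow_le_rpow_of_exponent_le hx1'
    linarith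
  have h2 := frequently_pow (fun n => f A n) h (δ' / 2) (by positivity) h1
  have h3 : δ' / 2 / 2 = δ' / 4 := by ring
  rw [h3] at h2
  exact h2

/-- **Power bound** (order `h`, unordered representations). -/
theorem irr_power (h : ℕ) (hh : 1 ≤ h) (β ε : ℝ) (hβ : 1 < β) (hε : 0 < ε) :
    ∃ δ : ℝ, 0 < δ ∧ ∀ A : Set ℕ,
      (∃ᶠ x : ℕ in atTop, (x : ℝ) ^ (1 - δ) ≤
        ((A ∩ Irregular (fun j => β ^ j) ε ∩ Set.Iic x).ncard : ℝ) ^ h) →
      ∃ᶠ n : ℕ in atTop, (n : ℝ) ^ δ ≤ (msets A h n).ncard := by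
  obtain ⟨c, hc, hev⟩ := irr_sets h hh (fun j => β ^ j) β ε (by simp) hβ (pow_lac β hβ) hε
  obtain ⟨δ', hδ', hev'⟩ := exp_numLE β hβ c hc
  exact ⟨δ' / 4, by positivity, power_step _ h _ c δ' hδ' (fun A n => (msets A h n).ncard)
    hev hev'⟩

/-- **Power bound** (ordered pairs). -/
theorem irr_power_two (β ε : ℝ) (hβ : 1 < β) (hε : 0 < ε) :
    ∃ δ : ℝ, 0 < δ ∧ ∀ A : Set ℕ,
      (∃ᶠ x : ℕ in atTop, (x : ℝ) ^ (1 - δ) ≤
        ((A ∩ Irregular (fun j => β ^ j) ε ∩ Set.Iic x).ncard : ℝ) ^ 2) →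
      ∃ᶠ n : ℕ in atTop, (n : ℝ) ^ δ ≤ (rep A n : ℝ) := by
  obtain ⟨c, hc, hev⟩ := irr_sets_two (fun j => β ^ j) β ε (by simp) hβ (pow_lac β hβ) hε
  obtain ⟨δ', hδ', hev'⟩ := exp_numLE β hβ c hc
  exact ⟨δ' / 4, by positivity, power_step _ 2 _ c δ' hδ' (fun A n => rep A n) hev hev'⟩

/-- bases inside a set of irregular integers -/
theorem irr_power_basis (h : ℕ) (hh : 1 ≤ h) (β ε : ℝ) (hβ : 1 < β) (hε : 0 < ε) :
    ∃ δ : ℝ, 0 < δ ∧ ∀ A : Set ℕ,
      ((∃ᶠ x : ℕ in atTop, (x : ℝ) ^ (1 - δ) ≤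
        ((A ∩ Irregular (fun j => β ^ j) ε ∩ Set.Iic x).ncard : ℝ) ^ h) →
        ∃ᶠ n : ℕ in atTop, (n : ℝ) ^ δ ≤ (msets A h n).ncard) ∧
      ((∀ᶠ n in atTop, msets A h n ≠ ∅) → A ⊆ Irregular (fun j => β ^ j) ε →
        ∃ᶠ n : ℕ in atTop, (n : ℝ) ^ δ ≤ (msets A h n).ncard) := by
  obtain ⟨δ, hδ, hpow⟩ := irr_power h hh β ε hβ hε
  refine ⟨δ, hδ, fun A => ⟨hpow A, ?_⟩⟩
  intro hA hsub
  apply hpow A
  apply Filter.Eventually.frequently
  obtain ⟨n₀, hn₀⟩ := eventually_atTop.1 hA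
  have hlarge : ∀ᶠ x : ℕ in atTop, (2 : ℝ) ≤ (x : ℝ) ^ δ :=
    ((tendsto_rpow_atTop hδ).comp tendsto_natCast_atTop_atTop).eventually_ge_atTop _
  filter_upwards [hlarge, eventually_ge_atTop (2 * n₀ + 1)] with x hx hx2
  have hxr : (0 : ℝ) < x := by
    have : 0 < x := by omega
    exact_mod_cast this
  have hinter : A ∩ Irregular (fun j => β ^ j) ε = A := Set.inter_eq_left.2 hsub
  rw [hinter, ncard_trunc]
  have h1 := basis_count A h n₀ (fun n hn => hn₀ n hn) x (by omega)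
  refine le_trans ?_ h1
  have h2 : (2 : ℝ) * n₀ + 1 ≤ x := by exact_mod_cast hx2
  have h3 : (x : ℝ) ^ (1 - δ) ≤ x / 2 := by
    rw [Real.rpow_sub hxr, Real.rpow_one]
    exact div_le_div_of_nonneg_left hxr.le (by norm_num) hx
  linarith

/-- Q2, in stronger form, inside a set of irregular integers (ordered pairs) -/
theorem irr_power_growth (β ε : ℝ) (hβ : 1 < β) (hε : 0 < ε) :
    ∃ δ : ℝ, 0 < δ ∧ ∀ A : Set ℕ,
      ((∃ᶠ x : ℕ in atTop, (x : ℝ) ^ (1 - δ) ≤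
        ((A ∩ Irregular (fun j => β ^ j) ε ∩ Set.Iic x).ncard : ℝ) ^ 2) →
        ∃ᶠ n : ℕ in atTop, (n : ℝ) ^ δ ≤ (rep A n : ℝ)) ∧
      (A.Infinite → A ⊆ Irregular (fun j => β ^ j) ε →
        (∃ C : ℝ, ∃ᶠ n : ℕ in atTop,
          (Nat.nth (fun a => a ∈ A) (n - 1) : ℝ) ≤ C * (n : ℝ) ^ (2 + δ)) →
        ∃ᶠ n : ℕ in atTop, (n : ℝ) ^ δ ≤ (rep A n : ℝ)) := by
  obtain ⟨δ, hδ, hpow⟩ := irr_power_two β ε hβ hε
  -- we use a smaller exponent
  set η : ℝ := min (δ / 2) 1 with hη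
  have hη0 : 0 < η := lt_min (by positivity) one_pos
  have hηδ : η ≤ δ / 2 := min_le_left _ _
  have hη1 : η ≤ 1 := min_le_right _ _
  have hfirst : ∀ A : Set ℕ, (∃ᶠ x : ℕ in atTop, (x : ℝ) ^ (1 - η) ≤
        ((A ∩ Irregular (fun j => β ^ j) ε ∩ Set.Iic x).ncard : ℝ) ^ 2) →
        ∃ᶠ n : ℕ in atTop, (n : ℝ) ^ η ≤ (rep A n : ℝ) := by
    intro A hA
    have h1 := hpow A ((hA.and_eventually (eventually_gt_atTop 0)).mono (by
      rintro x ⟨hx, hx0⟩
      have hx1 : (1 : ℝ) ≤ x := by exact_mod_cast hx0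
      refine le_trans ?_ hx
      apply Real.rpow_le_rpow_of_exponent_le hx1
      linarith))
    refine (h1.and_eventually (eventually_gt_atTop 0)).mono ?_
    rintro n ⟨hn, hn0⟩
    have hn1 : (1 : ℝ) ≤ n := by exact_mod_cast hn0
    refine le_trans ?_ hn
    apply Real.rpow_le_rpow_of_exponent_le hn1
    linarith
  refine ⟨η / 4, by positivity, ?_⟩
  intro A
  constructor
  · intro hA
    have h1 := hfirst A ((hA.and_eventually (eventually_gt_atTop 0)).mono (by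
      rintro x ⟨hx, hx0⟩
      have hx1 : (1 : ℝ) ≤ x := by exact_mod_cast hx0
      refine le_trans ?_ hx
      apply Real.rpow_le_rpow_of_exponent_le hx1
      linarith))
    refine (h1.and_eventually (eventually_gt_atTop 0)).mono ?_
    rintro n ⟨hn, hn0⟩
    have hn1 : (1 : ℝ) ≤ n := by exact_mod_cast hn0
    refine le_trans ?_ hn
    apply Real.rpow_le_rpow_of_exponent_le hn1
    linarith
  · rintro hinf hsub ⟨C, hC⟩
    have hmono : StrictMono (Nat.nth (fun a => a ∈ A)) := Nat.nth_strictMono hinf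
    have hinter : A ∩ Irregular (fun j => β ^ j) ε = A := Set.inter_eq_left.2 hsub
    have h1 : ∃ᶠ x : ℕ in atTop, (x : ℝ) ^ (1 - η) ≤
        ((A ∩ Irregular (fun j => β ^ j) ε ∩ Set.Iic x).ncard : ℝ) ^ 2 := by
      rw [Filter.frequently_atTop]
      intro N
      have hlarge : ∀ᶠ n : ℕ in atTop, (|C| + 1) ^ (2 : ℝ) ≤ (n : ℝ) ^ (η / 4) :=
        ((tendsto_rpow_atTop (by positivity)).comp
          tendsto_natCast_atTop_atTop).eventually_ge_atTop _
      obtain ⟨n, hnC, hn1, hn2⟩ := (hC.and_eventually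
        (hlarge.and (eventually_ge_atTop (N + 1)))).exists
      set x := Nat.nth (fun a => a ∈ A) (n - 1) with hx
      have hxn : n - 1 ≤ x := hmono.le_apply
      refine ⟨x, by omega, ?_⟩
      rw [hinter]
      have hcount : n ≤ (A ∩ Set.Iic x).ncard := by
        have h4 : (((Finset.range n).image (Nat.nth (fun a => a ∈ A)) : Finset ℕ) : Set ℕ) ⊆
            A ∩ Set.Iic x := by
          intro b hb
          rw [Finset.mem_coe, Finset.mem_image] at hb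
          obtain ⟨j, hj, rfl⟩ := hb
          rw [Finset.mem_range] at hj
          refine ⟨Nat.nth_mem_of_infinite hinf j, ?_⟩
          rw [Set.mem_Iic]
          exact hmono.monotone (by omega)
        have h5 := Set.ncard_le_ncard h4 ((Set.finite_Iic x).inter_of_right _)
        rwa [Set.ncard_coe_finset, Finset.card_image_of_injective _ hmono.injective,
          Finset.card_range] at h5
      have hcountr : (n : ℝ) ≤ ((A ∩ Set.Iic x).ncard : ℝ) := by exact_mod_cast hcount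
      have hnr : (1 : ℝ) ≤ n := by
        have : 1 ≤ n := by omega
        exact_mod_cast this
      have hn0 : (0 : ℝ) < n := by linarith
      have h2 : (x : ℝ) ^ (1 - η) ≤ (n : ℝ) ^ 2 := by
        have hxC : (x : ℝ) ≤ (|C| + 1) * (n : ℝ) ^ (2 + η / 4) := by
          refine le_trans hnC ?_
          apply mul_le_mul_of_nonneg_right _ (by positivity)
          have := le_abs_self C
          linarith
        have h3 : (x : ℝ) ^ (1 - η) ≤ ((|C| + 1) * (n : ℝ) ^ (2 + η / 4)) ^ (1 - η) :=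
          Real.rpow_le_rpow (by positivity) hxC (by linarith)
        rw [Real.mul_rpow (by positivity) (by positivity), ← Real.rpow_mul hn0.le] at h3
        have hC1 : (1 : ℝ) ≤ |C| + 1 := by
          have := abs_nonneg C
          linarith
        have h4 : (|C| + 1) ^ (1 - η) ≤ (n : ℝ) ^ (η / 4) := by
          refine le_trans ?_ hn1
          apply Real.rpow_le_rpow_of_exponent_le hC1
          linarith
        have h5 : (n : ℝ) ^ (η / 4) * (n : ℝ) ^ ((2 + η / 4) * (1 - η)) ≤ (n : ℝ) ^ 2 := by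
          rw [← Real.rpow_add hn0, ← Real.rpow_natCast]
          apply Real.rpow_le_rpow_of_exponent_le hnr
          push_cast
          nlinarith
        calc (x : ℝ) ^ (1 - η) ≤ _ := h3
          _ ≤ (n : ℝ) ^ (η / 4) * (n : ℝ) ^ ((2 + η / 4) * (1 - η)) :=
              mul_le_mul_of_nonneg_right h4 (by positivity)
          _ ≤ _ := h5
      refine h2.trans ?_
      exact pow_le_pow_left₀ hn0.le hcountr 2
    have h2 := hfirst A h1
    refine (h2.and_eventually (eventually_gt_atTop 0)).mono ?_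
    rintro n ⟨hn, hn0⟩
    have hn1 : (1 : ℝ) ≤ n := by exact_mod_cast hn0
    refine le_trans ?_ hn
    apply Real.rpow_le_rpow_of_exponent_le hn1
    linarith

end Pool.Agent.H78R2.ET
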