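import Mathlib
import Pool.Agent.H78R2.ET.Power

set_option autoImplicit false

open Finset Filter Topology

namespace Pool.Agent.H78R2.ET

open Pool.Agent.H380R2

/-- `g` forces unbounded representations for the sets `A` with the property `P`: every such `A`
with `|A ∩ [1,N]| ≥ c √N / g(N)` for some `c > 0` and all large `N` has unbounded `r_A`. -/
def ForcesFor (P : Set ℕ → Prop) (g : ℕ → ℝ) : Prop :=
  ∀ A : Set ℕ, P A →
    (∃ c : ℝ, 0 < c ∧ ∀ᶠ N : ℕ in atTop,
      c * Real.sqrt (N : ℝ) / g N ≤ ((A ∩ Set.Icc 1 N).ncard : ℝ)) →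
    ∀ M : ℕ, ∃ n : ℕ, M ≤ rep A n

/-- the hypothesis of the reduction -/
def Rare (g : ℕ → ℝ) (S : Set ℕ) : Prop :=
  ∀ (K : ℕ) (ε : ℝ), 0 < ε → ∀ᶠ x : ℕ in atTop, ∀ A : Set ℕ, (∀ n, rep A n ≤ K) →
    ((A ∩ S ∩ Set.Iic x).ncard : ℝ) * g x ≤ ε * Real.sqrt x

lemma Rare.mono {g : ℕ → ℝ} {S S' : Set ℕ} (h : Rare g S) (hS : S' ⊆ S)
    (hg : ∀ᶠ N : ℕ in atTop, 0 < g N) : Rare g S' := by
  intro K ε hε
  filter_upwards [h K ε hε, hg] with x hx hgx A hA
  refine le_trans ?_ (hx A hA)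
  apply mul_le_mul_of_nonneg_right _ hgx.le
  have : (A ∩ S' ∩ Set.Iic x).ncard ≤ (A ∩ S ∩ Set.Iic x).ncard := by
    apply Set.ncard_le_ncard _ ((Set.finite_Iic x).inter_of_right _)
    intro a ha
    exact ⟨⟨ha.1.1, hS ha.1.2⟩, ha.2⟩
  exact_mod_cast this

lemma Rare.of_le {g g' : ℕ → ℝ} {S : Set ℕ} (h : Rare g S)
    (hg : ∀ᶠ N : ℕ in atTop, g' N ≤ g N) : Rare g' S := by
  intro K ε hε
  filter_upwards [h K ε hε, hg] with x hx hgx A hA
  refine le_trans ?_ (hx A hA)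
  exact mul_le_mul_of_nonneg_left hgx (by positivity)

lemma rep_mono' {A B : Set ℕ} (h : A ⊆ B) (n : ℕ) : rep A n ≤ rep B n := by
  unfold rep
  apply Set.ncard_le_ncard _ (rep_finite B n)
  rintro p ⟨h1, h2, h3⟩
  exact ⟨h h1, h h2, h3⟩

lemma geom_bound (N : ℕ) : ∑ k ∈ range N, ((1 : ℝ) / 2) ^ k ≤ 2 := by
  have h := geom_sum_eq (x := (1 : ℝ) / 2) (by norm_num) N
  rw [h]
  have : (0 : ℝ) ≤ (1 / 2) ^ N := by positivity
  rw [div_le_iff_of_neg (by norm_num)]
  linarith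

/-- **Reduction.**  The members of a countable family of rare sets can be avoided, up to finitely
many elements. -/
theorem reduction (g : ℕ → ℝ) (hg : ∀ᶠ N : ℕ in atTop, 0 < g N) (S : ℕ → Set ℕ)
    (hS : ∀ k, Rare g (S k)) (K : ℕ) (A : Set ℕ) (hA : ∀ n, rep A n ≤ K) (c : ℝ) (hc : 0 < c) :
    ∃ B : Set ℕ, B ⊆ A ∧ (∀ k, (B ∩ S k).Finite) ∧ ∀ᶠ N : ℕ in atTop,
      (((A \ B) ∩ Set.Icc 1 N).ncard : ℝ) ≤ c * Real.sqrt N / g N := by
  classical
  have h1 : ∀ k : ℕ, ∃ x₀ : ℕ, ∀ x : ℕ, x₀ ≤ x →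
      ((A ∩ S k ∩ Set.Iic x).ncard : ℝ) * g x ≤ c / 2 * (1 / 2) ^ k * Real.sqrt x := by
    intro k
    obtain ⟨x₀, hx₀⟩ := eventually_atTop.1 (hS k K (c / 2 * (1 / 2) ^ k) (by positivity))
    exact ⟨x₀, fun x hx => hx₀ x hx A hA⟩
  choose X hX using h1
  set B : Set ℕ := A \ ⋃ k, (S k ∩ Set.Ioi (X k + k)) with hB
  refine ⟨B, Set.sdiff_subset, ?_, ?_⟩
  · intro k
    apply Set.Finite.subset (Set.finite_Iic (X k + k))
    rintro a ⟨⟨_, ha2⟩, ha3⟩
    rw [Set.mem_Iic]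
    by_contra hcon
    push Not at hcon
    exact ha2 (Set.mem_iUnion.2 ⟨k, ha3, hcon⟩)
  · filter_upwards [hg] with N hgN
    have hsub : (A \ B) ∩ Set.Icc 1 N ⊆
        ⋃ k ∈ (range N).filter (fun k => X k ≤ N), (A ∩ S k ∩ Set.Iic N) := by
      rintro a ⟨⟨ha1, ha2⟩, ha3⟩
      have ha4 : a ∈ ⋃ k, (S k ∩ Set.Ioi (X k + k)) := by
        by_contra hcon
        exact ha2 ⟨ha1, hcon⟩
      obtain ⟨k, hk1, hk2⟩ := Set.mem_iUnion.1 ha4
      rw [Set.mem_Ioi] at hk2
      rw [Set.mem_Icc] at ha3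
      rw [Set.mem_iUnion₂]
      refine ⟨k, ?_, ⟨ha1, hk1⟩, ha3.2⟩
      rw [Finset.mem_filter, Finset.mem_range]
      omega
    have h2 : ((A \ B) ∩ Set.Icc 1 N).ncard ≤
        ∑ k ∈ (range N).filter (fun k => X k ≤ N), (A ∩ S k ∩ Set.Iic N).ncard := by
      have hsub' : (A \ B) ∩ Set.Icc 1 N ⊆
        (((range N).filter (fun k => X k ≤ N)).biUnion (fun k => trunc (A ∩ S k) N) : Finset ℕ) := by
        intro a ha
        have := hsub ha
        rw [Set.mem_iUnion₂] at this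
        obtain ⟨k, hk, h3, h4⟩ := this
        rw [Finset.mem_coe, Finset.mem_biUnion]
        refine ⟨k, hk, ?_⟩
        rw [mem_trunc]
        exact ⟨h4, h3⟩
      refine le_trans (Set.ncard_le_ncard hsub' (Finset.finite_toSet _)) ?_
      rw [Set.ncard_coe_finset]
      refine le_trans Finset.card_biUnion_le ?_
      apply Finset.sum_le_sum
      intro k _
      rw [ncard_trunc]
    have h3 : (((A \ B) ∩ Set.Icc 1 N).ncard : ℝ) * g N ≤ c * Real.sqrt N := by
      calc (((A \ B) ∩ Set.Icc 1 N).ncard : ℝ) * g N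
          ≤ (∑ k ∈ (range N).filter (fun k => X k ≤ N), ((A ∩ S k ∩ Set.Iic N).ncard : ℝ)) *
              g N := by
            apply mul_le_mul_of_nonneg_right _ hgN.le
            exact_mod_cast h2
        _ = ∑ k ∈ (range N).filter (fun k => X k ≤ N),
              ((A ∩ S k ∩ Set.Iic N).ncard : ℝ) * g N := by rw [Finset.sum_mul]
        _ ≤ ∑ k ∈ (range N).filter (fun k => X k ≤ N), c / 2 * (1 / 2) ^ k * Real.sqrt N := by
            apply Finset.sum_le_sum
            intro k hk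
            rw [Finset.mem_filter] at hk
            exact hX k N hk.2
        _ ≤ ∑ k ∈ range N, c / 2 * (1 / 2) ^ k * Real.sqrt N := by
            apply Finset.sum_le_sum_of_subset_of_nonneg (Finset.filter_subset _ _)
            intro k _ _
            positivity
        _ = c / 2 * Real.sqrt N * ∑ k ∈ range N, ((1 : ℝ) / 2) ^ k := by
            rw [Finset.mul_sum]
            apply Finset.sum_congr rfl
            intro k _
            ring
        _ ≤ c / 2 * Real.sqrt N * 2 :=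
            mul_le_mul_of_nonneg_left (geom_bound N) (by positivity)
        _ = c * Real.sqrt N := by ring
    rw [le_div_iff₀ hgN]
    exact h3

lemma count_split (A B : Set ℕ) (N : ℕ) :
    (A ∩ Set.Icc 1 N).ncard ≤ ((A \ B) ∩ Set.Icc 1 N).ncard + (B ∩ Set.Icc 1 N).ncard := by
  have hfin : (((A \ B) ∩ Set.Icc 1 N) ∪ (B ∩ Set.Icc 1 N)).Finite :=
    ((Set.finite_Icc 1 N).inter_of_right _).union ((Set.finite_Icc 1 N).inter_of_right _)
  refine le_trans (Set.ncard_le_ncard ?_ hfin) (Set.ncard_union_le _ _)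
  intro a ha
  by_cases hb : a ∈ B
  · exact Or.inr ⟨hb, ha.2⟩
  · exact Or.inl ⟨⟨ha.1, hb⟩, ha.2⟩

/-- `g` forces unbounded representations as soon as it does so for the sets which meet each
member of a countable family of rare sets in a finite set. -/
theorem forces_iff (g : ℕ → ℝ) (hg : ∀ᶠ N : ℕ in atTop, 0 < g N) (S : ℕ → Set ℕ)
    (hS : ∀ k, Rare g (S k)) :
    ForcesFor (fun _ => True) g ↔ ForcesFor (fun A => ∀ k, (A ∩ S k).Finite) g := by
  constructor
  · intro h A _ hA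
    exact h A trivial hA
  · rintro h A - ⟨c, hc, hA⟩ M
    by_contra hcon
    push Not at hcon
    obtain ⟨B, hBA, hB, hAB⟩ := reduction g hg S hS M A (fun n => (hcon n).le) (c / 2)
      (by positivity)
    obtain ⟨n, hn⟩ := h B hB ⟨c / 2, by positivity, by
      filter_upwards [hA, hAB, hg] with N h1 h2 h3
      have h4 : ((A ∩ Set.Icc 1 N).ncard : ℝ) ≤
          (((A \ B) ∩ Set.Icc 1 N).ncard : ℝ) + ((B ∩ Set.Icc 1 N).ncard : ℝ) := by
        exact_mod_cast count_split A B N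
      have h5 : c * Real.sqrt N / g N = c / 2 * Real.sqrt N / g N + c / 2 * Real.sqrt N / g N := by
        ring
      linarith⟩ M
    have := rep_mono' hBA n
    have := hcon n
    omega

/-- sets of irregular integers are rare -/
lemma rare_irregular (g : ℕ → ℝ) (hg : ∀ᶠ N : ℕ in atTop, 0 < g N) (u : ℕ → ℝ) (q ε : ℝ)
    (hu0 : 0 < u 0) (hq : 1 < q) (hu : ∀ j, q * u j ≤ u (j + 1)) (hε : 0 < ε)
    (hgu : ∀ c : ℝ, 0 < c → ∀ᶠ N : ℕ in atTop, g N ≤ Real.exp (c * {j : ℕ | u j ≤ N}.ncard)) :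
    Rare g (Irregular u ε) := by
  obtain ⟨c, hc, hev⟩ := irr_sets_two u q ε hu0 hq hu hε
  intro K η hη
  filter_upwards [hev, hg, hgu (c / 4) (by positivity),
    absorb u q hu0 hq hu (c / 2) (((K : ℝ) + 1) / η ^ 2) (by positivity)]
    with x hx hg0 hgx hab A hA
  obtain ⟨n, _, hn⟩ := hx A
  have hJ : (({j : ℕ | u j ≤ x}.ncard : ℕ) : ℝ) = (numLE u x : ℝ) := rfl
  rw [hJ] at hn hgx
  set J : ℝ := (numLE u x : ℝ) with hJdef
  set a : ℝ := ((A ∩ Irregular u ε ∩ Set.Iic x).ncard : ℝ) with ha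
  have ha0 : 0 ≤ a := by positivity
  have hxr : (0 : ℝ) ≤ x := by positivity
  have h1 : a ^ 2 * Real.exp (c * J) ≤ x * K := by
    refine le_trans hn ?_
    apply mul_le_mul_of_nonneg_left _ hxr
    exact_mod_cast hA n
  have h2 : (g x) ^ 2 ≤ Real.exp (c / 2 * J) := by
    have : Real.exp (c / 2 * J) = (Real.exp (c / 4 * J)) ^ 2 := by
      rw [sq, ← Real.exp_add]
      congr 1
      ring
    rw [this]
    exact pow_le_pow_left₀ hg0.le hgx 2
  have h3 : ((K : ℝ) + 1) ≤ Real.exp (c / 2 * J) * η ^ 2 := by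
    rwa [div_le_iff₀ (by positivity)] at hab
  have hexp : Real.exp (c * J) = Real.exp (c / 2 * J) * Real.exp (c / 2 * J) := by
    rw [← Real.exp_add]
    congr 1
    ring
  have h4 : (K + 1) * (a * g x) ^ 2 ≤ (K + 1) * (η * Real.sqrt x) ^ 2 := by
    calc (K + 1) * (a * g x) ^ 2 = a ^ 2 * ((g x) ^ 2 * (K + 1)) := by ring
      _ ≤ a ^ 2 * (Real.exp (c / 2 * J) * (Real.exp (c / 2 * J) * η ^ 2)) := by
          apply mul_le_mul_of_nonneg_left _ (by positivity)
          exact mul_le_mul h2 h3 (by positivity) (by positivity)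
      _ = (a ^ 2 * Real.exp (c * J)) * η ^ 2 := by rw [hexp]; ring
      _ ≤ (x * K) * η ^ 2 := mul_le_mul_of_nonneg_right h1 (by positivity)
      _ ≤ (x * (K + 1)) * η ^ 2 := by
          apply mul_le_mul_of_nonneg_right _ (by positivity)
          apply mul_le_mul_of_nonneg_left _ hxr
          linarith
      _ = (K + 1) * (η * Real.sqrt x) ^ 2 := by
          rw [mul_pow, Real.sq_sqrt hxr]
          ring
  have h5 := le_of_mul_le_mul_left h4 (by positivity)
  exact abs_le_of_sq_le_sq' h5 (by positivity) |>.2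

/-- the representation numbers of truncations -/
lemma trunc_rep' (A S : Set ℕ) (K : ℕ) (hA : ∀ n, rep A n ≤ K) (x v : ℕ) :
    ((trunc (A ∩ S) x ×ˢ trunc (A ∩ S) x).filter (fun p => p.1 + p.2 = v)).card ≤ K :=
  ((trunc_rep (A ∩ S) x v).trans (rep_mono' Set.inter_subset_left v)).trans (hA v)

/-- a slowly growing `G` for which all members of a countable family of negligible sets are
rare -/
theorem exists_rare (S : ℕ → Set ℕ) (hS : ∀ k, Negligible (S k)) :
    ∃ G : ℕ → ℝ, Tendsto G atTop atTop ∧ (∀ N, 0 < G N) ∧ ∀ k, Rare G (S k) := by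
  classical
  have h1 : ∀ m : ℕ, ∀ᶠ x₀ : ℕ in atTop, ∀ x, x₀ ≤ x → ∀ k, k ≤ m → ∀ K, K ≤ m →
      ∀ T : Finset ℕ, (∀ a ∈ T, a ∈ S k ∧ a ≤ x) →
      (∀ v, ((T ×ˢ T).filter (fun p => p.1 + p.2 = v)).card ≤ K) →
        (T.card : ℝ) ^ 2 ≤ 1 / ((m : ℝ) + 1) ^ 4 * x := by
    intro m
    have h2 : ∀ᶠ x : ℕ in atTop, ∀ k ∈ Finset.range (m + 1), ∀ K ∈ Finset.range (m + 1),
        ∀ T : Finset ℕ, (∀ a ∈ T, a ∈ S k ∧ a ≤ x) →
      (∀ v, ((T ×ˢ T).filter (fun p => p.1 + p.2 = v)).card ≤ K) →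
        (T.card : ℝ) ^ 2 ≤ 1 / ((m : ℝ) + 1) ^ 4 * x := by
      rw [eventually_all_finset]
      intro k _
      rw [eventually_all_finset]
      intro K _
      exact hS k K _ (by positivity)
    obtain ⟨x₀, hx₀⟩ := eventually_atTop.1 h2
    filter_upwards [eventually_ge_atTop x₀] with y hy x hx k hk K hK
    exact hx₀ x (hy.trans hx) k (Finset.mem_range.2 (by omega)) K (Finset.mem_range.2 (by omega))
  obtain ⟨φ, hφ, hφ2⟩ := extraction_forall_of_eventually h1
  set m : ℕ → ℕ := fun x => Nat.findGreatest (fun m => φ m ≤ x) x with hm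
  have hmge : ∀ M x : ℕ, φ M ≤ x → M ≤ m x := by
    intro M x hx
    exact Nat.le_findGreatest (hφ.le_apply.trans hx) hx
  have hmspec : ∀ x : ℕ, φ 0 ≤ x → φ (m x) ≤ x := by
    intro x hx
    exact Nat.findGreatest_spec (P := fun m => φ m ≤ x) (Nat.zero_le x) hx
  have hmtend : Tendsto m atTop atTop := by
    rw [tendsto_atTop]
    intro M
    filter_upwards [eventually_ge_atTop (φ M)] with x hx
    exact hmge M x hx
  refine ⟨fun x => (m x : ℝ) + 1, ?_, fun N => by positivity, ?_⟩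
  · exact tendsto_atTop_add_const_right _ _ (tendsto_natCast_atTop_atTop.comp hmtend)
  · intro k K ε hε
    obtain ⟨L, hL⟩ := exists_nat_gt (1 / ε)
    filter_upwards [hmtend.eventually_ge_atTop (max k (max K L)), eventually_ge_atTop (φ 0)]
      with x hx hx0 A hA
    have hk : k ≤ m x := (le_max_left _ _).trans hx
    have hK : K ≤ m x := (le_max_left _ _).trans ((le_max_right _ _).trans hx)
    have hLm : L ≤ m x := (le_max_right _ _).trans ((le_max_right _ _).trans hx)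
    have h2 := hφ2 (m x) x (hmspec x hx0) k hk K hK (trunc (A ∩ S k) x) (by
      intro a ha
      rw [mem_trunc] at ha
      exact ⟨ha.2.2, ha.1⟩) (trunc_rep' A (S k) K hA x)
    rw [ncard_trunc]
    set a : ℝ := ((trunc (A ∩ S k) x).card : ℝ) with ha
    have ha0 : 0 ≤ a := by positivity
    set μ : ℝ := (m x : ℝ) + 1 with hμ
    have hμ0 : 0 < μ := by positivity
    have h3 : (a * μ ^ 2) ^ 2 ≤ (Real.sqrt x) ^ 2 := by
      rw [Real.sq_sqrt (by positivity)]
      rw [one_div, inv_mul_eq_div, le_div_iff₀ (by positivity)] at h2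
      have h2' : (a * μ ^ 2) ^ 2 = a ^ 2 * μ ^ 4 := by ring
      rw [h2']
      exact h2
    have h4 : a * μ ^ 2 ≤ Real.sqrt x := (abs_le_of_sq_le_sq' h3 (by positivity)).2
    have h5 : 1 / ε ≤ μ := by
      have : (L : ℝ) ≤ m x := by exact_mod_cast hLm
      linarith
    have h6 : 1 ≤ ε * μ := by
      rw [div_le_iff₀ hε] at h5
      linarith
    calc a * μ ≤ a * μ * (ε * μ) := le_mul_of_one_le_right (by positivity) h6
      _ = ε * (a * μ ^ 2) := by ring
      _ ≤ ε * Real.sqrt x := mul_le_mul_of_nonneg_left h4 hε.le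

/-- **Q1 can be reduced to the sets which meet each member of a countable family of negligible
sets in a finite set.** -/
theorem Q1_iff (S : ℕ → Set ℕ) (hS : ∀ k, Negligible (S k)) :
    (∃ g : ℕ → ℝ, Tendsto g atTop atTop ∧ ForcesFor (fun _ => True) g) ↔
      ∃ g : ℕ → ℝ, Tendsto g atTop atTop ∧ ForcesFor (fun A => ∀ k, (A ∩ S k).Finite) g := by
  constructor
  · rintro ⟨g, hg, h⟩
    exact ⟨g, hg, fun A _ hA => h A trivial hA⟩
  · rintro ⟨g, hg, h⟩
    obtain ⟨G, hG, hGpos, hGS⟩ := exists_rare S hS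
    have hmin : Tendsto (fun N => min (g N) (G N)) atTop atTop := by
      rw [tendsto_atTop]
      intro b
      filter_upwards [hg.eventually_ge_atTop b, hG.eventually_ge_atTop b] with N h1 h2
      exact le_min h1 h2
    have hminpos : ∀ᶠ N : ℕ in atTop, 0 < min (g N) (G N) := hmin.eventually_gt_atTop 0
    refine ⟨fun N => min (g N) (G N), hmin, ?_⟩
    rw [forces_iff _ hminpos S (fun k => (hGS k).of_le
      (Eventually.of_forall (fun N => min_le_right _ _)))]
    rintro A hA ⟨c, hc, h1⟩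
    apply h A hA
    refine ⟨c, hc, ?_⟩
    filter_upwards [h1, hminpos] with N h2 h3
    refine le_trans ?_ h2
    apply div_le_div_of_nonneg_left (by positivity) h3 (min_le_left _ _)

/-- **Explicit thresholds for sets of irregular integers.** -/
theorem irregular_thresholds (k : ℕ) (u : Fin k → ℕ → ℝ) (q ε : Fin k → ℝ)
    (hu0 : ∀ i, 0 < u i 0) (hq : ∀ i, 1 < q i) (hu : ∀ i j, q i * u i j ≤ u i (j + 1))
    (hε : ∀ i, 0 < ε i) :
    ∃ c : ℝ, 0 < c ∧ ∀ g : ℕ → ℝ, (∀ᶠ N : ℕ in atTop, 0 < g N) →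
      (∀ i, ∀ᶠ N : ℕ in atTop, g N ≤ Real.exp (c * {j : ℕ | u i j ≤ N}.ncard)) →
      ∀ A : Set ℕ, A ⊆ ⋃ i, Irregular (u i) (ε i) →
        (∃ C : ℝ, 0 < C ∧ ∃ᶠ N : ℕ in atTop,
          C * Real.sqrt (N : ℝ) / g N ≤ ((A ∩ Set.Icc 1 N).ncard : ℝ)) →
        ∀ M : ℕ, ∃ n : ℕ, M ≤ rep A n := by
  classical
  choose c hc hev using fun i => irr_sets_two (u i) (q i) (ε i) (hu0 i) (hq i) (hu i) (hε i)
  -- a common constant
  obtain ⟨c₀, hc₀, hc₀i⟩ : ∃ c₀ : ℝ, 0 < c₀ ∧ ∀ i, c₀ ≤ c i := by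
    rcases Nat.eq_zero_or_pos k with rfl | hk
    · exact ⟨1, one_pos, fun i => i.elim0⟩
    · have : Nonempty (Fin k) := ⟨⟨0, hk⟩⟩
      obtain ⟨i₀, hi₀⟩ := Finite.exists_min c
      exact ⟨c i₀, hc i₀, hi₀⟩
  refine ⟨c₀ / 4, by positivity, ?_⟩
  rintro g hg hgu A hA ⟨C, hC, hfreq⟩ M
  by_contra hcon
  push Not at hcon
  -- each of the pieces is small
  have hpiece : ∀ i, ∀ᶠ x : ℕ in atTop,
      ((A ∩ Irregular (u i) (ε i) ∩ Set.Iic x).ncard : ℝ) * g x ≤
        C / (2 * (k + 1)) * Real.sqrt x := by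
    intro i
    set η : ℝ := C / (2 * (k + 1)) with hη
    have hη0 : 0 < η := by positivity
    filter_upwards [hev i, hg, hgu i,
      absorb (u i) (q i) (hu0 i) (hq i) (hu i) (c₀ / 2) (((M : ℝ) + 1) / η ^ 2) (by positivity)]
      with x hx hg0 hgx hab
    obtain ⟨n, _, hn⟩ := hx A
    have hJ : (({j : ℕ | u i j ≤ x}.ncard : ℕ) : ℝ) = (numLE (u i) x : ℝ) := rfl
    rw [hJ] at hn hgx
    set J : ℝ := (numLE (u i) x : ℝ) with hJdef
    have hJ0 : 0 ≤ J := by positivity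
    set a : ℝ := ((A ∩ Irregular (u i) (ε i) ∩ Set.Iic x).ncard : ℝ) with ha
    have ha0 : 0 ≤ a := by positivity
    have hxr : (0 : ℝ) ≤ x := by positivity
    have h0 : Real.exp (c₀ * J) ≤ Real.exp (c i * J) :=
      Real.exp_le_exp.2 (mul_le_mul_of_nonneg_right (hc₀i i) hJ0)
    have h1 : a ^ 2 * Real.exp (c₀ * J) ≤ x * M := by
      calc a ^ 2 * Real.exp (c₀ * J) ≤ a ^ 2 * Real.exp (c i * J) :=
            mul_le_mul_of_nonneg_left h0 (by positivity)
        _ ≤ x * (rep A n : ℝ) := hn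
        _ ≤ x * M := by
            apply mul_le_mul_of_nonneg_left _ hxr
            exact_mod_cast (hcon n).le
    have h2 : (g x) ^ 2 ≤ Real.exp (c₀ / 2 * J) := by
      have : Real.exp (c₀ / 2 * J) = (Real.exp (c₀ / 4 * J)) ^ 2 := by
        rw [sq, ← Real.exp_add]
        congr 1
        ring
      rw [this]
      exact pow_le_pow_left₀ hg0.le hgx 2
    have h3 : ((M : ℝ) + 1) ≤ Real.exp (c₀ / 2 * J) * η ^ 2 := by
      rwa [div_le_iff₀ (by positivity)] at hab
    have hexp : Real.exp (c₀ * J) = Real.exp (c₀ / 2 * J) * Real.exp (c₀ / 2 * J) := by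
      rw [← Real.exp_add]
      congr 1
      ring
    have h4 : (M + 1) * (a * g x) ^ 2 ≤ (M + 1) * (η * Real.sqrt x) ^ 2 := by
      calc (M + 1) * (a * g x) ^ 2 = a ^ 2 * ((g x) ^ 2 * (M + 1)) := by ring
        _ ≤ a ^ 2 * (Real.exp (c₀ / 2 * J) * (Real.exp (c₀ / 2 * J) * η ^ 2)) := by
            apply mul_le_mul_of_nonneg_left _ (by positivity)
            exact mul_le_mul h2 h3 (by positivity) (by positivity)
        _ = (a ^ 2 * Real.exp (c₀ * J)) * η ^ 2 := by rw [hexp]; ring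
        _ ≤ (x * M) * η ^ 2 := mul_le_mul_of_nonneg_right h1 (by positivity)
        _ ≤ (x * (M + 1)) * η ^ 2 := by
            apply mul_le_mul_of_nonneg_right _ (by positivity)
            apply mul_le_mul_of_nonneg_left _ hxr
            linarith
        _ = (M + 1) * (η * Real.sqrt x) ^ 2 := by
            rw [mul_pow, Real.sq_sqrt hxr]
            ring
    have h5 := le_of_mul_le_mul_left h4 (by positivity)
    exact abs_le_of_sq_le_sq' h5 (by positivity) |>.2
  obtain ⟨N, hN1, hN2, hN3, hN4⟩ := (hfreq.and_eventually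
    ((eventually_all.2 hpiece).and (hg.and (eventually_gt_atTop 0)))).exists
  have hNr : (0 : ℝ) < N := by exact_mod_cast hN4
  have hsub : A ∩ Set.Icc 1 N ⊆ ((Finset.univ : Finset (Fin k)).biUnion
      (fun i => trunc (A ∩ Irregular (u i) (ε i)) N) : Finset ℕ) := by
    rintro a ⟨ha1, ha2⟩
    obtain ⟨i, hi⟩ := Set.mem_iUnion.1 (hA ha1)
    rw [Finset.mem_coe, Finset.mem_biUnion]
    refine ⟨i, Finset.mem_univ _, ?_⟩
    rw [mem_trunc]
    exact ⟨ha2.2, ha1, hi⟩
  have h1 : (A ∩ Set.Icc 1 N).ncard ≤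
      ∑ i : Fin k, (A ∩ Irregular (u i) (ε i) ∩ Set.Iic N).ncard := by
    refine le_trans (Set.ncard_le_ncard hsub (Finset.finite_toSet _)) ?_
    rw [Set.ncard_coe_finset]
    refine le_trans Finset.card_biUnion_le ?_
    apply Finset.sum_le_sum
    intro i _
    rw [ncard_trunc]
  have h2 : ((A ∩ Set.Icc 1 N).ncard : ℝ) * g N ≤ C / 2 * Real.sqrt N := by
    calc ((A ∩ Set.Icc 1 N).ncard : ℝ) * g N
        ≤ (∑ i : Fin k, ((A ∩ Irregular (u i) (ε i) ∩ Set.Iic N).ncard : ℝ)) * g N := by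
          apply mul_le_mul_of_nonneg_right _ hN3.le
          exact_mod_cast h1
      _ = ∑ i : Fin k, ((A ∩ Irregular (u i) (ε i) ∩ Set.Iic N).ncard : ℝ) * g N := by
          rw [Finset.sum_mul]
      _ ≤ ∑ _i : Fin k, C / (2 * (k + 1)) * Real.sqrt N := Finset.sum_le_sum (fun i _ => hN2 i)
      _ = k * (C / (2 * (k + 1)) * Real.sqrt N) := by
          rw [Finset.sum_const, Finset.card_univ, Fintype.card_fin, nsmul_eq_mul]
      _ ≤ C / 2 * Real.sqrt N := by
          have hk : (k : ℝ) * (C / (2 * (k + 1))) ≤ C / 2 := by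
            rw [mul_div_assoc', div_le_div_iff₀ (by positivity) (by positivity)]
            nlinarith
          calc (k : ℝ) * (C / (2 * (k + 1)) * Real.sqrt N) =
              (k : ℝ) * (C / (2 * (k + 1))) * Real.sqrt N := by ring
            _ ≤ _ := mul_le_mul_of_nonneg_right hk (by positivity)
  have h3 : C * Real.sqrt N ≤ ((A ∩ Set.Icc 1 N).ncard : ℝ) * g N := by
    rwa [div_le_iff₀ hN3] at hN1
  have h4 : 0 < Real.sqrt N := Real.sqrt_pos.2 hNr
  nlinarith

end Pool.Agent.H78R2.ET
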